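import Pool.Agent.V11248.FM.Cyc

/-!
# The adjoint representation
-/

set_option autoImplicit false

namespace Pool.Agent.V11248.FM

open NumberField IsDedekindDomain Matrix IsLocalRing Pool.Agent.W569.FM Pool.Agent.W571.FM

open scoped Kronecker

section
variable {A : Type} [CommRing A] {n : ℕ}

/-- conjugation by `M`, as a matrix -/
noncomputable def adm (M : GL (Fin n) A) : Matrix (Fin (n * n)) (Fin (n * n)) A :=
  ((M : Matrix (Fin n) (Fin n) A) ⊗ₖ
    ((M⁻¹ : GL (Fin n) A) : Matrix (Fin n) (Fin n) A)ᵀ).submatrix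
      finProdFinEquiv.symm finProdFinEquiv.symm

theorem adm_apply (M : GL (Fin n) A) (x y : Fin (n * n)) : adm M x y =
    (M : Matrix (Fin n) (Fin n) A) (finProdFinEquiv.symm x).1 (finProdFinEquiv.symm y).1 *
    ((M⁻¹ : GL (Fin n) A) : Matrix (Fin n) (Fin n) A) (finProdFinEquiv.symm y).2
      (finProdFinEquiv.symm x).2 := rfl

/-- the adjoint representation of `GL n` -/
noncomputable def ad : GL (Fin n) A →* GL (Fin (n * n)) A :=
  MonoidHom.toHomUnits
    { toFun := adm
      map_one' := by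
        rw [adm, inv_one, Units.val_one, transpose_one, one_kronecker_one, submatrix_one_equiv]
      map_mul' := fun M N => by
        rw [adm, adm, adm, submatrix_mul_equiv, ← mul_kronecker_mul, _root_.mul_inv_rev, Units.val_mul,
          Units.val_mul, transpose_mul] }

theorem ad_val (M : GL (Fin n) A) : (ad M : Matrix (Fin (n * n)) (Fin (n * n)) A) = adm M := rfl

theorem one_entry (x y : Fin (n * n)) : (1 : Matrix (Fin (n * n)) (Fin (n * n)) A) x y =
    (1 : Matrix (Fin n) (Fin n) A) (finProdFinEquiv.symm x).1 (finProdFinEquiv.symm y).1 *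
    (1 : Matrix (Fin n) (Fin n) A) (finProdFinEquiv.symm y).2 (finProdFinEquiv.symm x).2 := by
  have h := congrFun (congrFun (congrArg (fun M : GL (Fin (n * n)) A =>
    (M : Matrix (Fin (n * n)) (Fin (n * n)) A)) (map_one (ad (A := A) (n := n)))) x) y
  rw [Units.val_one, ad_val, adm_apply, inv_one, Units.val_one] at h
  exact h.symm

/-- matrices which are scalar modulo an ideal -/
theorem ad_sub_one {I : Ideal A} {M : GL (Fin n) A} {a : A}
    (h : MJ I ((M : Matrix (Fin n) (Fin n) A) - a • 1)) :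
    MJ I ((ad M : Matrix (Fin (n * n)) (Fin (n * n)) A) - 1) := by
  intro x y
  set N := ((M⁻¹ : GL (Fin n) A) : Matrix (Fin n) (Fin n) A) with hN
  have hMN : (M : Matrix (Fin n) (Fin n) A) * N = 1 := M.mul_inv
  have h1 : ∀ i j, (a • N - 1) i j ∈ I := by
    intro i j
    have h2 : a • N - 1 = -(((M : Matrix (Fin n) (Fin n) A) - a • 1) * N) := by
      rw [sub_mul, hMN, smul_mul_assoc, one_mul]
      abel
    rw [h2, Matrix.neg_apply, Matrix.mul_apply]
    exact I.neg_mem (I.sum_mem fun k _ => I.mul_mem_right _ (h i k))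
  rw [Matrix.sub_apply, one_entry, ad_val, adm_apply, ← hN]
  generalize (finProdFinEquiv.symm x).1 = i
  generalize (finProdFinEquiv.symm y).1 = j
  generalize (finProdFinEquiv.symm x).2 = i'
  generalize (finProdFinEquiv.symm y).2 = j'
  have h3 := h i j
  have h4 := h1 j' i'
  rw [Matrix.sub_apply, Matrix.smul_apply, smul_eq_mul] at h3 h4
  have h5 : (M : Matrix (Fin n) (Fin n) A) i j * N j' i' -
      (1 : Matrix (Fin n) (Fin n) A) i j * (1 : Matrix (Fin n) (Fin n) A) j' i' =
      ((M : Matrix (Fin n) (Fin n) A) i j - a * (1 : Matrix (Fin n) (Fin n) A) i j) * N j' i' +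
      (1 : Matrix (Fin n) (Fin n) A) i j * (a * N j' i' -
        (1 : Matrix (Fin n) (Fin n) A) j' i') := by
    ring
  rw [h5]
  exact I.add_mem (I.mul_mem_right _ h3) (I.mul_mem_left _ h4)

/-- the kernel of the adjoint representation consists of the scalar matrices -/
theorem ad_eq_one {M : GL (Fin n) A} (h : ad M = 1) :
    ∃ a : A, (M : Matrix (Fin n) (Fin n) A) = a • 1 := by
  rcases Nat.eq_zero_or_pos n with rfl | hn
  · exact ⟨1, by ext i; exact Fin.elim0 i⟩
  · set N := ((M⁻¹ : GL (Fin n) A) : Matrix (Fin n) (Fin n) A) with hN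
    have hNM : N * (M : Matrix (Fin n) (Fin n) A) = 1 := M.inv_mul
    have h1 : ∀ i j i' j' : Fin n, (M : Matrix (Fin n) (Fin n) A) i j * N j' i' =
        (1 : Matrix (Fin n) (Fin n) A) i j * (1 : Matrix (Fin n) (Fin n) A) j' i' := by
      intro i j i' j'
      obtain ⟨x, hx⟩ : ∃ x : Fin (n * n), finProdFinEquiv.symm x = (i, i') :=
        ⟨finProdFinEquiv (i, i'), Equiv.symm_apply_apply _ _⟩
      obtain ⟨y, hy⟩ : ∃ y : Fin (n * n), finProdFinEquiv.symm y = (j, j') :=
        ⟨finProdFinEquiv (j, j'), Equiv.symm_apply_apply _ _⟩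
      have h2 := congrFun (congrFun (congrArg (fun M : GL (Fin (n * n)) A =>
        (M : Matrix (Fin (n * n)) (Fin (n * n)) A)) h) x) y
      rw [Units.val_one, ad_val, adm_apply, one_entry, hx, hy] at h2
      exact h2
    set k : Fin n := ⟨0, hn⟩ with hk
    refine ⟨(M : Matrix (Fin n) (Fin n) A) k k, ?_⟩
    ext i j
    have h3 : (M : Matrix (Fin n) (Fin n) A) i j =
        ∑ i', (M : Matrix (Fin n) (Fin n) A) i j * N k i' *
          (M : Matrix (Fin n) (Fin n) A) i' k := by
      have h4 := congrFun (congrFun hNM k) k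
      rw [Matrix.mul_apply, Matrix.one_apply_eq] at h4
      calc (M : Matrix (Fin n) (Fin n) A) i j
          = (M : Matrix (Fin n) (Fin n) A) i j *
            ∑ i', N k i' * (M : Matrix (Fin n) (Fin n) A) i' k := by rw [h4, mul_one]
        _ = _ := by
            rw [Finset.mul_sum]
            exact Finset.sum_congr rfl fun i' _ => (mul_assoc _ _ _).symm
    rw [h3, Matrix.smul_apply, smul_eq_mul]
    simp only [h1]
    rw [Finset.sum_eq_single k]
    · rw [Matrix.one_apply_eq]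
      ring
    · intro i' _ hi'
      rw [Matrix.one_apply_ne (Ne.symm hi')]
      ring
    · intro h
      exact absurd (Finset.mem_univ _) h

theorem ad_of_scalar {M : GL (Fin n) A} {a : A}
    (h : (M : Matrix (Fin n) (Fin n) A) = a • 1) : ad M = 1 := by
  have h1 : MJ (⊥ : Ideal A) ((M : Matrix (Fin n) (Fin n) A) - a • 1) := by
    intro i j
    rw [h, sub_self]
    exact Ideal.zero_mem _
  apply Units.ext
  ext i j
  have h2 := ad_sub_one h1 i j
  rw [Ideal.mem_bot, Matrix.sub_apply, sub_eq_zero] at h2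
  exact h2

theorem ad_map {R : Type} [CommRing R] (φ : A →+* R) (M : GL (Fin n) A) :
    GeneralLinearGroup.map φ (ad M) = ad (GeneralLinearGroup.map φ M) := by
  apply Units.ext
  ext x y
  have h1 : (((GeneralLinearGroup.map φ M)⁻¹ : GL (Fin n) R) : Matrix (Fin n) (Fin n) R) =
      (((M⁻¹ : GL (Fin n) A) : Matrix (Fin n) (Fin n) A)).map φ := by
    rw [← map_inv]
    rfl
  rw [ad_val, adm_apply, h1]
  show φ (adm M x y) = _
  rw [adm_apply, map_mul]
  rfl

variable {p : ℕ} [hp : Fact p.Prime] {K : Type} [Field K] [NumberField K] [IsLocalRing A]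
  [IsNoetherianRing A]

/-- if the adjoint representation factors through a procyclic group then `ρ` is abelian -/
theorem comm_of_ad (hpA : (p : A) ∈ maximalIdeal A) (E : Set (HeightOneSpectrum (𝓞 K)))
    (hK : ∀ χ χ' : GF K →* Multiplicative (ZMod p), UO p E χ → UO p E χ' → (∃ h, χ h ≠ 1) →
      ∀ g, χ g = 1 → χ' g = 1)
    {ρ : GF K →* GL (Fin n) A}
    (hcts : ∀ N : ℕ, ∀ᶠ g in nhds (1 : GF K), MJ (maximalIdeal A ^ N)
      (((ad.comp ρ) g : Matrix (Fin (n * n)) (Fin (n * n)) A) - 1))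
    (hres : ∀ g, ∃ M : ℕ, MJ (maximalIdeal A)
      ((((ad.comp ρ) g : Matrix (Fin (n * n)) (Fin (n * n)) A) - 1) ^ M))
    (hreal : ∀ c : GF K, c * c = 1 → ad.comp ρ c = 1)
    (h : ∀ P : Ideal (OO K), P.IsMaximal → (∀ v ∈ E, cm P ≠ v.asIdeal) → ∀ τ : GF K,
      InInertia P τ → ad.comp ρ τ = 1) (g g' : GF K) : ρ g * ρ g' = ρ g' * ρ g := by
  refine eq_of_red fun N => ?_
  obtain ⟨h1, h2, h3⟩ := red_group hpA hcts hres (maximalIdeal A ^ N) N le_rfl
  set φ : GL (Fin n) A →* GL (Fin n) (A ⧸ maximalIdeal A ^ N) :=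
    GeneralLinearGroup.map (Ideal.Quotient.mk (maximalIdeal A ^ N)) with hφ
  set f := (GeneralLinearGroup.map (n := Fin (n * n)) (Ideal.Quotient.mk
    (maximalIdeal A ^ N))).comp (ad.comp ρ) with hf
  obtain ⟨s, hs⟩ := cyc_gen E hK f h2 h3 (by
    rw [← MonoidHom.ker_rangeRestrict]
    exact h1) (fun P hP hPE τ hτ => by
      rw [hf, MonoidHom.comp_apply, h P hP hPE τ hτ, map_one]) (fun c hc => by
      rw [hf, MonoidHom.comp_apply, hreal c hc, map_one])
  have hfφ : ∀ x, f x = ad (φ (ρ x)) := fun x => ad_map _ _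
  have key : ∀ x, ∃ (i : ℤ) (a : A ⧸ maximalIdeal A ^ N),
      ((φ (ρ x) : GL (Fin n) (A ⧸ maximalIdeal A ^ N)) :
        Matrix (Fin n) (Fin n) (A ⧸ maximalIdeal A ^ N)) =
      a • ((φ (ρ s) ^ i : GL (Fin n) (A ⧸ maximalIdeal A ^ N)) :
        Matrix (Fin n) (Fin n) (A ⧸ maximalIdeal A ^ N)) := by
    intro x
    obtain ⟨i, hi⟩ := Subgroup.mem_zpowers_iff.1 (hs x)
    have h4 : ad (φ (ρ x) * (φ (ρ s) ^ i)⁻¹) = 1 := by
      rw [map_mul, map_inv, map_zpow, ← hfφ, ← hfφ, hi, mul_inv_cancel]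
    obtain ⟨a, ha⟩ := ad_eq_one h4
    refine ⟨i, a, ?_⟩
    have h5 : φ (ρ x) = (φ (ρ x) * (φ (ρ s) ^ i)⁻¹) * (φ (ρ s) ^ i) := by
      rw [inv_mul_cancel_right]
    have h6 := congrArg (fun M : GL (Fin n) (A ⧸ maximalIdeal A ^ N) =>
      (M : Matrix (Fin n) (Fin n) (A ⧸ maximalIdeal A ^ N))) h5
    simp only [Units.val_mul] at h6
    rw [Units.val_mul] at ha
    rw [h6, ha, smul_mul_assoc, one_mul]
  show φ (ρ g * ρ g') = φ (ρ g' * ρ g)
  rw [map_mul, map_mul]
  obtain ⟨i, a, hia⟩ := key g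
  obtain ⟨j, b, hjb⟩ := key g'
  apply Units.ext
  rw [Units.val_mul, Units.val_mul, hia, hjb, smul_mul_smul_comm, smul_mul_smul_comm,
    ← Units.val_mul, ← Units.val_mul, ← _root_.zpow_add, ← _root_.zpow_add, mul_comm a b,
    add_comm i j]

end

end Pool.Agent.V11248.FM
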