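import Pool.Agent.V11248.FM.Alg

/-!
# Two-dimensional representations which are scalar modulo an ideal
-/

set_option autoImplicit false

namespace Pool.Agent.V11248.FM

open Matrix IsLocalRing

section
variable {A : Type} [CommRing A] [IsLocalRing A]

theorem sqrt_cong (h2 : IsUnit (2 : A)) {y a : A} (ha : IsUnit a) (h' : y - a ∈ maximalIdeal A)
    {I : Ideal A} (h : y ^ 2 - a ^ 2 ∈ I) : y - a ∈ I := by
  have h3 : IsUnit (y + a) := by
    by_contra hcon
    have h4 : y + a ∈ maximalIdeal A := hcon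
    have h5 : 2 * a ∈ maximalIdeal A := by
      have h6 := (maximalIdeal A).sub_mem h4 h'
      have h7 : y + a - (y - a) = 2 * a := by ring
      rwa [h7] at h6
    exact h5 (h2.mul ha)
  obtain ⟨v, hv⟩ := h3.exists_right_inv
  have h4 : y - a = (y ^ 2 - a ^ 2) * v := by
    linear_combination -(y - a) * hv
  rw [h4]
  exact I.mul_mem_right _ h

theorem sqrt_unique (h2 : IsUnit (2 : A)) {y a : A} (ha : IsUnit a)
    (h' : y - a ∈ maximalIdeal A) (h : y ^ 2 = a ^ 2) : y = a := by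
  have h3 := sqrt_cong h2 ha h' (I := ⊥) (by rw [h, sub_self]; exact Ideal.zero_mem _)
  rw [Ideal.mem_bot, sub_eq_zero] at h3
  exact h3

theorem exists_sqrt [IsAdicComplete (maximalIdeal A) A] (h2 : IsUnit (2 : A)) {d a : A}
    (ha : IsUnit a) (h : a ^ 2 - d ∈ maximalIdeal A) :
    ∃ y, y ^ 2 = d ∧ y - a ∈ maximalIdeal A := by
  have hH : HenselianRing A (maximalIdeal A) := inferInstance
  obtain ⟨y, hy1, hy2⟩ := hH.is_henselian (Polynomial.X ^ 2 - Polynomial.C d)
    (Polynomial.monic_X_pow_sub_C d two_ne_zero) a (by simpa using h) (by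
      have h3 : IsUnit (2 * a) := h2.mul ha
      have h4 := h3.map (Ideal.Quotient.mk (maximalIdeal A))
      simpa [one_add_one_eq_two] using h4)
  refine ⟨y, ?_, hy2⟩
  have h3 : y ^ 2 - d = 0 := by simpa using hy1
  exact sub_eq_zero.1 h3

theorem unit_cong {y a : A} (ha : IsUnit a) (h' : y - a ∈ maximalIdeal A) : IsUnit y := by
  by_contra hcon
  have h4 : y ∈ maximalIdeal A := hcon
  have h5 : a ∈ maximalIdeal A := by
    have h6 := (maximalIdeal A).sub_mem h4 h'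
    rwa [sub_sub_cancel] at h6
  exact h5 ha

theorem det_cong {I : Ideal A} {M : Matrix (Fin 2) (Fin 2) A} {a : A}
    (h : ∀ i j, (M - a • 1) i j ∈ I) : a ^ 2 - M.det ∈ I := by
  have h00 := h 0 0
  have h01 := h 0 1
  have h10 := h 1 0
  have h11 := h 1 1
  rw [Matrix.sub_apply, Matrix.smul_apply, Matrix.one_apply_eq, smul_eq_mul, mul_one] at h00 h11
  rw [Matrix.sub_apply, Matrix.smul_apply, Matrix.one_apply_ne (by decide), smul_zero,
    sub_zero] at h01 h10
  rw [Matrix.det_fin_two]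
  have h3 : a ^ 2 - (M 0 0 * M 1 1 - M 0 1 * M 1 0) =
      -(a * (M 1 1 - a)) - M 1 1 * (M 0 0 - a) + M 0 1 * M 1 0 := by ring
  rw [h3]
  exact I.add_mem (I.sub_mem (I.neg_mem (I.mul_mem_left _ h11)) (I.mul_mem_left _ h00))
    (I.mul_mem_right _ h01)

/-- the normalised representation -/
theorem exists_twist {G : Type} [Group G] [IsAdicComplete (maximalIdeal A) A]
    (h2 : IsUnit (2 : A)) {I : Ideal A} (hI : I ≤ maximalIdeal A) (ρ : G →* GL (Fin 2) A)
    (hρ : ∀ g, ∃ a : A, ∀ i j, ((ρ g : Matrix (Fin 2) (Fin 2) A) - a • 1) i j ∈ I) :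
    ∃ (y : G →* Aˣ) (ρ' : G →* GL (Fin 2) A),
      (∀ g, (ρ g : Matrix (Fin 2) (Fin 2) A) =
        (y g : A) • (ρ' g : Matrix (Fin 2) (Fin 2) A)) ∧
      (∀ g i j, ((ρ' g : Matrix (Fin 2) (Fin 2) A) - 1) i j ∈ I) ∧
      (∀ g (s : A), (ρ g : Matrix (Fin 2) (Fin 2) A) = s • 1 → ρ' g = 1) ∧
      ∀ g (J : Ideal A), J ≤ maximalIdeal A →
        (∀ i j, ((ρ g : Matrix (Fin 2) (Fin 2) A) - 1) i j ∈ J) →
        ∀ i j, ((ρ' g : Matrix (Fin 2) (Fin 2) A) - 1) i j ∈ J := by
  choose a ha using hρ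
  have hdet : ∀ g, IsUnit (ρ g : Matrix (Fin 2) (Fin 2) A).det := fun g =>
    (Matrix.isUnit_iff_isUnit_det _).1 (ρ g).isUnit
  have hau : ∀ (g : G) (b : A), (∀ i j, ((ρ g : Matrix (Fin 2) (Fin 2) A) - b • 1) i j ∈
      maximalIdeal A) → IsUnit b := by
    intro g b hb
    have h3 := det_cong hb
    by_contra hcon
    have h4 : b ∈ maximalIdeal A := hcon
    have h5 : (ρ g : Matrix (Fin 2) (Fin 2) A).det ∈ maximalIdeal A := by
      have h6 := (maximalIdeal A).sub_mem (Ideal.pow_mem_of_mem _ h4 2 two_pos) h3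
      rwa [sub_sub_cancel] at h6
    exact h5 (hdet g)
  have ham : ∀ g i j, ((ρ g : Matrix (Fin 2) (Fin 2) A) - a g • 1) i j ∈ maximalIdeal A :=
    fun g i j => hI (ha g i j)
  have hex : ∀ g, ∃ y, y ^ 2 = (ρ g : Matrix (Fin 2) (Fin 2) A).det ∧
      y - a g ∈ maximalIdeal A := fun g => exists_sqrt h2 (hau g _ (ham g)) (det_cong (ham g))
  choose y hy1 hy2 using hex
  have hyu : ∀ g, IsUnit (y g) := fun g => unit_cong (hau g _ (ham g)) (hy2 g)
  have hya : ∀ g, y g - a g ∈ I := by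
    intro g
    refine sqrt_cong h2 (hau g _ (ham g)) (hy2 g) ?_
    have h3 := I.neg_mem (det_cong (ha g))
    rw [neg_sub] at h3
    rw [hy1]
    exact h3
  have e00 : ∀ (g : G) (b : A) (J : Ideal A), (∀ i j, ((ρ g : Matrix (Fin 2) (Fin 2) A) -
      b • 1) i j ∈ J) → (ρ g : Matrix (Fin 2) (Fin 2) A) 0 0 - b ∈ J := by
    intro g b J h
    have h3 := h 0 0
    rwa [Matrix.sub_apply, Matrix.smul_apply, Matrix.one_apply_eq, smul_eq_mul, mul_one] at h3
  -- `y g` is the unique root with the given residue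
  have huniq : ∀ (g : G) (z : A), z ^ 2 = (ρ g : Matrix (Fin 2) (Fin 2) A).det →
      (ρ g : Matrix (Fin 2) (Fin 2) A) 0 0 - z ∈ maximalIdeal A → y g = z := by
    intro g z hz1 hz2
    have h3 : y g - z ∈ maximalIdeal A := by
      have h4 := e00 g _ _ (ham g)
      have h5 : y g - z = (y g - a g) - ((ρ g : Matrix (Fin 2) (Fin 2) A) 0 0 - a g) +
          ((ρ g : Matrix (Fin 2) (Fin 2) A) 0 0 - z) := by ring
      rw [h5]
      exact (maximalIdeal A).add_mem ((maximalIdeal A).sub_mem (hy2 g) h4) hz2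
    have hzu : IsUnit z := by
      apply unit_cong (hyu g)
      rw [← neg_sub]
      exact (maximalIdeal A).neg_mem h3
    exact sqrt_unique h2 hzu h3 (by rw [hy1, hz1])
  have hone : y 1 = 1 := by
    apply huniq
    · rw [map_one, Units.val_one, Matrix.det_one, one_pow]
    · rw [map_one, Units.val_one, Matrix.one_apply_eq, sub_self]
      exact Ideal.zero_mem _
  have hmul : ∀ g h, y (g * h) = y g * y h := by
    intro g h
    apply huniq
    · rw [mul_pow, hy1, hy1, map_mul, Units.val_mul, Matrix.det_mul]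
    · have h3 : (ρ (g * h) : Matrix (Fin 2) (Fin 2) A) 0 0 =
          (ρ g : Matrix (Fin 2) (Fin 2) A) 0 0 * (ρ h : Matrix (Fin 2) (Fin 2) A) 0 0 +
          (ρ g : Matrix (Fin 2) (Fin 2) A) 0 1 * (ρ h : Matrix (Fin 2) (Fin 2) A) 1 0 := by
        rw [map_mul, Units.val_mul, Matrix.mul_apply, Fin.sum_univ_two]
      have h4 : (ρ g : Matrix (Fin 2) (Fin 2) A) 0 0 - y g ∈ maximalIdeal A := by
        have h5 := (maximalIdeal A).sub_mem (e00 g _ _ (ham g)) (hy2 g)
        rwa [sub_sub_sub_cancel_right] at h5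
      have h5 : (ρ h : Matrix (Fin 2) (Fin 2) A) 0 0 - y h ∈ maximalIdeal A := by
        have h5 := (maximalIdeal A).sub_mem (e00 h _ _ (ham h)) (hy2 h)
        rwa [sub_sub_sub_cancel_right] at h5
      have h6 : (ρ h : Matrix (Fin 2) (Fin 2) A) 1 0 ∈ maximalIdeal A := by
        have h7 := ham h 1 0
        rwa [Matrix.sub_apply, Matrix.smul_apply, Matrix.one_apply_ne (by decide), smul_zero,
          sub_zero] at h7
      rw [h3]
      have h7 : (ρ g : Matrix (Fin 2) (Fin 2) A) 0 0 * (ρ h : Matrix (Fin 2) (Fin 2) A) 0 0 +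
          (ρ g : Matrix (Fin 2) (Fin 2) A) 0 1 * (ρ h : Matrix (Fin 2) (Fin 2) A) 1 0 -
          y g * y h = ((ρ g : Matrix (Fin 2) (Fin 2) A) 0 0 - y g) *
            (ρ h : Matrix (Fin 2) (Fin 2) A) 0 0 +
            y g * ((ρ h : Matrix (Fin 2) (Fin 2) A) 0 0 - y h) +
          (ρ g : Matrix (Fin 2) (Fin 2) A) 0 1 * (ρ h : Matrix (Fin 2) (Fin 2) A) 1 0 := by ring
      rw [h7]
      exact (maximalIdeal A).add_mem ((maximalIdeal A).add_mem
        ((maximalIdeal A).mul_mem_right _ h4) ((maximalIdeal A).mul_mem_left _ h5))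
        ((maximalIdeal A).mul_mem_left _ h6)
  let Y : G →* Aˣ := MonoidHom.toHomUnits { toFun := y, map_one' := hone, map_mul' := hmul }
  have hY : ∀ g, (Y g : A) = y g := fun g => rfl
  have hYY : ∀ g, ((Y g)⁻¹ : Aˣ).val * y g = 1 := fun g => (Y g).inv_mul
  let sc : Aˣ →* GL (Fin 2) A := Units.map (Matrix.scalar (Fin 2) : A →+* _).toMonoidHom
  have hsc : ∀ u : Aˣ, ((sc u : GL (Fin 2) A) : Matrix (Fin 2) (Fin 2) A) = (u : A) • 1 := by
    intro u
    show Matrix.scalar (Fin 2) (u : A) = _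
    rw [Matrix.scalar_apply, Matrix.smul_one_eq_diagonal]
  have hcomm : ∀ (u : Aˣ) (M : GL (Fin 2) A), sc u * M = M * sc u := by
    intro u M
    apply Units.ext
    rw [Units.val_mul, Units.val_mul, hsc, smul_mul_assoc, mul_smul_comm, one_mul, mul_one]
  let ρ' : G →* GL (Fin 2) A :=
    { toFun := fun g => sc (Y g)⁻¹ * ρ g
      map_one' := by rw [map_one, inv_one, map_one, map_one, one_mul]
      map_mul' := fun g h => by
        calc sc (Y (g * h))⁻¹ * ρ (g * h)
            = (sc (Y g)⁻¹ * sc (Y h)⁻¹) * (ρ g * ρ h) := by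
              rw [map_mul Y, mul_inv, map_mul sc, map_mul ρ]
          _ = sc (Y g)⁻¹ * (sc (Y h)⁻¹ * ρ g) * ρ h := by simp only [mul_assoc]
          _ = sc (Y g)⁻¹ * (ρ g * sc (Y h)⁻¹) * ρ h := by rw [hcomm (Y h)⁻¹ (ρ g)]
          _ = (sc (Y g)⁻¹ * ρ g) * (sc (Y h)⁻¹ * ρ h) := by simp only [mul_assoc] }
  have hρ' : ∀ g, (ρ' g : Matrix (Fin 2) (Fin 2) A) =
      ((Y g)⁻¹ : Aˣ).val • (ρ g : Matrix (Fin 2) (Fin 2) A) := by
    intro g
    show ((sc (Y g)⁻¹ * ρ g : GL (Fin 2) A) : Matrix (Fin 2) (Fin 2) A) = _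
    rw [Units.val_mul, hsc, smul_mul_assoc, one_mul]
  have hcong : ∀ (g : G) (J : Ideal A), (∀ i j, ((ρ g : Matrix (Fin 2) (Fin 2) A) -
      y g • 1) i j ∈ J) → ∀ i j, ((ρ' g : Matrix (Fin 2) (Fin 2) A) - 1) i j ∈ J := by
    intro g J h i j
    have h3 : (ρ' g : Matrix (Fin 2) (Fin 2) A) - 1 = ((Y g)⁻¹ : Aˣ).val •
        ((ρ g : Matrix (Fin 2) (Fin 2) A) - y g • 1) := by
      rw [hρ', smul_sub, smul_smul, hYY, one_smul]
    rw [h3, Matrix.smul_apply, smul_eq_mul]
    exact J.mul_mem_left _ (h i j)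
  refine ⟨Y, ρ', fun g => ?_, fun g => hcong g I fun i j => ?_, fun g s hs => ?_,
    fun g J hJ h => hcong g J fun i j => ?_⟩
  · rw [hρ', smul_smul, hY, mul_comm, hYY, one_smul]
  · have h3 : (ρ g : Matrix (Fin 2) (Fin 2) A) - y g • 1 =
        ((ρ g : Matrix (Fin 2) (Fin 2) A) - a g • 1) - (y g - a g) • 1 := by
      rw [sub_smul]
      abel
    rw [h3, Matrix.sub_apply, Matrix.smul_apply, smul_eq_mul]
    exact I.sub_mem (ha g i j) (I.mul_mem_right _ (hya g))
  · have h3 : y g = s := by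
      apply huniq
      · rw [hs, Matrix.det_smul, Matrix.det_one, mul_one, Fintype.card_fin]
      · rw [hs, Matrix.smul_apply, Matrix.one_apply_eq, smul_eq_mul, mul_one, sub_self]
        exact Ideal.zero_mem _
    apply Units.ext
    rw [hρ', hs, smul_smul, ← h3, hYY, one_smul, Units.val_one]
  · have h3 : (ρ g : Matrix (Fin 2) (Fin 2) A) 0 0 - 1 ∈ J :=
      e00 g 1 J (by rw [one_smul]; exact h)
    have h4 : y g - 1 ∈ maximalIdeal A := by
      have h5 := e00 g _ _ (ham g)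
      have h6 : y g - 1 = (y g - a g) - ((ρ g : Matrix (Fin 2) (Fin 2) A) 0 0 - a g) +
          ((ρ g : Matrix (Fin 2) (Fin 2) A) 0 0 - 1) := by ring
      rw [h6]
      exact (maximalIdeal A).add_mem ((maximalIdeal A).sub_mem (hy2 g) h5) (hJ h3)
    have h5 : y g - 1 ∈ J := by
      refine sqrt_cong h2 isUnit_one h4 ?_
      have h6 := J.neg_mem (det_cong (M := (ρ g : Matrix (Fin 2) (Fin 2) A)) (a := 1)
        (by rw [one_smul]; exact h))
      rw [neg_sub] at h6
      rw [hy1]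
      exact h6
    have h6 : (ρ g : Matrix (Fin 2) (Fin 2) A) - y g • 1 =
        ((ρ g : Matrix (Fin 2) (Fin 2) A) - 1) - (y g - 1) • 1 := by
      rw [sub_smul, one_smul]
      abel
    rw [h6, Matrix.sub_apply, Matrix.smul_apply, smul_eq_mul]
    exact J.sub_mem (h i j) (J.mul_mem_right _ h5)

end

end Pool.Agent.V11248.FM
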