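import Pool.Agent.V11248.FM.Gal

/-!
# The linking conditions
-/

set_option autoImplicit false

namespace Pool.Agent.V11248.FM

open NumberField IsDedekindDomain Pool.Agent.W569.FM Pool.Agent.W571.FM

section
variable {K : Type} [Field K] [NumberField K]

/-- `σ` is a Frobenius element at the place `v` -/
def IsFr (v : HeightOneSpectrum (𝓞 K)) (σ : GF K) : Prop :=
  ∃ P : Ideal (OO K), P.IsMaximal ∧ cm P = v.asIdeal ∧ FrobAt (nm v) P σ

/-- some place `v` in `J` splits completely in all `ℤ/p`-extensions unramified outside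
`J ∪ E \ {v, w}`, for some `w` in `J` or some tame `w` in `E` -/
def Row (p : ℕ) (E : Set (HeightOneSpectrum (𝓞 K))) (J : Finset (HeightOneSpectrum (𝓞 K))) :
    Prop :=
  ∃ v ∈ J, ∃ w : HeightOneSpectrum (𝓞 K), (w ∈ J ∨ w ∈ E ∧ (p : 𝓞 K) ∉ w.asIdeal) ∧
    ∀ χ : GF K →* Multiplicative (ZMod p), UO p {x | (x ∈ J ∨ x ∈ E) ∧ x ≠ v ∧ x ≠ w} χ →
      ∀ σ : GF K, IsFr v σ → χ σ = 1

/-- the linking pattern of rank one on a subset -/
def Rank (p : ℕ) (E : Set (HeightOneSpectrum (𝓞 K))) (J : Finset (HeightOneSpectrum (𝓞 K))) :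
    Prop :=
  ∃ L : Finset (HeightOneSpectrum (𝓞 K)), L ⊆ J ∧ L.Nonempty ∧ ∃ h : GF K,
    (∀ χ : GF K →* Multiplicative (ZMod p), UO p {x | (x ∈ J ∨ x ∈ E) ∧ x ∉ L} χ → χ h = 1) ∧
    ∀ v ∈ L, ∀ χ : GF K →* Multiplicative (ZMod p), UO p {x | (x ∈ J ∨ x ∈ E) ∧ x ≠ v} χ →
      χ h = 1 → ∀ σ : GF K, IsFr v σ → χ σ = 1

end

section
variable {p : ℕ} [hp : Fact p.Prime] {B : Type} [Ring B] [Algebra (ZMod p) B]
  {K : Type} [Field K] [NumberField K]

/-- values on inertia groups -/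
theorem val_W {X : GF K →* Multiplicative B} {E : Set (HeightOneSpectrum (𝓞 K))}
    {J : Finset (HeightOneSpectrum (𝓞 K))}
    (hin : ∀ Q : Ideal (OO K), Q.IsMaximal → (∀ v ∈ J, cm Q ≠ v.asIdeal) →
      (∀ v ∈ E, cm Q ≠ v.asIdeal) → ∀ τ : GF K, InInertia Q τ → X τ = 1)
    {P : HeightOneSpectrum (𝓞 K) → Ideal (OO K)} {τ : HeightOneSpectrum (𝓞 K) → GF K}
    (hP : ∀ v, (P v).IsMaximal ∧ cm (P v) = v.asIdeal)
    (hline : ∀ v : HeightOneSpectrum (𝓞 K), (p : 𝓞 K) ∉ v.asIdeal → ∀ t : GF K,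
      InInertia (P v) t → Multiplicative.toAdd (X t) ∈
        Submodule.span (ZMod p) {Multiplicative.toAdd (X (τ v))})
    (D : Set (HeightOneSpectrum (𝓞 K))) (W : Submodule (ZMod p) B)
    (hDW : ∀ x, (x ∈ J ∨ x ∈ E) → x ∉ D →
      (p : 𝓞 K) ∉ x.asIdeal ∧ Multiplicative.toAdd (X (τ x)) ∈ W)
    (Q : Ideal (OO K)) (hQ : Q.IsMaximal) (hQD : ∀ v ∈ D, cm Q ≠ v.asIdeal) (t : GF K)
    (ht : InInertia Q t) : Multiplicative.toAdd (X t) ∈ W := by
  set x := place hQ with hx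
  have hxQ : cm Q = x.asIdeal := rfl
  by_cases hQJ : x ∈ J ∨ x ∈ E
  · have hxD : x ∉ D := fun h => hQD x h hxQ
    obtain ⟨hpx, hxW⟩ := hDW x hQJ hxD
    have h1 : ∀ s : GF K, InInertia (P x) s → Multiplicative.toAdd (X s) ∈ W := by
      intro s hs
      refine (Submodule.span_le.2 ?_) (hline x hpx s hs)
      rintro _ rfl
      exact hxW
    exact inertia_transport X (fun e => Multiplicative.toAdd e ∈ W) (hP x).1 hQ
      ((hP x).2.trans hxQ.symm) h1 t ht
  · push Not at hQJ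
    have hne : ∀ v : HeightOneSpectrum (𝓞 K), cm Q = v.asIdeal → x = v := fun v h =>
      HeightOneSpectrum.ext (hxQ.symm.trans h)
    rw [hin Q hQ (fun v hv h => hQJ.1 (by rw [hne v h]; exact hv))
      (fun v hv h => hQJ.2 (by rw [hne v h]; exact hv)) t ht, toAdd_one]
    exact W.zero_mem

/-- the Frobenius element at the place of a row acts through nilpotent elements -/
theorem row_mem {X : GF K →* Multiplicative B} {F : ℕ → Submodule (ZMod p) B} (hF : Fil F)
    (hX : ∀ N, ∀ᶠ g in nhds (1 : GF K), Multiplicative.toAdd (X g) ∈ F N)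
    (hreal : ∀ c : GF K, c * c = 1 → X c = 1) {E : Set (HeightOneSpectrum (𝓞 K))}
    {J : Finset (HeightOneSpectrum (𝓞 K))} (hJp : ∀ v ∈ J, (p : 𝓞 K) ∉ v.asIdeal)
    (hin : ∀ Q : Ideal (OO K), Q.IsMaximal → (∀ v ∈ J, cm Q ≠ v.asIdeal) →
      (∀ v ∈ E, cm Q ≠ v.asIdeal) → ∀ τ : GF K, InInertia Q τ → X τ = 1)
    {P : HeightOneSpectrum (𝓞 K) → Ideal (OO K)} {τ : HeightOneSpectrum (𝓞 K) → GF K}
    (hP : ∀ v, (P v).IsMaximal ∧ cm (P v) = v.asIdeal)
    (hline : ∀ v : HeightOneSpectrum (𝓞 K), (p : 𝓞 K) ∉ v.asIdeal → ∀ t : GF K,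
      InInertia (P v) t → Multiplicative.toAdd (X t) ∈
        Submodule.span (ZMod p) {Multiplicative.toAdd (X (τ v))})
    {v w : HeightOneSpectrum (𝓞 K)} (hv : v ∈ J)
    (hw : w ∈ J ∨ w ∈ E ∧ (p : 𝓞 K) ∉ w.asIdeal) (σ : GF K) (hσ : IsFr v σ)
    (h : ∀ χ : GF K →* Multiplicative (ZMod p), UO p {x | (x ∈ J ∨ x ∈ E) ∧ x ≠ v ∧ x ≠ w} χ →
      ∀ σ : GF K, IsFr v σ → χ σ = 1) :
    ∃ a b : ZMod p, Multiplicative.toAdd (X σ) =
      a • Multiplicative.toAdd (X (τ v)) + b • Multiplicative.toAdd (X (τ w)) := by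
  set W := Submodule.span (ZMod p)
    ({Multiplicative.toAdd (X (τ v)), Multiplicative.toAdd (X (τ w))} : Set B) with hW
  have h1 : Multiplicative.toAdd (X σ) ∈ W := by
    refine mem_W hF hX hreal W (finite_span _ (Set.toFinite _))
      {x | (x ∈ J ∨ x ∈ E) ∧ x ≠ v ∧ x ≠ w}
      (val_W hin hP hline _ W fun x hx hxD => ?_) ∅
      (fun _ hh => absurd hh (Set.notMem_empty _)) σ fun χ hχ _ => h χ hχ σ hσ
    have hx' : x = v ∨ x = w := by
      by_contra hcon
      push Not at hcon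
      exact hxD ⟨hx, hcon.1, hcon.2⟩
    rcases hx' with rfl | rfl
    · exact ⟨hJp x hv, Submodule.subset_span (Set.mem_insert _ _)⟩
    · refine ⟨?_, Submodule.subset_span (Set.mem_insert_of_mem _ (Set.mem_singleton _))⟩
      rcases hw with hw | hw
      · exact hJp x hw
      · exact hw.2
  obtain ⟨a, b, hab⟩ := Submodule.mem_span_pair.1 h1
  exact ⟨a, b, hab.symm⟩

/-- the distinguished element and the Frobenius elements of a pattern of rank one -/
theorem rank_mem {X : GF K →* Multiplicative B} {F : ℕ → Submodule (ZMod p) B} (hF : Fil F)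
    (hX : ∀ N, ∀ᶠ g in nhds (1 : GF K), Multiplicative.toAdd (X g) ∈ F N)
    (hreal : ∀ c : GF K, c * c = 1 → X c = 1) {E : Set (HeightOneSpectrum (𝓞 K))}
    {J : Finset (HeightOneSpectrum (𝓞 K))} (hJp : ∀ v ∈ J, (p : 𝓞 K) ∉ v.asIdeal)
    (hin : ∀ Q : Ideal (OO K), Q.IsMaximal → (∀ v ∈ J, cm Q ≠ v.asIdeal) →
      (∀ v ∈ E, cm Q ≠ v.asIdeal) → ∀ τ : GF K, InInertia Q τ → X τ = 1)
    {P : HeightOneSpectrum (𝓞 K) → Ideal (OO K)} {τ : HeightOneSpectrum (𝓞 K) → GF K}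
    (hP : ∀ v, (P v).IsMaximal ∧ cm (P v) = v.asIdeal)
    (hline : ∀ v : HeightOneSpectrum (𝓞 K), (p : 𝓞 K) ∉ v.asIdeal → ∀ t : GF K,
      InInertia (P v) t → Multiplicative.toAdd (X t) ∈
        Submodule.span (ZMod p) {Multiplicative.toAdd (X (τ v))})
    {L : Finset (HeightOneSpectrum (𝓞 K))} (hLJ : L ⊆ J) {h : GF K}
    (hh1 : ∀ χ : GF K →* Multiplicative (ZMod p), UO p {x | (x ∈ J ∨ x ∈ E) ∧ x ∉ L} χ →
      χ h = 1)
    (hh2 : ∀ v ∈ L, ∀ χ : GF K →* Multiplicative (ZMod p),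
      UO p {x | (x ∈ J ∨ x ∈ E) ∧ x ≠ v} χ → χ h = 1 → ∀ σ : GF K, IsFr v σ → χ σ = 1) :
    Multiplicative.toAdd (X h) ∈ Submodule.span (ZMod p)
      ((fun v => Multiplicative.toAdd (X (τ v))) '' (L : Set (HeightOneSpectrum (𝓞 K)))) ∧
    ∀ v ∈ L, ∀ σ : GF K, IsFr v σ → ∃ a b : ZMod p, Multiplicative.toAdd (X σ) =
      a • Multiplicative.toAdd (X (τ v)) + b • Multiplicative.toAdd (X h) := by
  constructor
  · refine mem_W hF hX hreal _ (finite_span _ ((Finset.finite_toSet L).image _))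
      {x | (x ∈ J ∨ x ∈ E) ∧ x ∉ L} (val_W hin hP hline _ _ fun x hx hxD => ?_) ∅
      (fun _ hh => absurd hh (Set.notMem_empty _)) h fun χ hχ _ => hh1 χ hχ
    have hx' : x ∈ L := by
      by_contra hcon
      exact hxD ⟨hx, hcon⟩
    exact ⟨hJp x (hLJ hx'), Submodule.subset_span ⟨x, hx', rfl⟩⟩
  · intro v hvL σ hσ
    have h3 : Multiplicative.toAdd (X σ) ∈ Submodule.span (ZMod p)
        ({Multiplicative.toAdd (X (τ v)), Multiplicative.toAdd (X h)} : Set B) := by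
      refine mem_W hF hX hreal _ (finite_span _ (Set.toFinite _))
        {x | (x ∈ J ∨ x ∈ E) ∧ x ≠ v} (val_W hin hP hline _ _ fun x hx hxD => ?_) {h}
        (fun h' hh' => ?_) σ
        fun χ hχ hχh => hh2 v hvL χ hχ (hχh h (Set.mem_singleton _)) σ hσ
      · have hx' : x = v := by
          by_contra hcon
          exact hxD ⟨hx, hcon⟩
        rw [hx']
        exact ⟨hJp v (hLJ hvL), Submodule.subset_span (Set.mem_insert _ _)⟩
      · rw [Set.mem_singleton_iff.1 hh']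
        exact Submodule.subset_span (Set.mem_insert_of_mem _ (Set.mem_singleton _))
    obtain ⟨a, b, hab⟩ := Submodule.mem_span_pair.1 h3
    exact ⟨a, b, hab.symm⟩

/-- there are no homomorphisms to `B` satisfying the relations if the places are sparsely
linked -/
theorem adm_false {X : GF K →* Multiplicative B} {F : ℕ → Submodule (ZMod p) B} (hF : Fil F)
    (hX : ∀ N, ∀ᶠ g in nhds (1 : GF K), Multiplicative.toAdd (X g) ∈ F N)
    (hreal : ∀ c : GF K, c * c = 1 → X c = 1) {E : Set (HeightOneSpectrum (𝓞 K))}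
    (J : Finset (HeightOneSpectrum (𝓞 K))) (hJp : ∀ v ∈ J, (p : 𝓞 K) ∉ v.asIdeal)
    (hin : ∀ Q : Ideal (OO K), Q.IsMaximal → (∀ v ∈ J, cm Q ≠ v.asIdeal) →
      (∀ v ∈ E, cm Q ≠ v.asIdeal) → ∀ τ : GF K, InInertia Q τ → X τ = 1)
    (P : HeightOneSpectrum (𝓞 K) → Ideal (OO K)) (σ τ : HeightOneSpectrum (𝓞 K) → GF K)
    (hP : ∀ v, (P v).IsMaximal ∧ cm (P v) = v.asIdeal)
    (hσ : ∀ v, FrobAt (nm v) (P v) (σ v))
    (hline : ∀ v : HeightOneSpectrum (𝓞 K), (p : 𝓞 K) ∉ v.asIdeal → ∀ t : GF K,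
      InInertia (P v) t → Multiplicative.toAdd (X t) ∈
        Submodule.span (ZMod p) {Multiplicative.toAdd (X (τ v))})
    (hne : ∀ v ∈ J, Multiplicative.toAdd (X (τ v)) ≠ 0)
    (hnil : ∀ v : HeightOneSpectrum (𝓞 K), (p : 𝓞 K) ∉ v.asIdeal →
      IsNilpotent (Multiplicative.toAdd (X (τ v))))
    (u : HeightOneSpectrum (𝓞 K) → ZMod p) (hu : ∀ v ∈ J, u v ≠ 0)
    (hrel : ∀ v ∈ J, Multiplicative.toAdd (X (σ v)) * Multiplicative.toAdd (X (τ v)) -
      Multiplicative.toAdd (X (τ v)) * Multiplicative.toAdd (X (σ v)) =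
        u v • Multiplicative.toAdd (X (τ v)))
    (hadm : Row p E J ∨ Rank p E J) : False := by
  classical
  have hfr : ∀ v, IsFr v (σ v) := fun v => ⟨P v, (hP v).1, (hP v).2, hσ v⟩
  rcases hadm with ⟨v, hv, w, hw, hvw⟩ | ⟨L, hLJ, hLne, h, hh1, hh2⟩
  · -- a row with at most one entry
    obtain ⟨a, b, hab⟩ := row_mem hF hX hreal hJp hin hP hline hv hw (σ v) (hfr v) hvw
    have hwp : (p : 𝓞 K) ∉ w.asIdeal := by
      rcases hw with hw | hw
      · exact hJp w hw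
      · exact hw.2
    have h2 := hrel v hv
    rw [hab] at h2
    set T := Multiplicative.toAdd (X (τ v)) with hT
    set T' := Multiplicative.toAdd (X (τ w)) with hT'
    have h3 : b • (T' * T - T * T') = u v • T := by
      rw [← h2, add_mul, mul_add, smul_mul_assoc, smul_mul_assoc, mul_smul_comm, mul_smul_comm,
        smul_sub]
      abel
    by_cases hb : b = 0
    · rw [hb, zero_smul] at h3
      exact hne v hv ((smul_eq_zero.1 h3.symm).resolve_left (hu v hv))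
    · have h4 : T' * T - T * T' = (u v / b) • T := by
        rw [div_eq_inv_mul, mul_smul, ← h3, smul_smul, inv_mul_cancel₀ hb, one_smul]
      exact hne v hv (ad_eigenB (hnil w hwp) (div_ne_zero (hu v hv) hb) h4)
  · -- rank one
    obtain ⟨h1, h1'⟩ := rank_mem hF hX hreal hJp hin hP hline hLJ hh1 hh2
    set H := Multiplicative.toAdd (X h) with hH
    set W := Submodule.span (ZMod p)
      ((fun v => Multiplicative.toAdd (X (τ v))) '' (L : Set (HeightOneSpectrum (𝓞 K)))) with hW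
    have h2 : ∀ v ∈ L, ∃ b : ZMod p, b ≠ 0 ∧
        b • (H * Multiplicative.toAdd (X (τ v)) - Multiplicative.toAdd (X (τ v)) * H) =
          u v • Multiplicative.toAdd (X (τ v)) := by
      intro v hvL
      have hv := hLJ hvL
      obtain ⟨a, b, hab⟩ := h1' v hvL (σ v) (hfr v)
      have h4 := hrel v hv
      rw [hab] at h4
      set T := Multiplicative.toAdd (X (τ v)) with hT
      have h5 : b • (H * T - T * H) = u v • T := by
        rw [← h4, add_mul, mul_add, smul_mul_assoc, smul_mul_assoc, mul_smul_comm, mul_smul_comm,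
          smul_sub]
        abel
      refine ⟨b, ?_, h5⟩
      rintro rfl
      rw [zero_smul] at h5
      exact hne v hv ((smul_eq_zero.1 h5.symm).resolve_left (hu v hv))
    let D : B →ₗ[ZMod p] B := LinearMap.mulLeft (ZMod p) H - LinearMap.mulRight (ZMod p) H
    have hD : ∀ y, D y = H * y - y * H := fun y => rfl
    have h3 : ∀ v ∈ L, (D ^ (p - 1)) (Multiplicative.toAdd (X (τ v))) =
        Multiplicative.toAdd (X (τ v)) := by
      intro v hv
      obtain ⟨b, hb, hbT⟩ := h2 v hv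
      set T := Multiplicative.toAdd (X (τ v)) with hT
      have h4 : D T = (u v / b) • T := by
        rw [hD, div_eq_inv_mul, mul_smul, ← hbT, smul_smul, inv_mul_cancel₀ hb, one_smul]
      have h5 : ∀ k : ℕ, (D ^ k) T = (u v / b) ^ k • T := by
        intro k
        induction k with
        | zero => rw [pow_zero, pow_zero, one_smul, Module.End.one_apply]
        | succ k ih =>
          rw [pow_succ', Module.End.mul_apply, ih, map_smul, h4, smul_smul, pow_succ]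
      rw [h5, ZMod.pow_card_sub_one_eq_one (div_ne_zero (hu v (hLJ hv)) hb), one_smul]
    have h4 : W ≤ LinearMap.eqLocus (D ^ (p - 1)) LinearMap.id := by
      rw [hW, Submodule.span_le]
      rintro _ ⟨v, hv, rfl⟩
      exact h3 v hv
    have h5 : (D ^ (p - 1)) H = H := h4 h1
    have h6 : (D ^ (p - 1)) H = 0 := by
      obtain ⟨k, hk⟩ : ∃ k, p - 1 = k + 1 := ⟨p - 2, by have := hp.out.two_le; omega⟩
      rw [hk, pow_succ, Module.End.mul_apply, hD, sub_self, map_zero]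
    have h7 : H = 0 := by rw [← h5, h6]
    obtain ⟨v, hv⟩ := hLne
    obtain ⟨b, -, hbT⟩ := h2 v hv
    rw [h7, zero_mul, mul_zero, sub_self, smul_zero] at hbT
    exact hne v (hLJ hv) ((smul_eq_zero.1 hbT.symm).resolve_left (hu v (hLJ hv)))

/-- if the place `v` is linked to at most one place then its Frobenius elements act through
nilpotent elements, as soon as its inertia groups act trivially -/
theorem frob_nil {X : GF K →* Multiplicative B} {F : ℕ → Submodule (ZMod p) B} (hF : Fil F)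
    (hX : ∀ N, ∀ᶠ g in nhds (1 : GF K), Multiplicative.toAdd (X g) ∈ F N)
    (hreal : ∀ c : GF K, c * c = 1 → X c = 1) {E : Set (HeightOneSpectrum (𝓞 K))}
    {v : HeightOneSpectrum (𝓞 K)} (hvp : (p : 𝓞 K) ∉ v.asIdeal)
    (hin : ∀ Q : Ideal (OO K), Q.IsMaximal → (∀ v ∈ E, cm Q ≠ v.asIdeal) → ∀ τ : GF K,
      InInertia Q τ → X τ = 1)
    (P : HeightOneSpectrum (𝓞 K) → Ideal (OO K)) (σ τ : HeightOneSpectrum (𝓞 K) → GF K)
    (hP : ∀ v, (P v).IsMaximal ∧ cm (P v) = v.asIdeal)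
    (hσ : ∀ v, FrobAt (nm v) (P v) (σ v))
    (hline : ∀ v : HeightOneSpectrum (𝓞 K), (p : 𝓞 K) ∉ v.asIdeal → ∀ t : GF K,
      InInertia (P v) t → Multiplicative.toAdd (X t) ∈
        Submodule.span (ZMod p) {Multiplicative.toAdd (X (τ v))})
    (h0 : Multiplicative.toAdd (X (τ v)) = 0)
    (hnil : ∀ v : HeightOneSpectrum (𝓞 K), (p : 𝓞 K) ∉ v.asIdeal →
      IsNilpotent (Multiplicative.toAdd (X (τ v))))
    (hadm : Row p E {v} ∨ Rank p E {v}) : IsNilpotent (Multiplicative.toAdd (X (σ v))) := by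
  classical
  have hfr : ∀ v, IsFr v (σ v) := fun v => ⟨P v, (hP v).1, (hP v).2, hσ v⟩
  have hJp : ∀ x ∈ ({v} : Finset (HeightOneSpectrum (𝓞 K))), (p : 𝓞 K) ∉ x.asIdeal := by
    intro x hx
    rw [Finset.mem_singleton.1 hx]
    exact hvp
  have hin' : ∀ Q : Ideal (OO K), Q.IsMaximal →
      (∀ x ∈ ({v} : Finset (HeightOneSpectrum (𝓞 K))), cm Q ≠ x.asIdeal) →
      (∀ v ∈ E, cm Q ≠ v.asIdeal) → ∀ τ : GF K, InInertia Q τ → X τ = 1 :=
    fun Q hQ _ hQE t ht => hin Q hQ hQE t ht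
  rcases hadm with ⟨v', hv, w, hw, hvw⟩ | ⟨L, hLJ, hLne, h, hh1, hh2⟩
  · obtain rfl := Finset.mem_singleton.1 hv
    obtain ⟨a, b, hab⟩ := row_mem hF hX hreal hJp hin' hP hline hv hw (σ v') (hfr v') hvw
    have hwp : (p : 𝓞 K) ∉ w.asIdeal := by
      rcases hw with hw | hw
      · exact hJp w hw
      · exact hw.2
    rw [hab, h0, smul_zero, zero_add]
    exact (hnil w hwp).smul b
  · obtain ⟨h1, h1'⟩ := rank_mem hF hX hreal hJp hin' hP hline hLJ hh1 hh2
    have hL : ∀ x ∈ L, x = v := fun x hx => Finset.mem_singleton.1 (hLJ hx)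
    have h2 : Multiplicative.toAdd (X h) = 0 := by
      have h3 : (fun v => Multiplicative.toAdd (X (τ v))) ''
          (L : Set (HeightOneSpectrum (𝓞 K))) ⊆ {0} := by
        rintro _ ⟨x, hx, rfl⟩
        show Multiplicative.toAdd (X (τ x)) = 0
        rw [hL x hx]
        exact h0
      have h4 := Submodule.span_mono (R := ZMod p) h3 h1
      rw [Submodule.span_zero_singleton, Submodule.mem_bot] at h4
      exact h4
    obtain ⟨x, hx⟩ := hLne
    have hvL : v ∈ L := by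
      rw [← hL x hx]
      exact hx
    obtain ⟨a, b, hab⟩ := h1' v hvL (σ v) (hfr v)
    rw [hab, h0, h2, smul_zero, smul_zero, add_zero]
    exact IsNilpotent.zero

end

end Pool.Agent.V11248.FM
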