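import Pool.Agent.W655.FM.Unip
import Pool.Agent.W655.FM.Depth

/-!
# Matrices congruent to the identity over Noetherian local rings

The lemmas in this file are those of `Pool.Agent.TH831.NA` (files NA1 to NA4), restated for arbitrary
topological groups.
-/

set_option autoImplicit false

namespace Pool.Agent.V11248.FM

open Matrix IsLocalRing

/-- all entries lie in `I` -/
def MJ {A : Type} [CommRing A] {n : ℕ} (I : Ideal A) (X : Matrix (Fin n) (Fin n) A) : Prop :=
  ∀ i j, X i j ∈ I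

section
variable {A : Type} [CommRing A] {n : ℕ}

theorem MJ.add {I : Ideal A} {X Y : Matrix (Fin n) (Fin n) A} (hX : MJ I X) (hY : MJ I Y) :
    MJ I (X + Y) := fun i j => I.add_mem (hX i j) (hY i j)

theorem MJ.mono {I J : Ideal A} (h : I ≤ J) {X : Matrix (Fin n) (Fin n) A} (hX : MJ I X) :
    MJ J X := fun i j => h (hX i j)

theorem MJ.mul {I J : Ideal A} {X Y : Matrix (Fin n) (Fin n) A} (hX : MJ I X) (hY : MJ J Y) :
    MJ (I * J) (X * Y) := fun i j => by
  rw [Matrix.mul_apply]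
  exact Ideal.sum_mem _ fun k _ => Ideal.mul_mem_mul (hX i k) (hY k j)

theorem MJ.mul_right {I : Ideal A} {X : Matrix (Fin n) (Fin n) A} (hX : MJ I X)
    (Y : Matrix (Fin n) (Fin n) A) : MJ I (X * Y) := fun i j => by
  rw [Matrix.mul_apply]
  exact Ideal.sum_mem _ fun k _ => I.mul_mem_right _ (hX i k)

theorem MJ.pow {I : Ideal A} {X : Matrix (Fin n) (Fin n) A} (hX : MJ I X) (e : ℕ) :
    MJ (I ^ e) (X ^ e) := by
  induction e with
  | zero =>
    intro i j
    rw [pow_zero, Ideal.one_eq_top]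
    exact Submodule.mem_top
  | succ e ih =>
    rw [pow_succ, pow_succ]
    exact ih.mul hX

theorem MJ.natmul {I : Ideal A} {p : ℕ} (hp : (p : A) ∈ I) {J : Ideal A}
    {X : Matrix (Fin n) (Fin n) A} (hX : MJ J X) : MJ (I * J) ((p : Matrix (Fin n) (Fin n) A) * X) := by
  intro i j
  have h1 : (p : Matrix (Fin n) (Fin n) A) * X = (p : A) • X := by
    rw [Nat.cast_smul_eq_nsmul A, nsmul_eq_mul]
  rw [h1, Matrix.smul_apply, smul_eq_mul]
  exact Ideal.mul_mem_mul hp (hX i j)

/-- raising to the `p`-th power -/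
theorem MJ.step {I : Ideal A} {p : ℕ} (hpp : p.Prime) (hp : (p : A) ∈ I)
    {X : Matrix (Fin n) (Fin n) A} {k : ℕ} (hX : MJ (I ^ (k + 1)) (X - 1)) :
    MJ (I ^ (k + 2)) (X ^ p - 1) := by
  have hc : Commute (X - 1) (1 : Matrix (Fin n) (Fin n) A) := Commute.one_right _
  obtain ⟨r, hr⟩ := hc.exists_add_pow_prime_pow_eq hpp 1
  rw [sub_add_cancel, one_pow, pow_one] at hr
  have h1 : X ^ p - 1 = (X - 1) ^ p + (p : Matrix (Fin n) (Fin n) A) * ((X - 1) * r) := by
    rw [hr, mul_one, mul_assoc]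
    abel
  rw [h1]
  refine MJ.add ?_ ?_
  · have h2 := hX.pow p
    rw [← pow_mul] at h2
    refine h2.mono (Ideal.pow_le_pow_right ?_)
    have := hpp.two_le
    nlinarith
  · have h2 := MJ.natmul hp (hX.mul_right r)
    rw [← pow_succ'] at h2
    exact h2

theorem MJ.iter {I : Ideal A} {p : ℕ} (hpp : p.Prime) (hp : (p : A) ∈ I)
    {X : Matrix (Fin n) (Fin n) A} (hX : MJ I (X - 1)) (t : ℕ) :
    MJ (I ^ (t + 1)) (X ^ (p ^ t) - 1) := by
  induction t with
  | zero => simpa using hX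
  | succ t ih =>
    have := MJ.step hpp hp ih
    rwa [← pow_mul, ← pow_succ] at this

theorem MJ.start {I : Ideal A} {p : ℕ} (hpp : p.Prime) (hp : (p : A) ∈ I)
    {X : Matrix (Fin n) (Fin n) A} {N : ℕ} (h : MJ I ((X - 1) ^ N)) : MJ I (X ^ (p ^ N) - 1) := by
  have hc : Commute (X - 1) (1 : Matrix (Fin n) (Fin n) A) := Commute.one_right _
  obtain ⟨r, hr⟩ := hc.exists_add_pow_prime_pow_eq hpp N
  rw [sub_add_cancel, one_pow] at hr
  have hle : N ≤ p ^ N := (Nat.lt_pow_self hpp.one_lt).le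
  have h1 : X ^ (p ^ N) - 1 = (X - 1) ^ N * (X - 1) ^ (p ^ N - N) +
      (p : Matrix (Fin n) (Fin n) A) * ((X - 1) * r) := by
    rw [hr, mul_one, mul_assoc, ← pow_add, Nat.add_sub_cancel' hle]
    abel
  rw [h1]
  refine MJ.add (h.mul_right _) ?_
  have h2 := MJ.natmul hp (J := ⊤) (X := (X - 1) * r) fun i j => Submodule.mem_top
  rwa [Ideal.mul_top] at h2

end

section
variable {G : Type} [Group G] [TopologicalSpace G] [IsTopologicalGroup G] [CompactSpace G]
variable {p : ℕ} [hp : Fact p.Prime] {A : Type} [CommRing A] [IsLocalRing A] {n : ℕ}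

omit [IsLocalRing A] in
theorem map_mk_eq_one {I : Ideal A} {M : GL (Fin n) A}
    (hM : MJ I ((M : Matrix (Fin n) (Fin n) A) - 1)) :
    GeneralLinearGroup.map (Ideal.Quotient.mk I) M = 1 := by
  apply Units.ext
  ext i j
  have h1 := Ideal.Quotient.eq_zero_iff_mem.2 (hM i j)
  rw [Matrix.sub_apply, map_sub, sub_eq_zero] at h1
  show Ideal.Quotient.mk I ((M : Matrix (Fin n) (Fin n) A) i j) = _
  rw [h1, Units.val_one]
  by_cases hij : i = j
  · subst hij
    rw [Matrix.one_apply_eq, Matrix.one_apply_eq, map_one]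
  · rw [Matrix.one_apply_ne hij, Matrix.one_apply_ne hij, map_zero]

omit [IsLocalRing A] in
theorem of_map_mk_eq_one {I : Ideal A} {M : GL (Fin n) A}
    (hM : GeneralLinearGroup.map (Ideal.Quotient.mk I) M = 1) :
    MJ I ((M : Matrix (Fin n) (Fin n) A) - 1) := by
  intro i j
  have h1 := congrFun (congrFun (congrArg (fun M : GL (Fin n) (A ⧸ I) =>
      (M : Matrix (Fin n) (Fin n) (A ⧸ I))) hM) i) j
  have h2 : Ideal.Quotient.mk I ((M : Matrix (Fin n) (Fin n) A) i j) =
      Ideal.Quotient.mk I ((1 : Matrix (Fin n) (Fin n) A) i j) := by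
    refine Eq.trans h1 ?_
    rw [Units.val_one]
    by_cases hij : i = j
    · subst hij
      rw [Matrix.one_apply_eq, Matrix.one_apply_eq, map_one]
    · rw [Matrix.one_apply_ne hij, Matrix.one_apply_ne hij, map_zero]
  rw [Matrix.sub_apply, ← Ideal.Quotient.eq]
  exact h2

/-- the reduction modulo an ideal containing a power of the maximal ideal -/
theorem red_group {ρ : G →* GL (Fin n) A} (hpA : (p : A) ∈ maximalIdeal A)
    (hcts : ∀ N : ℕ, ∀ᶠ g in nhds (1 : G), MJ (maximalIdeal A ^ N)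
      ((ρ g : Matrix (Fin n) (Fin n) A) - 1))
    (hres : ∀ g, ∃ M : ℕ, MJ (maximalIdeal A) (((ρ g : Matrix (Fin n) (Fin n) A) - 1) ^ M))
    (I : Ideal A) (N : ℕ) (hI : maximalIdeal A ^ N ≤ I) :
    IsOpen ((((GeneralLinearGroup.map (Ideal.Quotient.mk I)).comp
      ρ).rangeRestrict.ker : Subgroup G) : Set G) ∧
      IsPGroup p ((GeneralLinearGroup.map (Ideal.Quotient.mk I)).comp
        ρ).range ∧ Finite ((GeneralLinearGroup.map (Ideal.Quotient.mk I)).comp
        ρ).range := by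
  set φ : GL (Fin n) A →* GL (Fin n) (A ⧸ I) := GeneralLinearGroup.map (Ideal.Quotient.mk I)
    with hφ
  have hone : ∀ M : GL (Fin n) A, MJ I ((M : Matrix (Fin n) (Fin n) A) - 1) → φ M = 1 :=
    fun M hM => map_mk_eq_one hM
  have hfo : IsOpen ((φ.comp ρ).rangeRestrict.ker : Set G) := by
    apply Subgroup.isOpen_of_mem_nhds _ (g := (1 : G))
    filter_upwards [hcts N] with g hg
    show (φ.comp ρ).rangeRestrict g = 1
    apply Subtype.ext
    exact hone _ (hg.mono hI)
  refine ⟨hfo, ?_, ?_⟩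
  · rintro ⟨_, g, rfl⟩
    obtain ⟨N0, hβ⟩ := hres g
    refine ⟨N0 + N, ?_⟩
    apply Subtype.ext
    show (φ.comp ρ) g ^ (p ^ (N0 + N)) = 1
    rw [← map_pow]
    show φ (ρ (g ^ p ^ (N0 + N))) = 1
    apply hone
    rw [map_pow, Units.val_pow_eq_pow_val, pow_add, pow_mul]
    exact (MJ.iter hp.out hpA (MJ.start hp.out hpA hβ) N).mono
      ((Ideal.pow_le_pow_right (Nat.le_succ N)).trans hI)
  · have h1 : Finite (G ⧸ (φ.comp ρ).rangeRestrict.ker) :=
      Subgroup.quotient_finite_of_isOpen _ hfo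
    exact Finite.of_equiv _
      (QuotientGroup.quotientKerEquivOfSurjective _ (φ.comp ρ).rangeRestrict_surjective).toEquiv

/-- elements congruent modulo all powers of the maximal ideal -/
theorem eq_of_red [IsNoetherianRing A] {M M' : GL (Fin n) A}
    (h : ∀ N, GeneralLinearGroup.map (Ideal.Quotient.mk (maximalIdeal A ^ N)) M =
      GeneralLinearGroup.map (Ideal.Quotient.mk (maximalIdeal A ^ N)) M') : M = M' := by
  apply Units.ext
  ext i j
  rw [← sub_eq_zero]
  have h1 : (M : Matrix (Fin n) (Fin n) A) i j - (M' : Matrix (Fin n) (Fin n) A) i j ∈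
      ⨅ N : ℕ, maximalIdeal A ^ N := by
    rw [Ideal.mem_iInf]
    intro N
    rw [← Ideal.Quotient.eq]
    exact congrFun (congrFun (congrArg (fun M : GL (Fin n) (A ⧸ maximalIdeal A ^ N) =>
      (M : Matrix (Fin n) (Fin n) (A ⧸ maximalIdeal A ^ N))) (h N)) i) j
  rw [Ideal.iInf_pow_eq_bot_of_isLocalRing _ (maximalIdeal.isMaximal A).ne_top] at h1
  exact h1

omit [IsTopologicalGroup G] [CompactSpace G] in
theorem cts_memN [TopologicalSpace A]
    (hA : IsAdic (maximalIdeal A)) {ρ : G →* GL (Fin n) A} (hρ : Continuous ρ) (N : ℕ) :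
    ∀ᶠ g in nhds (1 : G), MJ (maximalIdeal A ^ N) ((ρ g : Matrix (Fin n) (Fin n) A) - 1) := by
  have h1 : ∀ i j : Fin n, ∀ᶠ g in nhds (1 : G),
      ((ρ g : Matrix (Fin n) (Fin n) A) - 1) i j ∈ maximalIdeal A ^ N := by
    intro i j
    have hv : Continuous fun g => (ρ g : Matrix (Fin n) (Fin n) A) :=
      Units.continuous_val.comp hρ
    have hc : Continuous fun g => (ρ g : Matrix (Fin n) (Fin n) A) i j := hv.matrix_elem i j
    have h2 := hc.continuousAt (x := (1 : G))
    rw [ContinuousAt, map_one, Units.val_one] at h2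
    have h3 := h2.eventually ((hA.hasBasis_nhds ((1 : Matrix (Fin n) (Fin n) A) i j)).mem_of_mem
      (i := N) trivial)
    filter_upwards [h3] with g hg
    obtain ⟨y, hy, hy'⟩ := hg
    rw [Matrix.sub_apply, ← hy']
    simpa using hy
  exact Filter.eventually_all.2 fun i => Filter.eventually_all.2 fun j => h1 i j

end

section
variable {F : Type} [Field F] {B : Type} [Ring B] [Algebra F B]

theorem ad_eigenB {T Y : B} (hT : IsNilpotent T) {u : F} (hu : u ≠ 0)
    (h : T * Y - Y * T = u • Y) : Y = 0 := by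
  have h1 : IsNilpotent (LinearMap.mulLeft F T - LinearMap.mulRight F T) := by
    refine Commute.isNilpotent_sub (LinearMap.commute_mulLeft_right T T) ?_ ?_
    · exact (LinearMap.isNilpotent_mulLeft_iff F T).2 hT
    · exact (LinearMap.isNilpotent_mulRight_iff F T).2 hT
  obtain ⟨N, hN⟩ := h1
  have h2 : ∀ i : ℕ, ((LinearMap.mulLeft F T - LinearMap.mulRight F T) ^ i) Y = u ^ i • Y := by
    intro i
    induction i with
    | zero => simp
    | succ i ih =>
      rw [pow_succ', Module.End.mul_apply, ih, map_smul, LinearMap.sub_apply,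
        LinearMap.mulLeft_apply, LinearMap.mulRight_apply, h, smul_smul, pow_succ]
  have h3 := h2 N
  rw [hN, LinearMap.zero_apply] at h3
  rcases smul_eq_zero.1 h3.symm with h4 | h4
  · exact absurd h4 (pow_ne_zero _ hu)
  · exact h4

end

section
variable {p : ℕ} [hp : Fact p.Prime] {A : Type} [CommRing A] {n : ℕ}

/-- powers of matrices congruent to the identity -/
theorem matN {k : ℕ} (hk : 1 ≤ k) (hpk : 2 < p ^ k) (α : Matrix (Fin n) (Fin n) A) (e u : ℕ) :
    ∃ γ : Matrix (Fin n) (Fin n) A, Commute α γ ∧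
      (1 + ((p : A) ^ k) • α) ^ (p ^ e * u) =
        1 + ((p : A) ^ (k + e)) • (α * ((u : Matrix (Fin n) (Fin n) A) + (p : A) • γ)) := by
  obtain ⟨γ, hγ⟩ := Pool.Agent.W655.FM.Depth.pow_eu hp.out hk hpk
    (Polynomial.X : Polynomial A) e u
  refine ⟨Polynomial.aeval α γ, ?_, ?_⟩
  · have := Polynomial.commute_X (R := A) γ
    have h2 := this.map (Polynomial.aeval α)
    rwa [Polynomial.aeval_X] at h2
  · have h := congrArg (Polynomial.aeval α) hγ
    simp only [map_pow, map_add, map_one, map_mul, map_natCast, Polynomial.aeval_X] at h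
    have e1 : ∀ j : ℕ, ((p : Matrix (Fin n) (Fin n) A)) ^ j =
        ((p : A) ^ j) • (1 : Matrix (Fin n) (Fin n) A) := by
      intro j
      rw [← Nat.cast_pow, ← Nat.cast_pow, ← nsmul_one, Nat.cast_smul_eq_nsmul]
    have e2 : (p : Matrix (Fin n) (Fin n) A) = (p : A) • 1 := by
      have := e1 1
      simpa using this
    rw [e1, e1, e2] at h
    simp only [smul_mul_assoc, one_mul] at h
    exact h

theorem exists_algClosed (D : Type) [CommRing D] [IsDomain D] :
    ∃ (K : Type) (_ : Field K) (_ : IsAlgClosed K) (f : D →+* K), Function.Injective f :=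
  ⟨AlgebraicClosure (FractionRing D), inferInstance, inferInstance,
    (algebraMap (FractionRing D) (AlgebraicClosure (FractionRing D))).comp
      (algebraMap D (FractionRing D)),
    (algebraMap (FractionRing D) (AlgebraicClosure (FractionRing D))).injective.comp
      (IsFractionRing.injective D (FractionRing D))⟩

theorem isUnit_of_res [IsLocalRing A] (M : Matrix (Fin n) (Fin n) A)
    (h : ((residue A).mapMatrix M).det ≠ 0) : IsUnit M := by
  rw [Matrix.isUnit_iff_isUnit_det]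
  by_contra hc
  apply h
  rw [← RingHom.map_det, residue_eq_zero_iff]
  exact hc

theorem map_smulM {R R' : Type} [CommRing R] [CommRing R'] (f : R →+* R') (c : R)
    (M : Matrix (Fin n) (Fin n) R) : f.mapMatrix (c • M) = f c • f.mapMatrix M := by
  ext i j
  simp [RingHom.mapMatrix_apply, Matrix.map_apply, Matrix.smul_apply]

theorem isUnit_nat [IsLocalRing A] (hpA : (p : A) ∈ maximalIdeal A) {u : ℕ} (hu : ¬ p ∣ u) :
    IsUnit (u : A) := by
  by_contra hmu
  have h11 : (u : A) ∈ maximalIdeal A := hmu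
  have hcop : IsCoprime (u : ℤ) (p : ℤ) := Nat.isCoprime_iff_coprime.2
    ((Nat.Prime.coprime_iff_not_dvd hp.out).2 hu).symm
  obtain ⟨a, b, hab⟩ := hcop
  have h12 : (1 : A) = (a : A) * (u : ℕ) + (b : A) * (p : ℕ) := by
    have := congrArg (fun z : ℤ => (z : A)) hab
    push_cast at this
    exact this.symm
  have h13 : (1 : A) ∈ maximalIdeal A := by
    rw [h12]
    exact Ideal.add_mem _ (Ideal.mul_mem_left _ _ h11) (Ideal.mul_mem_left _ _ hpA)
  exact (Ideal.ne_top_iff_one _).1 (maximalIdeal.isMaximal A).ne_top h13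

theorem isUnit_W [IsLocalRing A] (hpA : (p : A) ∈ maximalIdeal A) {u : ℕ} (hu : ¬ p ∣ u)
    (γ : Matrix (Fin n) (Fin n) A) :
    IsUnit ((u : Matrix (Fin n) (Fin n) A) + (p : A) • γ) := by
  apply isUnit_of_res
  have h0 : residue A (p : A) = 0 := by
    rw [residue_eq_zero_iff]
    exact hpA
  rw [map_add, map_smulM, h0, zero_smul, add_zero, map_natCast, ← nsmul_one,
    Matrix.det_smul_of_tower, Matrix.det_one, nsmul_one, Nat.cast_pow]
  apply pow_ne_zero
  rw [← map_natCast (residue A)]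
  exact ((isUnit_nat hpA hu).map (residue A)).ne_zero

omit hp in
theorem isUnit_M [IsLocalRing A] (hpA : (p : A) ∈ maximalIdeal A) {k : ℕ} (hk : 1 ≤ k)
    (α : Matrix (Fin n) (Fin n) A) : IsUnit (1 + ((p : A) ^ k) • α) := by
  apply isUnit_of_res
  have h0 : residue A ((p : A) ^ k) = 0 := by
    rw [residue_eq_zero_iff]
    exact Ideal.pow_mem_of_mem _ hpA k hk
  rw [map_add, map_smulM, h0, zero_smul, add_zero, map_one, Matrix.det_one]
  exact one_ne_zero

theorem nilK [IsLocalRing A] (hpA : (p : A) ∈ maximalIdeal A) {K : Type} [Field K]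
    [IsAlgClosed K] (f : A →+* K) (hpK : f (p : A) ≠ 0) {k : ℕ} (hk : 1 ≤ k) (hpk : 2 < p ^ k)
    {l : ℕ} (hl : 2 ≤ l) (α B C : Matrix (Fin n) (Fin n) A) (hBC : B * C = 1) (hCB : C * B = 1)
    (h : B * (1 + ((p : A) ^ k) • α) = (1 + ((p : A) ^ k) • α) ^ l * B) :
    ∃ r : ℕ, f.mapMatrix (α ^ r) = 0 := by
  set M := 1 + ((p : A) ^ k) • α with hM
  have hMu : IsUnit M := isUnit_M hpA hk α
  have hdet : (f.mapMatrix M).det ≠ 0 := by
    rw [← RingHom.map_det]
    exact (((Matrix.isUnit_iff_isUnit_det _).1 hMu).map f).ne_zero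
  obtain ⟨N, hN1, hN⟩ := Pool.Agent.W655.FM.Unip.exists_N (f.mapMatrix M) (f.mapMatrix B)
    (f.mapMatrix C) (by rw [← map_mul, hBC, map_one]) (by rw [← map_mul, hCB, map_one]) l hl
    (by rw [← map_mul, h, map_mul, map_pow]) hdet
  obtain ⟨e, u, hu, rfl⟩ := Nat.exists_eq_pow_mul_and_not_dvd (n := N) (by omega) p hp.out.ne_one
  obtain ⟨γ, hcomm, hγ⟩ := matN hk hpk α e u
  rw [← hM] at hγ
  set W := (u : Matrix (Fin n) (Fin n) A) + (p : A) • γ with hW
  have hWu : IsUnit W := isUnit_W hpA hu γ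
  have hcW : Commute α W := by
    rw [hW]
    exact (Nat.commute_cast α u).add_right (hcomm.smul_right _)
  obtain ⟨r, hr⟩ := hN
  refine ⟨r, ?_⟩
  have h1 : (f.mapMatrix M) ^ (p ^ e * u) - 1 =
      f.mapMatrix (((p : A) ^ (k + e)) • (α * W)) := by
    rw [← map_pow, hγ, map_add, map_one, add_sub_cancel_left]
  rw [h1, ← map_pow, _root_.smul_pow, map_smulM, hcW.mul_pow, map_mul] at hr
  have h2 : f (((p : A) ^ (k + e)) ^ r) ≠ 0 := by
    rw [map_pow, map_pow]
    exact pow_ne_zero _ (pow_ne_zero _ hpK)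
  have h3 : f.mapMatrix (α ^ r) * f.mapMatrix (W ^ r) = 0 :=
    (smul_eq_zero.1 hr).resolve_left h2
  exact ((hWu.pow r).map f.mapMatrix).mul_left_eq_zero.1 h3

/-- a matrix conjugate to a proper power of itself is unipotent, if it is congruent to the
identity modulo a power of `p` greater than `2` -/
theorem nilp [IsLocalRing A] [IsNoetherianRing A] (hpA : (p : A) ∈ maximalIdeal A)
    (hreg : ∀ a : A, (p : A) * a = 0 → a = 0) {k : ℕ} (hk : 1 ≤ k) (hpk : 2 < p ^ k)
    {l : ℕ} (hl : 2 ≤ l) (α B C : Matrix (Fin n) (Fin n) A) (hBC : B * C = 1) (hCB : C * B = 1)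
    (h : B * (1 + ((p : A) ^ k) • α) = (1 + ((p : A) ^ k) • α) ^ l * B) : IsNilpotent α := by
  classical
  have h1 : ∀ q : Ideal A, ∃ r : ℕ, q ∈ minimalPrimes A → MJ q (α ^ r) := by
    intro q
    by_cases hq : q ∈ minimalPrimes A
    · have hqp : q.IsPrime := hq.1.1
      obtain ⟨K, iK, iC, g, hg⟩ := exists_algClosed (A ⧸ q)
      have hpq : (p : A) ∉ q := by
        intro hpq
        exact notMem_nonZeroDivisors_of_mem_mem_minimalPrimes hpq hq
          (mem_nonZeroDivisors_iff_right.2 fun x hx => hreg x (by rwa [mul_comm]))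
      have hpK : (g.comp (Ideal.Quotient.mk q)) (p : A) ≠ 0 := by
        rw [RingHom.comp_apply, Ne, map_eq_zero_iff _ hg, Ideal.Quotient.eq_zero_iff_mem]
        exact hpq
      obtain ⟨r, hr⟩ := nilK hpA (g.comp (Ideal.Quotient.mk q)) hpK hk hpk hl α B C hBC hCB h
      refine ⟨r, fun _ i j => ?_⟩
      have h4 := congrFun (congrFun hr i) j
      rw [RingHom.mapMatrix_apply, Matrix.map_apply, Matrix.zero_apply, RingHom.comp_apply,
        map_eq_zero_iff _ hg] at h4
      exact Ideal.Quotient.eq_zero_iff_mem.1 h4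
    · exact ⟨0, fun h => absurd h hq⟩
  choose r hr using h1
  have hfin : (minimalPrimes A).Finite := minimalPrimes.finite_of_isNoetherianRing A
  set s := ∑ q ∈ hfin.toFinset, r q with hs
  have h2 : MJ (nilradical A) (α ^ s) := by
    intro i j
    have h3 : nilradical A = sInf (minimalPrimes A) := by
      rw [nilradical, ← Ideal.sInf_minimalPrimes]
      rfl
    rw [h3, Ideal.mem_sInf]
    intro q hq
    have h4 : r q ≤ s := by
      rw [hs]
      exact Finset.single_le_sum (f := r) (fun _ _ => Nat.zero_le _) (hfin.mem_toFinset.2 hq)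
    have h5 := hr q hq
    obtain ⟨t, ht⟩ := Nat.exists_eq_add_of_le h4
    rw [ht, pow_add]
    exact h5.mul_right _ i j
  obtain ⟨K, hK⟩ := IsNoetherianRing.isNilpotent_nilradical A
  refine ⟨s * K, ?_⟩
  have h3 := h2.pow K
  rw [hK, ← pow_mul] at h3
  ext i j
  have h4 := h3 i j
  rw [Matrix.zero_apply]
  exact h4

omit hp in
theorem reg_pow (hreg : ∀ a : A, (p : A) * a = 0 → a = 0) :
    ∀ (k : ℕ) (a : A), (p : A) ^ k * a = 0 → a = 0 := by
  intro k
  induction k with
  | zero => intro a h; rwa [pow_zero, one_mul] at h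
  | succ k ih =>
    intro a h
    apply hreg
    apply ih
    rwa [← mul_assoc, ← pow_succ]

omit hp in
theorem cancelM (hreg : ∀ a : A, (p : A) * a = 0 → a = 0) (k : ℕ)
    {X Y : Matrix (Fin n) (Fin n) A} (h : ((p : A) ^ k) • X = ((p : A) ^ k) • Y) : X = Y := by
  ext i j
  have h1 := congrFun (congrFun h i) j
  rw [Matrix.smul_apply, Matrix.smul_apply, smul_eq_mul, smul_eq_mul, ← sub_eq_zero, ← mul_sub] at h1
  exact sub_eq_zero.1 (reg_pow hreg k _ h1)

/-- the relation of a prime in the first layer -/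
theorem rel_core (hreg : ∀ a : A, (p : A) * a = 0 → a = 0) {k e u : ℕ} (hk : 1 ≤ k)
    (hpk : 2 < p ^ k) (hek : e ≤ k) (a b : Matrix (Fin n) (Fin n) A)
    (h : (1 + ((p : A) ^ k) • b) * (1 + ((p : A) ^ k) • a) =
      (1 + ((p : A) ^ k) • a) ^ (p ^ e * u + 1) * (1 + ((p : A) ^ k) • b)) :
    ∃ γ : Matrix (Fin n) (Fin n) A, ((p : A) ^ (k - e)) • (b * a - a * b) =
      a * ((u : Matrix (Fin n) (Fin n) A) + (p : A) • γ) * (1 + ((p : A) ^ k) • a) *
        (1 + ((p : A) ^ k) • b) := by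
  obtain ⟨γ, -, hγ⟩ := matN hk hpk a e u
  refine ⟨γ, cancelM hreg (k + e) ?_⟩
  set W := (u : Matrix (Fin n) (Fin n) A) + (p : A) • γ with hW
  rw [pow_succ, hγ] at h
  rw [smul_smul, ← pow_add, show k + e + (k - e) = k + k by omega, pow_add (p : A) k k]
  set P := (p : A) ^ k with hP
  have h1 : (1 + P • b) * (1 + P • a) - (1 + P • a) * (1 + P • b) =
      (P * P) • (b * a - a * b) := by
    simp only [mul_add, add_mul, smul_mul_assoc, mul_smul_comm, one_mul, mul_one]
    module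
  rw [← h1, h, add_mul 1, one_mul, add_mul, add_sub_cancel_left, smul_mul_assoc, smul_mul_assoc]

theorem rel_lt (hreg : ∀ a : A, (p : A) * a = 0 → a = 0) {k e u : ℕ} (hk : 1 ≤ k)
    (hpk : 2 < p ^ k) (hek : e < k) (hu : ¬ p ∣ u) (a b : Matrix (Fin n) (Fin n) A)
    (h : (1 + ((p : A) ^ k) • b) * (1 + ((p : A) ^ k) • a) =
      (1 + ((p : A) ^ k) • a) ^ (p ^ e * u + 1) * (1 + ((p : A) ^ k) • b))
    {R : Type} [CommRing R] [Algebra (ZMod p) R] (π : A →+* R) (hπ : π (p : A) = 0) :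
    π.mapMatrix a = 0 := by
  obtain ⟨γ, hγ⟩ := rel_core hreg hk hpk hek.le a b h
  have h1 := congrArg π.mapMatrix hγ
  have hk0 : π ((p : A) ^ k) = 0 := by rw [map_pow, hπ, zero_pow (by omega)]
  have hk1 : π ((p : A) ^ (k - e)) = 0 := by rw [map_pow, hπ, zero_pow (by omega)]
  simp only [map_mul, map_add, map_smulM, hk0, hk1, hπ, zero_smul, add_zero, map_one, mul_one,
    map_natCast] at h1
  have h2 : ((u : ZMod p)) • π.mapMatrix a = 0 := by
    rw [h1, Nat.cast_smul_eq_nsmul, nsmul_eq_mul, Nat.cast_comm]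
  exact (smul_eq_zero.1 h2).resolve_left fun h3 => hu ((ZMod.natCast_eq_zero_iff _ _).1 h3)

theorem rel_eq (hreg : ∀ a : A, (p : A) * a = 0 → a = 0) {k u : ℕ} (hk : 1 ≤ k)
    (hpk : 2 < p ^ k) (a b : Matrix (Fin n) (Fin n) A)
    (h : (1 + ((p : A) ^ k) • b) * (1 + ((p : A) ^ k) • a) =
      (1 + ((p : A) ^ k) • a) ^ (p ^ k * u + 1) * (1 + ((p : A) ^ k) • b))
    {R : Type} [CommRing R] [Algebra (ZMod p) R] (π : A →+* R) (hπ : π (p : A) = 0) :
    π.mapMatrix b * π.mapMatrix a - π.mapMatrix a * π.mapMatrix b =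
      (u : ZMod p) • π.mapMatrix a := by
  obtain ⟨γ, hγ⟩ := rel_core hreg hk hpk le_rfl a b h
  have h1 := congrArg π.mapMatrix hγ
  have hk0 : π ((p : A) ^ k) = 0 := by rw [map_pow, hπ, zero_pow (by omega)]
  rw [Nat.sub_self, pow_zero, one_smul] at h1
  simp only [map_mul, map_add, map_sub, map_smulM, hk0, hπ, zero_smul, add_zero, map_one, mul_one,
    map_natCast] at h1
  rw [h1, Nat.cast_smul_eq_nsmul, nsmul_eq_mul, Nat.cast_comm]

/-- the relation of a prime, for matrices at different levels -/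
theorem rel_core2 (hreg : ∀ a : A, (p : A) * a = 0 → a = 0) {m k e u : ℕ} (hk : 1 ≤ k)
    (hpk : 2 < p ^ k) (hem : e ≤ m) (a b : Matrix (Fin n) (Fin n) A)
    (h : (1 + ((p : A) ^ m) • b) * (1 + ((p : A) ^ k) • a) =
      (1 + ((p : A) ^ k) • a) ^ (p ^ e * u + 1) * (1 + ((p : A) ^ m) • b)) :
    ∃ γ : Matrix (Fin n) (Fin n) A, ((p : A) ^ (m - e)) • (b * a - a * b) =
      a * ((u : Matrix (Fin n) (Fin n) A) + (p : A) • γ) * (1 + ((p : A) ^ k) • a) *
        (1 + ((p : A) ^ m) • b) := by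
  obtain ⟨γ, -, hγ⟩ := matN hk hpk a e u
  refine ⟨γ, cancelM hreg (k + e) ?_⟩
  set W := (u : Matrix (Fin n) (Fin n) A) + (p : A) • γ with hW
  rw [pow_succ, hγ] at h
  rw [smul_smul, ← pow_add, show k + e + (m - e) = m + k by omega, pow_add (p : A) m k]
  set P := (p : A) ^ k with hP
  set Q := (p : A) ^ m with hQ
  have h1 : (1 + Q • b) * (1 + P • a) - (1 + P • a) * (1 + Q • b) =
      (Q * P) • (b * a - a * b) := by
    simp only [mul_add, add_mul, smul_mul_assoc, mul_smul_comm, one_mul, mul_one]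
    module
  rw [← h1, h, add_mul 1, one_mul, add_mul, add_sub_cancel_left, smul_mul_assoc, smul_mul_assoc]

/-- the leading coefficient `a` at level `k` and the coefficient `b` at level `m` -/
theorem rel_lead (hreg : ∀ a : A, (p : A) * a = 0 → a = 0) {m k e u : ℕ} (hm1 : 1 ≤ m)
    (hk : 1 ≤ k) (hpk : 2 < p ^ k) (hem : e ≤ m) (hu : ¬ p ∣ u) (a b : Matrix (Fin n) (Fin n) A)
    (h : (1 + ((p : A) ^ m) • b) * (1 + ((p : A) ^ k) • a) =
      (1 + ((p : A) ^ k) • a) ^ (p ^ e * u + 1) * (1 + ((p : A) ^ m) • b))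
    {R : Type} [CommRing R] [Algebra (ZMod p) R] (π : A →+* R) (hπ : π (p : A) = 0)
    (hb : e = m → IsNilpotent (π.mapMatrix b)) : π.mapMatrix a = 0 := by
  obtain ⟨γ, hγ⟩ := rel_core2 hreg hk hpk hem a b h
  have h1 := congrArg π.mapMatrix hγ
  have hk0 : π ((p : A) ^ k) = 0 := by rw [map_pow, hπ, zero_pow (by omega)]
  have hm0 : π ((p : A) ^ m) = 0 := by rw [map_pow, hπ, zero_pow (by omega)]
  have hr : π.mapMatrix (a * ((u : Matrix (Fin n) (Fin n) A) + (p : A) • γ) *
      (1 + ((p : A) ^ k) • a) * (1 + ((p : A) ^ m) • b)) = ((u : ZMod p)) • π.mapMatrix a := by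
    simp only [map_mul, map_add, map_smulM, hk0, hm0, hπ, zero_smul, add_zero, map_one, mul_one,
      map_natCast]
    rw [Nat.cast_smul_eq_nsmul, nsmul_eq_mul, Nat.cast_comm]
  rw [hr, map_smulM, map_sub, map_mul, map_mul] at h1
  have hu0 : (u : ZMod p) ≠ 0 := fun h3 => hu ((ZMod.natCast_eq_zero_iff _ _).1 h3)
  by_cases he : e = m
  · rw [he, Nat.sub_self, pow_zero, map_one, one_smul] at h1
    exact ad_eigenB (hb he) hu0 h1
  · have h2 : π ((p : A) ^ (m - e)) = 0 := by rw [map_pow, hπ, zero_pow (by omega)]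
    rw [h2, zero_smul] at h1
    exact (smul_eq_zero.1 h1.symm).resolve_left hu0

/-- the quotient by `p` -/
theorem exists_red [IsLocalRing A] [IsNoetherianRing A] (hpA : (p : A) ∈ maximalIdeal A) :
    ∃ (R : Type) (_ : CommRing R) (_ : IsLocalRing R) (_ : IsNoetherianRing R)
      (_ : Algebra (ZMod p) R) (π : A →+* R), Function.Surjective π ∧
      ∀ a, π a = 0 ↔ ∃ b, a = (p : A) * b := by
  set I : Ideal A := Ideal.span {(p : A)} with hI
  have hne : I ≠ ⊤ := fun h => (maximalIdeal.isMaximal A).ne_top (top_le_iff.1 (h ▸ (by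
    rw [hI, Ideal.span_le, Set.singleton_subset_iff]
    exact hpA)))
  have hnt : Nontrivial (A ⧸ I) := Ideal.Quotient.nontrivial_iff.2 hne
  have hloc : IsLocalRing (A ⧸ I) :=
    IsLocalRing.of_surjective' _ Ideal.Quotient.mk_surjective
  have hch : CharP (A ⧸ I) p := (CharP.charP_iff_prime_eq_zero hp.out).2 (by
    rw [← map_natCast (Ideal.Quotient.mk I), Ideal.Quotient.eq_zero_iff_mem, hI]
    exact Ideal.mem_span_singleton_self _)
  refine ⟨A ⧸ I, inferInstance, hloc, inferInstance, ZMod.algebra (A ⧸ I) p,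
    Ideal.Quotient.mk I, Ideal.Quotient.mk_surjective, fun a => ?_⟩
  rw [Ideal.Quotient.eq_zero_iff_mem, hI, Ideal.mem_span_singleton]
  rfl

omit hp in
/-- Artin-Rees -/
theorem artin [IsLocalRing A] [IsNoetherianRing A] (hreg : ∀ a : A, (p : A) * a = 0 → a = 0)
    (k N : ℕ) : ∃ N' : ℕ, ∀ a : A, (p : A) ^ k * a ∈ maximalIdeal A ^ N' →
      a ∈ maximalIdeal A ^ N := by
  obtain ⟨c, hc⟩ := Ideal.exists_pow_inf_eq_pow_smul (maximalIdeal A) (M := A)
    (Ideal.span {(p : A) ^ k} : Ideal A)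
  refine ⟨N + c, fun a ha => ?_⟩
  have h1 : (p : A) ^ k * a ∈ maximalIdeal A ^ (N + c) • (⊤ : Submodule A A) ⊓
      (Ideal.span {(p : A) ^ k} : Ideal A) := by
    refine ⟨?_, Ideal.mem_span_singleton.2 (Dvd.intro _ rfl)⟩
    show (p : A) ^ k * a ∈ (maximalIdeal A ^ (N + c) • (⊤ : Ideal A) : Ideal A)
    rw [smul_eq_mul, Ideal.mul_top]
    exact ha
  rw [hc (N + c) (by omega), Nat.add_sub_cancel] at h1
  have h2 : (p : A) ^ k * a ∈ maximalIdeal A ^ N * Ideal.span {(p : A) ^ k} :=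
    Submodule.smul_mono le_rfl inf_le_right h1
  rw [Ideal.mem_mul_span_singleton] at h2
  obtain ⟨z, hz, hz'⟩ := h2
  have h3 : a = z := by
    rw [← sub_eq_zero]
    apply reg_pow hreg k
    rw [mul_sub, ← hz']
    ring
  rw [h3]
  exact hz

end


end Pool.Agent.V11248.FM
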