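import Pool.Agent.V11248.FM.Fin

/-!
# Procyclic extensions and the cyclotomic extension
-/

set_option autoImplicit false

namespace Pool.Agent.V11248.FM

open NumberField IsDedekindDomain Matrix IsLocalRing Pool.Agent.W569.FM Pool.Agent.W571.FM

section
variable {p : ℕ} [hp : Fact p.Prime] {K : Type} [Field K] [NumberField K]

/-- finite `p`-group quotients are cyclic -/
theorem cyc_gen (E : Set (HeightOneSpectrum (𝓞 K)))
    (hK : ∀ χ χ' : GF K →* Multiplicative (ZMod p), UO p E χ → UO p E χ' → (∃ h, χ h ≠ 1) →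
      ∀ g, χ g = 1 → χ' g = 1) {Q : Type} [Group Q] (f : GF K →* Q)
    (hQ : IsPGroup p f.range) (hfin : Finite f.range) (hopen : IsOpen (f.ker : Set (GF K)))
    (hun : ∀ P : Ideal (OO K), P.IsMaximal → (∀ v ∈ E, cm P ≠ v.asIdeal) → ∀ τ : GF K,
      InInertia P τ → f τ = 1)
    (hreal : ∀ c : GF K, c * c = 1 → f c = 1) :
    ∃ s : GF K, ∀ g : GF K, f g ∈ Subgroup.zpowers (f s) := by
  have hu : ∀ ψ : f.range →* Multiplicative (ZMod p), UO p E (ψ.comp f.rangeRestrict) := by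
    intro ψ
    refine ⟨Subgroup.isOpen_mono ?_ hopen, fun P hP hPE τ hτ => ?_, fun c hc => ?_⟩
    · intro t ht
      have h1 : f.rangeRestrict t = 1 := Subtype.ext ht
      show ψ (f.rangeRestrict t) = 1
      rw [h1, map_one]
    · have h1 : f.rangeRestrict τ = 1 := Subtype.ext (hun P hP hPE τ hτ)
      show ψ (f.rangeRestrict τ) = 1
      rw [h1, map_one]
    · have h1 : f.rangeRestrict c = 1 := Subtype.ext (hreal c hc)
      show ψ (f.rangeRestrict c) = 1
      rw [h1, map_one]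
  by_cases htr : ∀ g, f g = 1
  · exact ⟨1, fun g => by rw [htr g]; exact Subgroup.one_mem _⟩
  · push Not at htr
    obtain ⟨g0, hg0⟩ := htr
    have hne : (⊥ : Subgroup f.range) ≠ ⊤ := by
      intro hQ
      apply hg0
      have h5 : f.rangeRestrict g0 ∈ (⊤ : Subgroup f.range) := Subgroup.mem_top _
      rw [← hQ, Subgroup.mem_bot] at h5
      exact congrArg Subtype.val h5
    obtain ⟨ψ, -, y, hy⟩ := exists_hom hQ ⊥ hne
    obtain ⟨s, rfl⟩ := MonoidHom.rangeRestrict_surjective _ y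
    have hgen : ∀ g : GF K, f.rangeRestrict g ∈ Subgroup.zpowers (f.rangeRestrict s) := by
      intro g
      by_contra hg
      have hne : Subgroup.zpowers (f.rangeRestrict s) ≠ ⊤ := fun h =>
        hg (by rw [h]; exact Subgroup.mem_top _)
      obtain ⟨ψ', hψ', y', hy'⟩ := exists_hom hQ _ hne
      obtain ⟨s', rfl⟩ := MonoidHom.rangeRestrict_surjective _ y'
      exact hy (hK (ψ'.comp f.rangeRestrict) (ψ.comp f.rangeRestrict) (hu ψ') (hu ψ) ⟨s', hy'⟩ s
        (hψ' (f.rangeRestrict s) (Subgroup.mem_zpowers _)))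
    refine ⟨s, fun g => ?_⟩
    obtain ⟨i, hi⟩ := Subgroup.mem_zpowers_iff.1 (hgen g)
    refine Subgroup.mem_zpowers_iff.2 ⟨i, ?_⟩
    have h1 := congrArg Subtype.val hi
    rw [Subgroup.coe_zpow] at h1
    exact h1

omit hp [NumberField K] in
/-- roots of unity of order dividing `l` which are congruent modulo a prime not containing `l`
are equal -/
theorem root_eq {P : Ideal (OO K)} {l : ℕ} (hlP : (l : OO K) ∉ P) {x y : OO K}
    (hx : x ^ l = 1) (hy : y ^ l = 1) (h : x - y ∈ P) (hl : l ≠ 0) : x = y := by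
  set u := x * y ^ (l - 1) with hu
  have hyy : y * y ^ (l - 1) = 1 := by rw [← pow_succ', Nat.sub_add_cancel (by omega), hy]
  have hul : u ^ l = 1 := by
    rw [hu, mul_pow, hx, one_mul, ← pow_mul, mul_comm, pow_mul, hy, one_pow]
  have hu1 : u - 1 ∈ P := by
    have : u - 1 = y ^ (l - 1) * (x - y) := by rw [hu, ← hyy]; ring
    rw [this]
    exact P.mul_mem_left _ h
  have hgeom : (u - 1) * ∑ i ∈ Finset.range l, u ^ i = 0 := by
    rw [mul_geom_sum, hul, sub_self]
  rcases mul_eq_zero.1 hgeom with h1 | h1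
  · have h2 : u = 1 := sub_eq_zero.1 h1
    have h3 : x * (y * y ^ (l - 1)) = y * u := by rw [hu]; ring
    rw [hyy, h2, mul_one, mul_one] at h3
    exact h3
  · exfalso
    apply hlP
    have h2 : (l : OO K) = -∑ i ∈ Finset.range l, (u ^ i - 1) := by
      rw [Finset.sum_sub_distrib, h1]
      simp
    rw [h2]
    apply P.neg_mem
    apply P.sum_mem
    intro i _
    exact P.mem_of_dvd (by simpa using sub_dvd_pow_sub_pow u 1 i) hu1

/-- the cyclotomic character modulo `p ^ M` -/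
theorem exists_cyc (p M : ℕ) [hp : Fact p.Prime] (K : Type) [Field K] [NumberField K] :
    ∃ κ : GF K →* (ZMod (p ^ M))ˣ, IsOpen (κ.ker : Set (GF K)) ∧
      (∀ g : GF K, (∀ z : AlgebraicClosure K, z ^ p ^ M = 1 → g z = z) → κ g = 1) ∧
      (∀ P : Ideal (OO K), P.IsMaximal → (p : OO K) ∉ P → ∀ τ : GF K, InInertia P τ → κ τ = 1) ∧
      ∀ (P : Ideal (OO K)) (q : ℕ), P.IsMaximal → (p : OO K) ∉ P → ∀ σ : GF K, FrobAt q P σ →
        ((κ σ : (ZMod (p ^ M))ˣ) : ZMod (p ^ M)) = q := by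
  have hl0 : p ^ M ≠ 0 := pow_ne_zero M hp.out.ne_zero
  have : NeZero (p ^ M) := ⟨hl0⟩
  obtain ⟨ζ, hζ⟩ := HasEnoughRootsOfUnity.exists_primitiveRoot (AlgebraicClosure K) (p ^ M)
  have hζi : IsIntegral ℤ ζ :=
    IsIntegral.of_pow (Nat.pos_of_ne_zero hl0) (by rw [hζ.pow_eq_one]; exact isIntegral_one)
  let z : OO K := ⟨ζ, hζi⟩
  have hz : (z : AlgebraicClosure K) = ζ := rfl
  have hzp : ∀ a : ℕ, ((z ^ a : OO K) : AlgebraicClosure K) = ζ ^ a := fun a =>
    map_pow (algebraMap (OO K) (AlgebraicClosure K)) z _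
  have hzprim : IsPrimitiveRoot z (p ^ M) := by
    have h1 : IsPrimitiveRoot (algebraMap (OO K) (AlgebraicClosure K) z) (p ^ M) := hζ
    exact h1.of_map_of_injective RingOfIntegers.coe_injective
  have hzl : z ^ (p ^ M) = 1 := hzprim.pow_eq_one
  set χ : GF K →* (ZMod (p ^ M))ˣ := hζ.autToPow K with hχ
  have hspec : ∀ g : GF K, ζ ^ ((χ g : (ZMod (p ^ M))ˣ) : ZMod (p ^ M)).val = g ζ :=
    fun g => hζ.autToPow_spec K g
  have hact : ∀ g : GF K, g • z = z ^ ((χ g : (ZMod (p ^ M))ˣ) : ZMod (p ^ M)).val := by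
    intro g
    apply RingOfIntegers.ext
    rw [hzp, hspec]
    rfl
  have hval : ∀ (g : GF K) (a : ℕ), g • z = z ^ a →
      ((χ g : (ZMod (p ^ M))ˣ) : ZMod (p ^ M)) = a := by
    intro g a h
    rw [hact] at h
    have h1 := congrArg (fun y : OO K => (y : AlgebraicClosure K)) h
    simp only [hzp] at h1
    have h2 : ((χ g : (ZMod (p ^ M))ˣ) : ZMod (p ^ M)).val ≡ a [MOD (p ^ M)] := by
      rw [pow_eq_pow_mod a hζ.pow_eq_one] at h1
      have h3 := hζ.pow_inj (ZMod.val_lt _) (Nat.mod_lt _ (Nat.pos_of_ne_zero hl0)) h1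
      rw [h3]
      exact Nat.mod_modEq _ _
    have h3 := (ZMod.natCast_eq_natCast_iff _ _ _).2 h2
    rwa [ZMod.natCast_zmod_val] at h3
  have hnotmem : ∀ P : Ideal (OO K), P.IsMaximal → (p : OO K) ∉ P →
      ((p ^ M : ℕ) : OO K) ∉ P := by
    intro P hP hpP h
    rw [Nat.cast_pow] at h
    exact hpP (hP.isPrime.mem_of_pow_mem M h)
  have hone : ∀ g : GF K, g • z = z → χ g = 1 := by
    intro g hg
    have h3 := hval g 1 (by rw [pow_one, hg])
    exact Units.ext (by rw [h3]; simp)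
  refine ⟨χ, ?_, ?_, ?_, ?_⟩
  · have h1 : IsOpen (MulAction.stabilizer (GF K) ζ : Set (GF K)) :=
      stabilizer_isOpen_of_isIntegral (K := K) ζ
    refine Subgroup.isOpen_mono (H₁ := MulAction.stabilizer (GF K) ζ) ?_ h1
    intro g hg
    rw [MulAction.mem_stabilizer_iff] at hg
    rw [MonoidHom.mem_ker]
    apply hone
    apply RingOfIntegers.ext
    exact hg
  · intro g hg
    apply hone
    apply RingOfIntegers.ext
    exact hg ζ hζ.pow_eq_one
  · intro P hP hlP τ hτ
    apply hone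
    refine root_eq (hnotmem P hP hlP) ?_ hzl (hτ z) hl0
    rw [← smul_pow', hzl, smul_one]
  · intro P q hP hpP σ hσ
    have h2 : σ • z = z ^ q := by
      refine root_eq (hnotmem P hP hpP) ?_ ?_ (hσ z) hl0
      · rw [← smul_pow', hzl, smul_one]
      · rw [← pow_mul, mul_comm, pow_mul, hzl, one_pow]
    exact hval σ q h2

/-- there are places which do not divide `p` -/
theorem exists_place (p : ℕ) [hp : Fact p.Prime] (K : Type) [Field K] [NumberField K] :
    ∃ v : HeightOneSpectrum (𝓞 K), (p : 𝓞 K) ∉ v.asIdeal := by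
  obtain ⟨l, hlp, hl⟩ := Nat.exists_infinite_primes (p + 1)
  have hmax : (Ideal.span {(l : ℤ)}).IsMaximal :=
    PrincipalIdealRing.isMaximal_of_irreducible (Nat.prime_iff_prime_int.1 hl).irreducible
  obtain ⟨Q, hQ, hQl⟩ := Ideal.exists_ideal_over_maximal_of_isIntegral (S := 𝓞 K)
    (Ideal.span {(l : ℤ)}) (by
      rw [(RingHom.injective_iff_ker_eq_bot _).1 (FaithfulSMul.algebraMap_injective ℤ (𝓞 K))]
      exact bot_le)
  refine ⟨⟨Q, hQ.isPrime, Ring.ne_bot_of_isMaximal_of_not_isField hQ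
    (RingOfIntegers.not_isField K)⟩, fun h => ?_⟩
  have h1 : (p : ℤ) ∈ Q.comap (algebraMap ℤ (𝓞 K)) := by
    rw [Ideal.mem_comap, map_natCast]
    exact h
  rw [hQl, Ideal.mem_span_singleton] at h1
  have h2 : l ∣ p := by exact_mod_cast h1
  have := Nat.le_of_dvd hp.out.pos h2
  omega

end

end Pool.Agent.V11248.FM
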