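import Pool.Agent.V11248.FM.Cyc

/-!
# If there is at most one `ℤ/p`-extension then the image factors through the cyclotomic extension
-/

set_option autoImplicit false

namespace Pool.Agent.V11248.FM

open NumberField IsDedekindDomain Matrix IsLocalRing Pool.Agent.W569.FM Pool.Agent.W571.FM

section
variable {p : ℕ} [hp : Fact p.Prime] {K : Type} [Field K] [NumberField K]

theorem units_pow (M : ℕ) (u : (ZMod (p ^ M))ˣ) : (u ^ (2 * (p - 1))) ^ p ^ M = 1 := by
  have : NeZero (p ^ M) := ⟨pow_ne_zero M hp.out.ne_zero⟩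
  have h1 : (p ^ M).totient ∣ (p - 1) * p ^ M := by
    rcases Nat.eq_zero_or_pos M with h | h
    · rw [h, pow_zero, Nat.totient_one]
      exact one_dvd _
    · rw [Nat.totient_prime_pow hp.out h, mul_comm]
      exact Nat.mul_dvd_mul_left _ (pow_dvd_pow p (Nat.sub_le M 1))
  obtain ⟨d, hd⟩ := h1
  rw [← pow_mul, mul_assoc, hd, mul_left_comm, pow_mul, ZMod.pow_totient, one_pow]

/-- elements fixing all roots of unity of `p`-power order are mapped to `1` -/
theorem cyc_trivial (E : Set (HeightOneSpectrum (𝓞 K)))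
    (hEp : ∀ v : HeightOneSpectrum (𝓞 K), (p : 𝓞 K) ∈ v.asIdeal → v ∈ E)
    (hK : ∀ χ χ' : GF K →* Multiplicative (ZMod p), UO p E χ → UO p E χ' → (∃ h, χ h ≠ 1) →
      ∀ g, χ g = 1 → χ' g = 1) {Q : Type} [Group Q] (f : GF K →* Q)
    (hQ : IsPGroup p f.range) (hfin : Finite f.range) (hopen : IsOpen (f.ker : Set (GF K)))
    (hun : ∀ P : Ideal (OO K), P.IsMaximal → (∀ v ∈ E, cm P ≠ v.asIdeal) → ∀ τ : GF K,
      InInertia P τ → f τ = 1)
    (hreal : ∀ c : GF K, c * c = 1 → f c = 1) (g : GF K)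
    (hg : ∀ (M : ℕ) (z : AlgebraicClosure K), z ^ p ^ M = 1 → g z = z) : f g = 1 := by
  by_contra hne
  obtain ⟨r, hr⟩ := IsPGroup.iff_card.1 hQ
  have hfr : ∀ x, f x ^ p ^ r = 1 := by
    intro x
    have h1 : (f.rangeRestrict x) ^ p ^ r = 1 := by
      rw [← hr]
      exact pow_card_eq_one'
    have h2 := congrArg Subtype.val h1
    rw [Subgroup.coe_pow] at h2
    exact h2
  set e := 2 * (p - 1) with he
  have hpos : 0 < p - 1 := by have := hp.out.two_le; omega
  have key : ∀ M : ℕ, ∀ κ : GF K →* (ZMod (p ^ M))ˣ, IsOpen (κ.ker : Set (GF K)) →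
      κ g = 1 → (∀ P : Ideal (OO K), P.IsMaximal → (p : OO K) ∉ P → ∀ τ : GF K,
        InInertia P τ → κ τ = 1) → ∀ h, κ h ^ (e * p ^ r) = 1 := by
    intro M κ hκo hκg hκun h
    let κ' : GF K →* (ZMod (p ^ M))ˣ := (powMonoidHom e).comp κ
    have hκ' : ∀ x, κ' x = κ x ^ e := fun x => rfl
    let F : GF K →* Q × (ZMod (p ^ M))ˣ := f.prod κ'
    have hFo : IsOpen (F.ker : Set (GF K)) := by
      have h1 : IsOpen ((f.ker ⊓ κ.ker : Subgroup (GF K)) : Set (GF K)) := by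
        rw [Subgroup.coe_inf]
        exact hopen.inter hκo
      refine Subgroup.isOpen_mono ?_ h1
      rintro x ⟨hx1, hx2⟩
      refine Prod.ext hx1 ?_
      show κ x ^ e = 1
      have hx2' : κ x = 1 := hx2
      rw [hx2', one_pow]
    have hFp : IsPGroup p F.range := by
      rintro ⟨_, x, rfl⟩
      refine ⟨r + M, Subtype.ext ?_⟩
      show (F x) ^ p ^ (r + M) = 1
      refine Prod.ext ?_ ?_
      · show f x ^ p ^ (r + M) = 1
        rw [pow_add, pow_mul, hfr, one_pow]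
      · show (κ x ^ e) ^ p ^ (r + M) = 1
        rw [add_comm, pow_add, pow_mul, units_pow, one_pow]
    have hFfin : Finite F.range := by
      have h1 : Finite (GF K ⧸ F.ker) := Subgroup.quotient_finite_of_isOpen _ hFo
      exact Finite.of_equiv _ (QuotientGroup.quotientKerEquivRange F).toEquiv
    obtain ⟨s, hs⟩ := cyc_gen E hK F hFp hFfin hFo (fun P hP hPE τ hτ => by
      refine Prod.ext (hun P hP hPE τ hτ) ?_
      show κ τ ^ e = 1
      rw [hκun P hP (fun hpP => ?_) τ hτ, one_pow]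
      exact hPE (place hP) (hEp _ (natCast_mem_cm.2 hpP)) rfl) (fun c hc => by
      refine Prod.ext (hreal c hc) ?_
      show κ c ^ e = 1
      rw [he, pow_mul, pow_two, ← map_mul, hc, map_one, one_pow])
    obtain ⟨i, hi⟩ := Subgroup.mem_zpowers_iff.1 (hs g)
    have hi1 : f s ^ i = f g := congrArg Prod.fst hi
    have hi2 : κ' s ^ i = 1 := by
      have h1 : κ' s ^ i = κ' g := congrArg Prod.snd hi
      rw [h1, hκ', hκg, one_pow]
    obtain ⟨a, -, ha⟩ := (Nat.dvd_prime_pow hp.out).1 (orderOf_dvd_of_pow_eq_one (hfr s))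
    obtain ⟨b, -, hb⟩ := (Nat.dvd_prime_pow hp.out).1
      (orderOf_dvd_of_pow_eq_one (units_pow M (κ s)))
    have hb' : orderOf (κ' s) = p ^ b := hb
    have hba : b ≤ a := by
      by_contra hcon
      have h1 : ((orderOf (f s) : ℕ) : ℤ) ∣ i := by
        refine dvd_trans ?_ (orderOf_dvd_iff_zpow_eq_one.2 hi2)
        rw [ha, hb']
        exact_mod_cast pow_dvd_pow p (not_le.1 hcon).le
      rw [orderOf_dvd_iff_zpow_eq_one, hi1] at h1
      exact hne h1
    have hsr : κ' s ^ p ^ r = 1 := by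
      rw [← orderOf_dvd_iff_pow_eq_one, hb']
      refine (pow_dvd_pow p hba).trans ?_
      rw [← ha]
      exact orderOf_dvd_of_pow_eq_one (hfr s)
    obtain ⟨j, hj⟩ := Subgroup.mem_zpowers_iff.1 (hs h)
    have hj2 : κ' s ^ j = κ' h := congrArg Prod.snd hj
    have h1 : κ' h ^ p ^ r = 1 := by
      rw [← hj2, ← _root_.zpow_natCast, ← _root_.zpow_mul, mul_comm, _root_.zpow_mul,
        _root_.zpow_natCast, hsr, _root_.one_zpow]
    rw [hκ', ← pow_mul] at h1
    exact h1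
  obtain ⟨v, hv⟩ := exists_place p K
  obtain ⟨P, σ, hP, hPv, hσ⟩ := frob_cm v
  have hpP : (p : OO K) ∉ P := by
    intro h
    apply hv
    rw [← hPv]
    exact natCast_mem_cm.2 h
  set q := nm v with hq
  have hq2 : 2 ≤ q := two_le_nm v
  set t := e * p ^ r with ht
  have ht0 : t ≠ 0 := by
    rw [ht, he]
    have : 0 < p ^ r := pow_pos hp.out.pos r
    positivity
  obtain ⟨κ, hκ1, hκ2, hκ3, hκ4⟩ := exists_cyc p (q ^ t) K
  have h1 := key (q ^ t) κ hκ1 (hκ2 g (hg _)) hκ3 σ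
  have h2 : ((q ^ t : ℕ) : ZMod (p ^ (q ^ t))) = ((1 : ℕ) : ZMod (p ^ (q ^ t))) := by
    have h3 := congrArg (fun x : (ZMod (p ^ (q ^ t)))ˣ => (x : ZMod (p ^ (q ^ t)))) h1
    simp only [Units.val_pow_eq_pow_val, Units.val_one] at h3
    rw [hκ4 P q hP hpP σ hσ] at h3
    push_cast
    exact h3
  rw [ZMod.natCast_eq_natCast_iff] at h2
  have h3 : q ^ t < p ^ (q ^ t) := Nat.lt_pow_self hp.out.one_lt
  have h4 : 1 < q ^ t := Nat.one_lt_pow ht0 (by omega)
  have h5 := Nat.ModEq.eq_of_lt_of_lt h2 h3 (h4.trans h3)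
  omega

variable {A : Type} [CommRing A] [IsLocalRing A] [IsNoetherianRing A] {n : ℕ}

/-- the representation factors through the cyclotomic extension -/
theorem cyc_of (hpA : (p : A) ∈ maximalIdeal A) (E : Set (HeightOneSpectrum (𝓞 K)))
    (hEp : ∀ v : HeightOneSpectrum (𝓞 K), (p : 𝓞 K) ∈ v.asIdeal → v ∈ E)
    (hK : ∀ χ χ' : GF K →* Multiplicative (ZMod p), UO p E χ → UO p E χ' → (∃ h, χ h ≠ 1) →
      ∀ g, χ g = 1 → χ' g = 1)
    {ρ : GF K →* GL (Fin n) A}
    (hcts : ∀ N : ℕ, ∀ᶠ g in nhds (1 : GF K), MJ (maximalIdeal A ^ N)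
      ((ρ g : Matrix (Fin n) (Fin n) A) - 1))
    (hres : ∀ g, ∃ M : ℕ, MJ (maximalIdeal A) (((ρ g : Matrix (Fin n) (Fin n) A) - 1) ^ M))
    (hreal : ∀ c : GF K, c * c = 1 → ρ c = 1)
    (h : ∀ P : Ideal (OO K), P.IsMaximal → (∀ v ∈ E, cm P ≠ v.asIdeal) → ∀ τ : GF K,
      InInertia P τ → ρ τ = 1) (g : GF K)
    (hg : ∀ (M : ℕ) (z : AlgebraicClosure K), z ^ p ^ M = 1 → g z = z) : ρ g = 1 := by
  refine eq_of_red fun N => ?_
  obtain ⟨h1, h2, h3⟩ := red_group hpA hcts hres (maximalIdeal A ^ N) N le_rfl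
  rw [map_one]
  refine cyc_trivial E hEp hK ((GeneralLinearGroup.map (Ideal.Quotient.mk
    (maximalIdeal A ^ N))).comp ρ) h2 h3 ?_ (fun P hP hPE τ hτ => ?_) (fun c hc => ?_) g hg
  · rw [← MonoidHom.ker_rangeRestrict]
    exact h1
  · rw [MonoidHom.comp_apply, h P hP hPE τ hτ, map_one]
  · rw [MonoidHom.comp_apply, hreal c hc, map_one]

end

end Pool.Agent.V11248.FM
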