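import Pool.Agent.V11248.FM.Step

/-!
# Tame representations with sparsely linked ramification
-/

set_option autoImplicit false

namespace Pool.Agent.V11248.FM

open NumberField IsDedekindDomain Matrix IsLocalRing Pool.Agent.W569.FM Pool.Agent.W571.FM

/-- nontrivial finite `p`-groups have nontrivial homomorphisms to `ℤ/p` (the proof is that of
`Pool.Agent.H42R2.FG.exists_hom`) -/
theorem exists_hom {p : ℕ} [Fact p.Prime] {P : Type} [Group P] [Finite P] (hP : IsPGroup p P)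
    (Q : Subgroup P) (hQ : Q ≠ ⊤) :
    ∃ ψ : P →* Multiplicative (ZMod p), (∀ g ∈ Q, ψ g = 1) ∧ ∃ g, ψ g ≠ 1 := by
  have hp : p.Prime := Fact.out
  obtain ⟨M, hM, hQM⟩ := (eq_top_or_exists_le_coatom Q).resolve_left hQ
  have : Group.IsNilpotent P := hP.isNilpotent
  have hMn : M.Normal := Subgroup.NormalizerCondition.normal_of_coatom M
    Group.normalizerCondition_of_isNilpotent hM
  have hG : IsPGroup p (P ⧸ M) := hP.to_quotient M
  have hnt : Nontrivial (P ⧸ M) := QuotientGroup.nontrivial_iff.2 hM.1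
  have hdvd : p ∣ Nat.card (P ⧸ M) := by
    obtain ⟨k, hk⟩ := IsPGroup.iff_card.1 hG
    rw [hk]
    refine dvd_pow_self p ?_
    rintro rfl
    rw [pow_zero] at hk
    have := Finite.one_lt_card (α := P ⧸ M)
    omega
  obtain ⟨g, hg⟩ := exists_prime_orderOf_dvd_card' p hdvd
  have hgt : Subgroup.zpowers g = ⊤ := by
    have h1 : M < (Subgroup.zpowers g).comap (QuotientGroup.mk' M) := by
      rw [lt_iff_le_and_ne]
      constructor
      · intro y hy
        rw [Subgroup.mem_comap]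
        have : QuotientGroup.mk' M y = 1 := (QuotientGroup.eq_one_iff y).2 hy
        rw [this]
        exact Subgroup.one_mem _
      · intro h2
        obtain ⟨y, hy⟩ := QuotientGroup.mk'_surjective M g
        have h3 : y ∈ (Subgroup.zpowers g).comap (QuotientGroup.mk' M) := by
          rw [Subgroup.mem_comap, hy]
          exact Subgroup.mem_zpowers g
        rw [← h2] at h3
        have h4 : g = 1 := by
          rw [← hy]
          exact (QuotientGroup.eq_one_iff y).2 h3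
        rw [h4, orderOf_one] at hg
        exact hp.one_lt.ne hg
    have h2 := hM.2 _ h1
    rw [eq_top_iff]
    intro z _
    obtain ⟨y, hy⟩ := QuotientGroup.mk'_surjective M z
    have h3 : y ∈ (Subgroup.zpowers g).comap (QuotientGroup.mk' M) := by
      rw [h2]; trivial
    rw [Subgroup.mem_comap, hy] at h3
    exact h3
  have hcard : Nat.card (P ⧸ M) = p := by
    rw [← hg, ← Nat.card_zpowers, hgt]
    exact Nat.card_congr (Subgroup.topEquiv.toEquiv.symm)
  have hcyc : IsCyclic (P ⧸ M) := ⟨g, fun z => by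
    have hz : z ∈ Subgroup.zpowers g := by rw [hgt]; trivial
    exact Subgroup.mem_zpowers_iff.1 hz⟩
  have key : ∀ q : ℕ, Nat.card (P ⧸ M) = q → Nonempty ((P ⧸ M) ≃* Multiplicative (ZMod q)) := by
    rintro q rfl
    exact ⟨(zmodCyclicMulEquiv hcyc).symm⟩
  obtain ⟨e⟩ := key p hcard
  refine ⟨e.toMonoidHom.comp (QuotientGroup.mk' M), fun y hy => ?_, ?_⟩
  · have : QuotientGroup.mk' M y = 1 := (QuotientGroup.eq_one_iff y).2 (hQM hy)
    rw [MonoidHom.comp_apply, this, map_one]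
  · obtain ⟨y, hy⟩ := QuotientGroup.mk'_surjective M g
    refine ⟨y, ?_⟩
    rw [MonoidHom.comp_apply, hy]
    intro h1
    have h2 : e g = 1 := h1
    rw [MulEquiv.map_eq_one_iff] at h2
    rw [h2, orderOf_one] at hg
    exact hp.one_lt.ne hg

section
variable {p : ℕ} [hp : Fact p.Prime] {K : Type} [Field K] [NumberField K]

theorem mult_zmod_pow (v : Multiplicative (ZMod p)) : v ^ p = 1 := by
  apply Multiplicative.toAdd.injective
  rw [toAdd_pow, toAdd_one, nsmul_eq_mul, ZMod.natCast_self, zero_mul]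

/-- characters of odd order are trivial on elements of order two -/
theorem char_two (hp2 : p ≠ 2) (χ : GF K →* Multiplicative (ZMod p)) {c : GF K} (hc : c * c = 1) :
    χ c = 1 := by
  have h1 : χ c ^ 2 = 1 := by rw [pow_two, ← map_mul, hc, map_one]
  have hc2 : Nat.Coprime 2 p := by
    rw [Nat.coprime_primes Nat.prime_two hp.out]
    exact fun h => hp2 h.symm
  have h3 : orderOf (χ c) ∣ 1 := by
    rw [← Nat.Coprime.gcd_eq_one hc2]
    exact Nat.dvd_gcd (orderOf_dvd_of_pow_eq_one h1) (orderOf_dvd_of_pow_eq_one (mult_zmod_pow _))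
  exact orderOf_eq_one_iff.1 (Nat.dvd_one.1 h3)

variable {A : Type} [CommRing A] [IsLocalRing A] [IsNoetherianRing A] {n : ℕ}

/-- a character of a finite `p`-group quotient is unramified outside `E` -/
theorem uo_comp (hpA : (p : A) ∈ maximalIdeal A) (E : Set (HeightOneSpectrum (𝓞 K)))
    {ρ : GF K →* GL (Fin n) A}
    (hcts : ∀ N : ℕ, ∀ᶠ g in nhds (1 : GF K), MJ (maximalIdeal A ^ N)
      ((ρ g : Matrix (Fin n) (Fin n) A) - 1))
    (hres : ∀ g, ∃ M : ℕ, MJ (maximalIdeal A) (((ρ g : Matrix (Fin n) (Fin n) A) - 1) ^ M))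
    (hreal : p = 2 → ∀ c : GF K, c * c = 1 → ρ c = 1) (I : Ideal A) (N : ℕ)
    (hI : maximalIdeal A ^ N ≤ I)
    (h : ∀ P : Ideal (OO K), P.IsMaximal → (∀ v ∈ E, cm P ≠ v.asIdeal) → ∀ τ : GF K,
      InInertia P τ → MJ I ((ρ τ : Matrix (Fin n) (Fin n) A) - 1))
    (ψ : ((GeneralLinearGroup.map (Ideal.Quotient.mk I)).comp ρ).range →*
      Multiplicative (ZMod p)) :
    UO p E (ψ.comp ((GeneralLinearGroup.map (Ideal.Quotient.mk I)).comp ρ).rangeRestrict) := by
  obtain ⟨h1, h2, h3⟩ := red_group hpA hcts hres I N hI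
  set f := ((GeneralLinearGroup.map (Ideal.Quotient.mk I)).comp ρ).rangeRestrict with hf
  have hf1 : ∀ s, MJ I ((ρ s : Matrix (Fin n) (Fin n) A) - 1) →
      f s = 1 := fun s hs => Subtype.ext (map_mk_eq_one hs)
  refine ⟨?_, fun P hP hPE τ hτ => ?_, fun c hc => ?_⟩
  · refine Subgroup.isOpen_mono ?_ h1
    intro t ht
    rw [MonoidHom.mem_ker] at ht ⊢
    rw [MonoidHom.comp_apply, ht, map_one]
  · rw [MonoidHom.comp_apply, hf1 τ (h P hP hPE τ hτ), map_one]
  · by_cases hp2 : p = 2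
    · have h5 : f c = 1 := by
        apply hf1
        rw [hreal hp2 c hc, Units.val_one, sub_self]
        intro i j
        rw [Matrix.zero_apply]
        exact Ideal.zero_mem _
      rw [MonoidHom.comp_apply, h5, map_one]
    · exact char_two hp2 _ hc

/-- a congruence which holds on all inertia groups outside `E` holds everywhere, if there are no
`ℤ/p`-extensions unramified outside `E` -/
theorem cong_of_inertia (hpA : (p : A) ∈ maximalIdeal A) (E : Set (HeightOneSpectrum (𝓞 K)))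
    (hK : ∀ χ : GF K →* Multiplicative (ZMod p), UO p E χ → ∀ g, χ g = 1)
    {ρ : GF K →* GL (Fin n) A}
    (hcts : ∀ N : ℕ, ∀ᶠ g in nhds (1 : GF K), MJ (maximalIdeal A ^ N)
      ((ρ g : Matrix (Fin n) (Fin n) A) - 1))
    (hres : ∀ g, ∃ M : ℕ, MJ (maximalIdeal A) (((ρ g : Matrix (Fin n) (Fin n) A) - 1) ^ M))
    (hreal : p = 2 → ∀ c : GF K, c * c = 1 → ρ c = 1) (I : Ideal A)
    (h : ∀ P : Ideal (OO K), P.IsMaximal → (∀ v ∈ E, cm P ≠ v.asIdeal) → ∀ τ : GF K,
      InInertia P τ → MJ I ((ρ τ : Matrix (Fin n) (Fin n) A) - 1)) (g : GF K) :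
    MJ I ((ρ g : Matrix (Fin n) (Fin n) A) - 1) := by
  have key : ∀ N : ℕ, MJ (I ⊔ maximalIdeal A ^ N) ((ρ g : Matrix (Fin n) (Fin n) A) - 1) := by
    intro N
    obtain ⟨h1, h2, h3⟩ := red_group hpA hcts hres (I ⊔ maximalIdeal A ^ N) N le_sup_right
    have hu := uo_comp hpA E hcts hres hreal (I ⊔ maximalIdeal A ^ N) N le_sup_right
      (fun P hP hPE τ hτ => (h P hP hPE τ hτ).mono le_sup_left)
    set f := ((GeneralLinearGroup.map (Ideal.Quotient.mk (I ⊔ maximalIdeal A ^ N))).comp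
      ρ).rangeRestrict with hf
    have h4 : f g = 1 := by
      by_contra hne
      have hQ : (⊥ : Subgroup ((GeneralLinearGroup.map (Ideal.Quotient.mk
          (I ⊔ maximalIdeal A ^ N))).comp ρ).range) ≠ ⊤ := by
        intro hQ
        apply hne
        have h5 : f g ∈ (⊤ : Subgroup ((GeneralLinearGroup.map (Ideal.Quotient.mk
          (I ⊔ maximalIdeal A ^ N))).comp ρ).range) := Subgroup.mem_top _
        rw [← hQ, Subgroup.mem_bot] at h5
        exact h5
      obtain ⟨ψ, -, y, hy⟩ := exists_hom h2 ⊥ hQ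
      obtain ⟨s, rfl⟩ := MonoidHom.rangeRestrict_surjective _ y
      exact hy (hK (ψ.comp f) (hu ψ) s)
    exact of_map_mk_eq_one (congrArg Subtype.val h4)
  by_cases hI : I = ⊤
  · intro i j
    rw [hI]
    exact Submodule.mem_top
  have hnt : Nontrivial (A ⧸ I) := Ideal.Quotient.nontrivial_iff.2 hI
  have hloc : IsLocalRing (A ⧸ I) :=
    IsLocalRing.of_surjective' _ Ideal.Quotient.mk_surjective
  have hπl : IsLocalHom (Ideal.Quotient.mk I) :=
    IsLocalHom.of_surjective _ Ideal.Quotient.mk_surjective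
  intro i j
  rw [← Ideal.Quotient.eq_zero_iff_mem]
  have h3 : Ideal.Quotient.mk I (((ρ g : Matrix (Fin n) (Fin n) A) - 1) i j) ∈
      ⨅ N : ℕ, maximalIdeal (A ⧸ I) ^ N := by
    rw [Ideal.mem_iInf]
    intro N
    obtain ⟨a, ha, b, hb, hab⟩ := Submodule.mem_sup.1 (key N i j)
    rw [← hab, map_add, Ideal.Quotient.eq_zero_iff_mem.2 ha, zero_add]
    exact map_max_pow _ hb
  rw [Ideal.iInf_pow_eq_bot_of_isLocalRing _ (maximalIdeal.isMaximal (A ⧸ I)).ne_top] at h3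
  exact h3

/-- if all nontrivial characters unramified outside `E` have the same kernel then the finite
quotients of the image are cyclic -/
theorem cyclic_quot (hpA : (p : A) ∈ maximalIdeal A) (E : Set (HeightOneSpectrum (𝓞 K)))
    (hK : ∀ χ χ' : GF K →* Multiplicative (ZMod p), UO p E χ → UO p E χ' → (∃ h, χ h ≠ 1) →
      ∀ g, χ g = 1 → χ' g = 1)
    {ρ : GF K →* GL (Fin n) A}
    (hcts : ∀ N : ℕ, ∀ᶠ g in nhds (1 : GF K), MJ (maximalIdeal A ^ N)
      ((ρ g : Matrix (Fin n) (Fin n) A) - 1))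
    (hres : ∀ g, ∃ M : ℕ, MJ (maximalIdeal A) (((ρ g : Matrix (Fin n) (Fin n) A) - 1) ^ M))
    (hreal : p = 2 → ∀ c : GF K, c * c = 1 → ρ c = 1)
    (h : ∀ P : Ideal (OO K), P.IsMaximal → (∀ v ∈ E, cm P ≠ v.asIdeal) → ∀ τ : GF K,
      InInertia P τ → ρ τ = 1) (N : ℕ) :
    ∃ s : GF K, ∀ g : GF K, ∃ i : ℤ,
      GeneralLinearGroup.map (Ideal.Quotient.mk (maximalIdeal A ^ N)) (ρ g) =
        GeneralLinearGroup.map (Ideal.Quotient.mk (maximalIdeal A ^ N)) (ρ s) ^ i := by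
  obtain ⟨h1, h2, h3⟩ := red_group hpA hcts hres (maximalIdeal A ^ N) N le_rfl
  have hu := uo_comp hpA E hcts hres hreal (maximalIdeal A ^ N) N le_rfl
    (fun P hP hPE τ hτ => by
      rw [h P hP hPE τ hτ, Units.val_one, sub_self]
      intro i j
      rw [Matrix.zero_apply]
      exact Ideal.zero_mem _)
  set f := ((GeneralLinearGroup.map (Ideal.Quotient.mk (maximalIdeal A ^ N))).comp
    ρ).rangeRestrict with hf
  have hfv : ∀ g, (f g : GL (Fin n) (A ⧸ maximalIdeal A ^ N)) =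
    GeneralLinearGroup.map (Ideal.Quotient.mk (maximalIdeal A ^ N)) (ρ g) := fun g => rfl
  have hgen : ∃ s : GF K, ∀ g : GF K, f g ∈ Subgroup.zpowers (f s) := by
    by_cases htr : ∀ g, f g = 1
    · exact ⟨1, fun g => by rw [htr g]; exact Subgroup.one_mem _⟩
    · push Not at htr
      obtain ⟨g0, hg0⟩ := htr
      have hQ : (⊥ : Subgroup ((GeneralLinearGroup.map (Ideal.Quotient.mk
          (maximalIdeal A ^ N))).comp ρ).range) ≠ ⊤ := by
        intro hQ
        apply hg0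
        have h5 : f g0 ∈ (⊤ : Subgroup ((GeneralLinearGroup.map (Ideal.Quotient.mk
          (maximalIdeal A ^ N))).comp ρ).range) := Subgroup.mem_top _
        rw [← hQ, Subgroup.mem_bot] at h5
        exact h5
      obtain ⟨ψ, -, y, hy⟩ := exists_hom h2 ⊥ hQ
      obtain ⟨s, rfl⟩ := MonoidHom.rangeRestrict_surjective _ y
      refine ⟨s, fun g => ?_⟩
      by_contra hg
      have hne : Subgroup.zpowers (f s) ≠ ⊤ := fun h => hg (by rw [h]; exact Subgroup.mem_top _)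
      obtain ⟨ψ', hψ', y', hy'⟩ := exists_hom h2 _ hne
      obtain ⟨s', rfl⟩ := MonoidHom.rangeRestrict_surjective _ y'
      exact hy (hK (ψ'.comp f) (ψ.comp f) (hu ψ') (hu ψ) ⟨s', hy'⟩ s
        (hψ' (f s) (Subgroup.mem_zpowers _)))
  obtain ⟨s, hs⟩ := hgen
  refine ⟨s, fun g => ?_⟩
  obtain ⟨i, hi⟩ := Subgroup.mem_zpowers_iff.1 (hs g)
  refine ⟨i, ?_⟩
  rw [← hfv, ← hfv, ← hi, Subgroup.coe_zpow]

/-- the image is commutative -/
theorem comm_of (hpA : (p : A) ∈ maximalIdeal A) (E : Set (HeightOneSpectrum (𝓞 K)))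
    (hK : ∀ χ χ' : GF K →* Multiplicative (ZMod p), UO p E χ → UO p E χ' → (∃ h, χ h ≠ 1) →
      ∀ g, χ g = 1 → χ' g = 1)
    {ρ : GF K →* GL (Fin n) A}
    (hcts : ∀ N : ℕ, ∀ᶠ g in nhds (1 : GF K), MJ (maximalIdeal A ^ N)
      ((ρ g : Matrix (Fin n) (Fin n) A) - 1))
    (hres : ∀ g, ∃ M : ℕ, MJ (maximalIdeal A) (((ρ g : Matrix (Fin n) (Fin n) A) - 1) ^ M))
    (hreal : p = 2 → ∀ c : GF K, c * c = 1 → ρ c = 1)
    (h : ∀ P : Ideal (OO K), P.IsMaximal → (∀ v ∈ E, cm P ≠ v.asIdeal) → ∀ τ : GF K,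
      InInertia P τ → ρ τ = 1) (g g' : GF K) : ρ g * ρ g' = ρ g' * ρ g := by
  refine eq_of_red fun N => ?_
  obtain ⟨s, hs⟩ := cyclic_quot hpA E hK hcts hres hreal h N
  obtain ⟨i, hi⟩ := hs g
  obtain ⟨j, hj⟩ := hs g'
  rw [map_mul, map_mul, hi, hj]
  exact _root_.zpow_mul_comm _ i j

/-- **main theorem** -/
theorem main (hpA : (p : A) ∈ maximalIdeal A) (hreg : ∀ a : A, (p : A) * a = 0 → a = 0)
    {m : ℕ} (hm : 2 < p ^ m) (S : Finset (HeightOneSpectrum (𝓞 K)))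
    (hS : ∀ v ∈ S, p ^ m ∣ nm v - 1 ∧ ¬ p ^ (m + 1) ∣ nm v - 1)
    (E : Set (HeightOneSpectrum (𝓞 K)))
    (hadm : ∀ J ⊆ S, J.Nonempty → Row p E J ∨ Rank p E J)
    {ρ : GF K →* GL (Fin n) A}
    (hcts : ∀ N : ℕ, ∀ᶠ g in nhds (1 : GF K), MJ (maximalIdeal A ^ N)
      ((ρ g : Matrix (Fin n) (Fin n) A) - 1))
    (h0 : (∀ g i j, (p : A) ^ m ∣ ((ρ g : Matrix (Fin n) (Fin n) A) - 1) i j) ∨
      ((∀ χ : GF K →* Multiplicative (ZMod p), UO p E χ → ∀ g, χ g = 1) ∧
        (∀ g, ∃ M : ℕ, MJ (maximalIdeal A) (((ρ g : Matrix (Fin n) (Fin n) A) - 1) ^ M)) ∧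
        (p = 2 → ∀ c : GF K, c * c = 1 → ρ c = 1) ∧
        ∀ P : Ideal (OO K), P.IsMaximal → (∀ v ∈ E, cm P ≠ v.asIdeal) → ∀ τ : GF K,
          InInertia P τ → ∀ i j, (p : A) ^ m ∣ ((ρ τ : Matrix (Fin n) (Fin n) A) - 1) i j))
    (hur : ∀ (P : Ideal (OO K)) (v : HeightOneSpectrum (𝓞 K)), P.IsMaximal → cm P = v.asIdeal →
      v ∉ E → ((p : 𝓞 K) ∈ v.asIdeal ∨ v ∉ S ∧ p ^ m ∣ nm v - 1) → ∀ τ : GF K, InInertia P τ →
        ρ τ = 1) :
    (∀ c : GF K, c * c = 1 → ρ c = 1) ∧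
    (∀ P : Ideal (OO K), P.IsMaximal → (∀ v ∈ E, cm P ≠ v.asIdeal) → ∀ τ : GF K,
      InInertia P τ → ρ τ = 1) ∧
    ((∀ χ : GF K →* Multiplicative (ZMod p), UO p E χ → ∀ g, χ g = 1) → ∀ g, ρ g = 1) ∧
    ((∀ χ χ' : GF K →* Multiplicative (ZMod p), UO p E χ → UO p E χ' → (∃ h, χ h ≠ 1) →
      ∀ g, χ g = 1 → χ' g = 1) → ∀ g g', ρ g * ρ g' = ρ g' * ρ g) ∧
    ∀ g, ∃ M : ℕ, MJ (maximalIdeal A) (((ρ g : Matrix (Fin n) (Fin n) A) - 1) ^ M) := by
  classical
  have hm1 : 1 ≤ m := by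
    rcases Nat.eq_zero_or_pos m with h | h
    · rw [h, pow_zero] at hm
      omega
    · exact h
  have hdvd : ∀ g, ∀ i j, (p : A) ^ m ∣ ((ρ g : Matrix (Fin n) (Fin n) A) - 1) i j := by
    rcases h0 with h0 | ⟨hK, hres, hreal, hI⟩
    · exact h0
    · intro g i j
      exact Ideal.mem_span_singleton.1 (cong_of_inertia hpA E hK hcts hres hreal
        (Ideal.span {(p : A) ^ m})
        (fun P hP hPE τ hτ i j => Ideal.mem_span_singleton.2 (hI P hP hPE τ hτ i j)) g i j)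
  have hcong : ∀ g, ∃ α : Matrix (Fin n) (Fin n) A,
      (ρ g : Matrix (Fin n) (Fin n) A) = 1 + ((p : A) ^ m) • α := by
    intro g
    have h2 : ∀ i j, ∃ a, ((ρ g : Matrix (Fin n) (Fin n) A) - 1) i j = (p : A) ^ m * a :=
      fun i j => hdvd g i j
    choose α hα using h2
    refine ⟨Matrix.of α, ?_⟩
    rw [← sub_eq_iff_eq_add']
    ext i j
    rw [hα, Matrix.smul_apply, Matrix.of_apply, smul_eq_mul]
  obtain ⟨hc, hun⟩ := unram hpA hreg hm S hS E hadm hcts hcong hur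
  have hres : ∀ g, ∃ M : ℕ, MJ (maximalIdeal A) (((ρ g : Matrix (Fin n) (Fin n) A) - 1) ^ M) := by
    intro g
    refine ⟨1, fun i j => ?_⟩
    rw [pow_one]
    obtain ⟨a, ha⟩ := hdvd g i j
    rw [ha]
    exact Ideal.mul_mem_right _ _ (Ideal.pow_mem_of_mem _ hpA m hm1)
  refine ⟨hc, hun, fun hK g => ?_, fun hK g g' =>
    comm_of hpA E hK hcts hres (fun _ => hc) hun g g', hres⟩
  apply Units.ext
  rw [Units.val_one, ← sub_eq_zero]
  ext i j
  rw [Matrix.zero_apply]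
  have h1 : ((ρ g : Matrix (Fin n) (Fin n) A) - 1) i j ∈ ⨅ N : ℕ, maximalIdeal A ^ N := by
    rw [Ideal.mem_iInf]
    intro N
    refine cong_of_inertia hpA E hK hcts hres (fun _ => hc) (maximalIdeal A ^ N)
      (fun P hP hPE τ hτ i j => ?_) g i j
    rw [hun P hP hPE τ hτ, Units.val_one, sub_self, Matrix.zero_apply]
    exact Ideal.zero_mem _
  rw [Ideal.iInf_pow_eq_bot_of_isLocalRing _ (maximalIdeal.isMaximal A).ne_top] at h1
  exact h1

end

end Pool.Agent.V11248.FM
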