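import Pool.Agent.V11248.FM.Alg
import Pool.Agent.W571.FM.Frob
import Pool.Agent.W327.FM.TameAbs
import Pool.Agent.W258.FM.TameFin

/-!
# Characters of the absolute Galois group of a number field
-/

set_option autoImplicit false

namespace Pool.Agent.V11248.FM

open NumberField IsDedekindDomain Pool.Agent.W569.FM Pool.Agent.W571.FM

/-- the tame relation over a number field -/
theorem tame (K : Type) [Field K] [NumberField K] (p q : ℕ) [hp : Fact p.Prime] (hq : q ≠ 0)
    (hpq : Nat.Coprime p q) (E : Type) [Group E] (hE : IsPGroup p E) (f : GF K →* E)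
    (hopen : IsOpen (f.ker : Set (GF K))) (P : Ideal (OO K)) (hP : P.IsMaximal)
    (hqP : (q : OO K) ∈ P) :
    (∀ τ : GF K, InInertia P τ → ∀ σ : GF K, FrobAt q P σ → f (σ * τ * σ⁻¹) = f τ ^ q) ∧
    ∃ τ₀ : GF K, InInertia P τ₀ ∧ ∀ τ : GF K, InInertia P τ → f τ ∈ Subgroup.zpowers (f τ₀) := by
  refine Pool.Agent.W327.FM.gen K p q hq ?_ E hE f hopen P hP hqP
  intro L _ _ _ _ hG P hP h0 hlP
  have hmax : P.IsMaximal := hP.isMaximal h0
  have : FiniteDimensional K L := inferInstance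
  have : Finite Gal(L/K) := inferInstance
  obtain ⟨k, hk⟩ := (IsPGroup.iff_card (p := p) (G := Gal(L/K))).1 hG
  have hN : ((p ^ k : ℕ) : 𝓞 L) ∉ P := by
    intro h
    push_cast at h
    have hpP : (p : 𝓞 L) ∈ P := hP.mem_of_pow_mem k h
    have hb := Nat.gcd_eq_gcd_ab p q
    rw [hpq] at hb
    apply hmax.ne_top
    rw [Ideal.eq_top_iff_one]
    have e : (1 : 𝓞 L) = (p : 𝓞 L) * ((p.gcdA q : ℤ) : 𝓞 L) + (q : 𝓞 L) * ((p.gcdB q : ℤ) : 𝓞 L) := by
      have := congrArg (fun z : ℤ => (z : 𝓞 L)) hb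
      push_cast at this
      exact this
    rw [e]
    exact Ideal.add_mem _ (Ideal.mul_mem_right _ _ hpP) (Ideal.mul_mem_right _ _ hlP)
  have hGN : ∀ g : Gal(L/K), g ^ (p ^ k) = 1 := by
    intro g
    rw [← hk]
    exact pow_card_eq_one'
  have : FaithfulSMul Gal(L/K) (𝓞 L) := by
    refine ⟨?_⟩
    intro a b hab
    ext x
    obtain ⟨y, z, hz, rfl⟩ := IsFractionRing.div_surjective (A := 𝓞 L) x
    have ey : a (algebraMap (𝓞 L) L y) = b (algebraMap (𝓞 L) L y) :=
      congrArg (algebraMap (𝓞 L) L) (hab y)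
    have ez : a (algebraMap (𝓞 L) L z) = b (algebraMap (𝓞 L) L z) :=
      congrArg (algebraMap (𝓞 L) L) (hab z)
    rw [map_div₀, map_div₀, ey, ez]
  refine ⟨?_, ?_⟩
  · intro τ hτ σ hσ
    exact Pool.Agent.W258.FM.tame_rel hmax h0 hN hGN hq hτ hσ
  · exact Pool.Agent.W258.FM.tame_cyclic hmax h0 hN hGN

section
variable {K : Type} [Field K] [NumberField K]

theorem cm_max {P : Ideal (OO K)} (hP : P.IsMaximal) : (cm P).IsMaximal := by
  have : Algebra.IsIntegral (𝓞 K) (OO K) := inferInstance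
  exact Ideal.isMaximal_comap_of_isIntegral_of_isMaximal P

/-- the place below a maximal ideal of the ring of all algebraic integers -/
noncomputable def place {P : Ideal (OO K)} (hP : P.IsMaximal) : HeightOneSpectrum (𝓞 K) where
  asIdeal := cm P
  isPrime := (cm_max hP).isPrime
  ne_bot := Ring.ne_bot_of_isMaximal_of_not_isField (cm_max hP) (RingOfIntegers.not_isField K)

theorem place_asIdeal {P : Ideal (OO K)} (hP : P.IsMaximal) : (place hP).asIdeal = cm P := rfl

/-- the norm of a place -/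
noncomputable def nm (v : HeightOneSpectrum (𝓞 K)) : ℕ := Ideal.absNorm v.asIdeal

theorem nm_mem {P : Ideal (OO K)} {v : HeightOneSpectrum (𝓞 K)} (h : cm P = v.asIdeal) :
    (nm v : OO K) ∈ P := by
  apply natCast_mem_cm.1
  rw [h]
  exact Ideal.absNorm_mem _

theorem two_le_nm (v : HeightOneSpectrum (𝓞 K)) : 2 ≤ nm v := by
  have h1 : nm v ≠ 0 := by
    intro h
    exact v.ne_bot (Ideal.absNorm_eq_zero_iff.1 h)
  have h2 : nm v ≠ 1 := by
    intro h
    exact v.isPrime.ne_top (Ideal.absNorm_eq_one_iff.1 h)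
  omega

theorem nm_coprime {p : ℕ} (hp : p.Prime) {v : HeightOneSpectrum (𝓞 K)}
    (h : (p : 𝓞 K) ∉ v.asIdeal) : Nat.Coprime p (nm v) := by
  rw [Nat.Prime.coprime_iff_not_dvd hp]
  intro hd
  have hvm : v.asIdeal.IsMaximal := v.isMaximal
  have hfin : Finite (𝓞 K ⧸ v.asIdeal) := Ideal.finiteQuotientOfFreeOfNeBot v.asIdeal v.ne_bot
  let _ : Fintype (𝓞 K ⧸ v.asIdeal) := Fintype.ofFinite _
  have hcard : nm v = Fintype.card (𝓞 K ⧸ v.asIdeal) := by
    rw [nm, Ideal.absNorm_apply, Submodule.cardQuot_apply, Nat.card_eq_fintype_card]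
  rw [hcard] at hd
  have : Fact p.Prime := ⟨hp⟩
  obtain ⟨x, hx⟩ := exists_prime_addOrderOf_dvd_card p hd
  have hx0 : x ≠ 0 := by
    rintro rfl
    rw [addOrderOf_zero] at hx
    exact hp.one_lt.ne hx
  have h1 : (p : 𝓞 K ⧸ v.asIdeal) * x = 0 := by
    rw [← nsmul_eq_mul, ← hx]
    exact addOrderOf_nsmul_eq_zero x
  have hdom : IsDomain (𝓞 K ⧸ v.asIdeal) := inferInstance
  have h2 : (p : 𝓞 K ⧸ v.asIdeal) = 0 := (mul_eq_zero.1 h1).resolve_right hx0
  apply h
  rw [← Ideal.Quotient.eq_zero_iff_mem, map_natCast]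
  exact h2

/-- homomorphisms to commutative groups and inertia groups at different places above the same
place -/
theorem inertia_transport {E : Type} [CommGroup E] (f : GF K →* E) (C : E → Prop)
    {P Q : Ideal (OO K)} (hP : P.IsMaximal) (hQ : Q.IsMaximal) (h : cm P = cm Q)
    (hf : ∀ τ, InInertia P τ → C (f τ)) (τ : GF K) (hτ : InInertia Q τ) : C (f τ) := by
  obtain ⟨g, hg⟩ := exists_smul P Q hP.isPrime hQ.isPrime h
  have h1 := hf _ (inertia_conj hg hτ)
  rw [map_mul, map_mul, map_inv, mul_comm (f g)⁻¹, inv_mul_cancel_right] at h1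
  exact h1

/-- characters of order `p` unramified outside `D`, in particular at the real places -/
structure UO (p : ℕ) (D : Set (HeightOneSpectrum (𝓞 K)))
    (χ : GF K →* Multiplicative (ZMod p)) : Prop where
  open_ker : IsOpen (χ.ker : Set (GF K))
  inertia : ∀ P : Ideal (OO K), P.IsMaximal → (∀ v ∈ D, cm P ≠ v.asIdeal) → ∀ τ : GF K,
    InInertia P τ → χ τ = 1
  real : ∀ c : GF K, c * c = 1 → χ c = 1

theorem UO.mono {p : ℕ} {D D' : Set (HeightOneSpectrum (𝓞 K))} (h : D ⊆ D')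
    {χ : GF K →* Multiplicative (ZMod p)} (hχ : UO p D χ) : UO p D' χ :=
  ⟨hχ.open_ker, fun P hP hPD => hχ.inertia P hP fun v hv => hPD v (h hv), hχ.real⟩

end

section
variable {p : ℕ} [hp : Fact p.Prime] {B : Type} [AddCommGroup B] [Module (ZMod p) B]

/-- a separated decreasing filtration -/
structure Fil (F : ℕ → Submodule (ZMod p) B) : Prop where
  anti : Antitone F
  sep : ∀ b, (∀ N, b ∈ F N) → b = 0

theorem Fil.mem {F : ℕ → Submodule (ZMod p) B} (hF : Fil F) (W : Submodule (ZMod p) B)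
    (hW : Finite W) (b : B) (h : ∀ N, ∃ w ∈ W, b - w ∈ F N) : b ∈ W := by
  classical
  by_contra hb
  have h1 : ∀ w : W, ∃ N, b - w ∉ F N := by
    intro w
    by_contra hcon
    push Not at hcon
    apply hb
    have := hF.sep _ hcon
    rw [sub_eq_zero] at this
    rw [this]
    exact w.2
  choose N hN using h1
  let _ : Fintype W := Fintype.ofFinite _
  obtain ⟨w, hw, hbw⟩ := h (Finset.univ.sup N)
  exact hN ⟨w, hw⟩ (hF.anti (Finset.le_sup (Finset.mem_univ (⟨w, hw⟩ : W))) hbw)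

theorem Fil.mem_of_dual {F : ℕ → Submodule (ZMod p) B} (hF : Fil F) (W : Submodule (ZMod p) B)
    (hW : Finite W) (b : B)
    (h : ∀ (φ : B →ₗ[ZMod p] ZMod p) (N : ℕ), W ≤ LinearMap.ker φ → F N ≤ LinearMap.ker φ →
      φ b = 0) : b ∈ W := by
  refine hF.mem W hW b fun N => ?_
  have h1 : b ∈ W ⊔ F N := by
    by_contra hb
    obtain ⟨φ, hφ1, hφ2⟩ := Submodule.exists_dual_map_eq_bot_of_notMem hb inferInstance
    have h2 : W ⊔ F N ≤ LinearMap.ker φ := by
      intro x hx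
      have h3 : φ x ∈ (W ⊔ F N).map φ := Submodule.mem_map_of_mem hx
      rw [hφ2] at h3
      exact h3
    exact hφ1 (h φ N (le_sup_left.trans h2) (le_sup_right.trans h2))
  obtain ⟨w, hw, y, hy, hwy⟩ := Submodule.mem_sup.1 h1
  refine ⟨w, hw, ?_⟩
  rw [← hwy, add_sub_cancel_left]
  exact hy

theorem finite_span (s : Set B) (hs : s.Finite) : Finite (Submodule.span (ZMod p) s) := by
  have : Module.Finite (ZMod p) (Submodule.span (ZMod p) s) :=
    Module.Finite.span_of_finite (ZMod p) hs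
  exact Module.finite_of_finite (ZMod p)

variable {K : Type} [Field K] [NumberField K]

/-- composition of a homomorphism to a vector space with a functional -/
noncomputable def cmp (X : GF K →* Multiplicative B) (φ : B →ₗ[ZMod p] ZMod p) :
    GF K →* Multiplicative (ZMod p) :=
  (AddMonoidHom.toMultiplicative φ.toAddMonoidHom).comp X

theorem cmp_apply (X : GF K →* Multiplicative B) (φ : B →ₗ[ZMod p] ZMod p) (g : GF K) :
    cmp X φ g = Multiplicative.ofAdd (φ (Multiplicative.toAdd (X g))) := rfl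

theorem cmp_eq_one (X : GF K →* Multiplicative B) (φ : B →ₗ[ZMod p] ZMod p) (g : GF K) :
    cmp X φ g = 1 ↔ φ (Multiplicative.toAdd (X g)) = 0 := Iff.rfl

theorem cmp_open {X : GF K →* Multiplicative B} {F : ℕ → Submodule (ZMod p) B}
    (hX : ∀ N, ∀ᶠ g in nhds (1 : GF K), Multiplicative.toAdd (X g) ∈ F N)
    {φ : B →ₗ[ZMod p] ZMod p} {N : ℕ} (h : F N ≤ LinearMap.ker φ) :
    IsOpen ((cmp X φ).ker : Set (GF K)) := by
  apply Subgroup.isOpen_of_mem_nhds _ (g := (1 : GF K))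
  filter_upwards [hX N] with g hg
  exact (cmp_eq_one X φ g).2 (h hg)

/-- membership of `X g` in a finite subspace is detected by characters -/
theorem mem_W {X : GF K →* Multiplicative B} {F : ℕ → Submodule (ZMod p) B} (hF : Fil F)
    (hX : ∀ N, ∀ᶠ g in nhds (1 : GF K), Multiplicative.toAdd (X g) ∈ F N)
    (hreal : ∀ c : GF K, c * c = 1 → X c = 1) (W : Submodule (ZMod p) B) (hW : Finite W)
    (D : Set (HeightOneSpectrum (𝓞 K)))
    (hin : ∀ P : Ideal (OO K), P.IsMaximal → (∀ v ∈ D, cm P ≠ v.asIdeal) → ∀ τ : GF K,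
      InInertia P τ → Multiplicative.toAdd (X τ) ∈ W)
    (H : Set (GF K)) (hH : ∀ h ∈ H, Multiplicative.toAdd (X h) ∈ W) (g : GF K)
    (hg : ∀ χ : GF K →* Multiplicative (ZMod p), UO p D χ → (∀ h ∈ H, χ h = 1) → χ g = 1) :
    Multiplicative.toAdd (X g) ∈ W := by
  refine hF.mem_of_dual W hW _ fun φ N hφW hφF => ?_
  refine (cmp_eq_one X φ g).1 (hg (cmp X φ) ⟨cmp_open hX hφF, fun P hP hPD τ hτ => ?_,
    fun c hc => ?_⟩ fun h hh => ?_)
  · exact (cmp_eq_one X φ τ).2 (hφW (hin P hP hPD τ hτ))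
  · rw [cmp_eq_one, hreal c hc, toAdd_one, map_zero]
  · exact (cmp_eq_one X φ h).2 (hφW (hH h hh))

/-- the image of a tame inertia group is a line -/
theorem inertia_line {X : GF K →* Multiplicative B} {F : ℕ → Submodule (ZMod p) B} (hF : Fil F)
    (hX : ∀ N, ∀ᶠ g in nhds (1 : GF K), Multiplicative.toAdd (X g) ∈ F N)
    (q : ℕ) (hq : q ≠ 0) (hpq : Nat.Coprime p q) (P : Ideal (OO K)) (hP : P.IsMaximal)
    (hqP : (q : OO K) ∈ P) :
    ∃ τ₀ : GF K, InInertia P τ₀ ∧ ∀ τ : GF K, InInertia P τ →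
      Multiplicative.toAdd (X τ) ∈ Submodule.span (ZMod p) {Multiplicative.toAdd (X τ₀)} := by
  by_cases hall : ∀ τ : GF K, InInertia P τ → X τ = 1
  · refine ⟨1, fun x => ?_, fun τ hτ => ?_⟩
    · rw [one_smul, sub_self]
      exact P.zero_mem
    · rw [hall τ hτ, toAdd_one]
      exact Submodule.zero_mem _
  push Not at hall
  obtain ⟨τ₀, hτ₀, hne⟩ := hall
  refine ⟨τ₀, hτ₀, fun τ hτ => ?_⟩
  have hx0 : Multiplicative.toAdd (X τ₀) ≠ 0 := fun h => hne (Multiplicative.toAdd.injective h)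
  obtain ⟨ψ, N', hψF, hψ⟩ : ∃ (ψ : B →ₗ[ZMod p] ZMod p) (N' : ℕ), F N' ≤ LinearMap.ker ψ ∧
      ψ (Multiplicative.toAdd (X τ₀)) ≠ 0 := by
    by_contra hcon
    push Not at hcon
    have h1 := hF.mem_of_dual (⊥ : Submodule (ZMod p) B) inferInstance
      (Multiplicative.toAdd (X τ₀)) fun φ N _ hφ => hcon φ N hφ
    exact hx0 ((Submodule.mem_bot _).1 h1)
  refine hF.mem_of_dual _ (finite_span _ (Set.finite_singleton _)) _ fun φ N hφW hφF => ?_
  have hφ0 : φ (Multiplicative.toAdd (X τ₀)) = 0 :=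
    hφW (Submodule.subset_span (Set.mem_singleton _))
  let f : GF K →* Multiplicative (ZMod p) × Multiplicative (ZMod p) := (cmp X φ).prod (cmp X ψ)
  have hfo : IsOpen (f.ker : Set (GF K)) := by
    have h1 : IsOpen (((cmp X φ).ker ⊓ (cmp X ψ).ker : Subgroup (GF K)) : Set (GF K)) := by
      rw [Subgroup.coe_inf]
      exact (cmp_open hX hφF).inter (cmp_open hX hψF)
    refine Subgroup.isOpen_mono ?_ h1
    rintro g ⟨hg1, hg2⟩
    exact Prod.ext hg1 hg2
  have hmp : ∀ v : Multiplicative (ZMod p), v ^ p = 1 := by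
    intro v
    apply Multiplicative.toAdd.injective
    rw [toAdd_pow, toAdd_one, nsmul_eq_mul, ZMod.natCast_self, zero_mul]
  have hfp : IsPGroup p (Multiplicative (ZMod p) × Multiplicative (ZMod p)) := fun g =>
    ⟨1, by rw [pow_one]; exact Prod.ext (hmp g.1) (hmp g.2)⟩
  obtain ⟨t0, ht0, hcyc⟩ := (tame K p q hq hpq _ hfp f hfo P hP hqP).2
  obtain ⟨i, hi⟩ := Subgroup.mem_zpowers_iff.1 (hcyc τ hτ)
  obtain ⟨j, hj⟩ := Subgroup.mem_zpowers_iff.1 (hcyc τ₀ hτ₀)
  have hi1 : cmp X φ τ = cmp X φ t0 ^ i := (congrArg Prod.fst hi).symm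
  have hj1 : cmp X φ τ₀ = cmp X φ t0 ^ j := (congrArg Prod.fst hj).symm
  have hj2 : cmp X ψ τ₀ = cmp X ψ t0 ^ j := (congrArg Prod.snd hj).symm
  have hi1' : φ (Multiplicative.toAdd (X τ)) = i • φ (Multiplicative.toAdd (X t0)) :=
    congrArg Multiplicative.toAdd hi1
  have hj1' : φ (Multiplicative.toAdd (X τ₀)) = j • φ (Multiplicative.toAdd (X t0)) :=
    congrArg Multiplicative.toAdd hj1
  have hj2' : ψ (Multiplicative.toAdd (X τ₀)) = j • ψ (Multiplicative.toAdd (X t0)) :=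
    congrArg Multiplicative.toAdd hj2
  rw [hj2', zsmul_eq_mul] at hψ
  have hc1 : ((j : ℤ) : ZMod p) ≠ 0 := left_ne_zero_of_mul hψ
  rw [hφ0, zsmul_eq_mul] at hj1'
  have h5 : φ (Multiplicative.toAdd (X t0)) = 0 := (mul_eq_zero.1 hj1'.symm).resolve_left hc1
  rw [hi1', h5, smul_zero]

end

end Pool.Agent.V11248.FM
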