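import Pool.Agent.V11248.FM.Cyd
import Pool.Agent.TH831.OT.PsiP
import Pool.Agent.W134.FM.Cyclo
import Pool.Agent.W569.FM.Span
import Pool.Agent.W215.FM.Gen

/-!
# Characters of order `p` of the absolute Galois group of `ℚ`
-/

set_option autoImplicit false

namespace Pool.Agent.V11248.FM

open NumberField IsDedekindDomain Pool.Agent.W569.FM Pool.Agent.W571.FM

section
variable {p : ℕ} [hp : Fact p.Prime]

theorem in_mul {P : Ideal (OO ℚ)} {a b : GF ℚ} (ha : InInertia P a) (hb : InInertia P b) :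
    InInertia P (a * b) := by
  intro x
  have h1 : (a * b) • x - x = (a • (b • x) - b • x) + (b • x - x) := by
    rw [mul_smul]
    ring
  rw [h1]
  exact P.add_mem (ha _) (hb _)

theorem in_pow {P : Ideal (OO ℚ)} {a : GF ℚ} (ha : InInertia P a) (k : ℕ) :
    InInertia P (a ^ k) := by
  induction k with
  | zero =>
    rw [pow_zero]
    exact inertia_one P
  | succ k ih =>
    rw [pow_succ]
    exact in_mul ih ha

/-- subtract a multiple of the character of conductor `p ^ 2` -/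
theorem adjust (hp2 : p ≠ 2) : ∃ (ψ : GF ℚ →* Multiplicative (ZMod p)) (γ : GF ℚ),
    (∀ q : ℕ, q.Prime → q ≠ p → ∀ s : ℕ, q = 1 + p * s → ∀ P : Ideal (OO ℚ), P.IsMaximal →
      (q : OO ℚ) ∈ P → ∀ σ : GF ℚ, FrobAt q P σ → ψ σ = Multiplicative.ofAdd (s : ZMod p)) ∧
    (∀ P : Ideal (OO ℚ), P.IsMaximal → (p : OO ℚ) ∉ P → ∀ τ : GF ℚ, InInertia P τ → ψ τ = 1) ∧
    ∀ F : GF ℚ →* Multiplicative (ZMod p), IsOpen (F.ker : Set (GF ℚ)) →
      ∃ F' : GF ℚ →* Multiplicative (ZMod p), IsOpen (F'.ker : Set (GF ℚ)) ∧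
        (∀ g, Multiplicative.toAdd (F' g) = Multiplicative.toAdd (F g) -
          Multiplicative.toAdd (ψ g) * Multiplicative.toAdd (F γ)) ∧
        ∀ P : Ideal (OO ℚ), P.IsMaximal → (p : OO ℚ) ∈ P → ∀ τ : GF ℚ, InInertia P τ →
          F' τ = 1 := by
  have hGEN : S_GEN := Pool.Agent.W215.FM.main
  have hFROB : S_FROB := Pool.Agent.W571.FM.main
  have : NeZero p := ⟨hp.out.ne_zero⟩
  have e1 : ∀ l : ℕ, ∃ P : Ideal (OO ℚ), l.Prime → P.IsMaximal ∧ (l : OO ℚ) ∈ P := by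
    intro l
    by_cases hl : l.Prime
    · obtain ⟨P, hP, hlP, -⟩ := (hFROB l hl).1
      exact ⟨P, fun _ => ⟨hP, hlP⟩⟩
    · exact ⟨⊥, fun h => absurd h hl⟩
  choose P hP using e1
  obtain ⟨hP0, hpP0⟩ := hP p hp.out
  obtain ⟨ψp, w, hw, hψo, hψur, hψne, hψfr, hψker⟩ := Pool.Agent.TH831.OT.exists_psi p
  obtain ⟨γ, hγ, hγ1⟩ : ∃ γ : GF ℚ, InInertia (P p) γ ∧ ψp γ = Multiplicative.ofAdd 1 := by
    have h1 : ∃ γ : GF ℚ, InInertia (P p) γ ∧ ψp γ ≠ 1 := by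
      by_contra hcon
      push Not at hcon
      obtain ⟨g, hg⟩ := hψne
      apply hg
      refine trivial_of_trivial hGEN hFROB ψp hψo P hP (fun l hl τ hτ => ?_) g
      by_cases hlp : l = p
      · rw [hlp] at hτ
        exact hcon τ hτ
      · exact hψur (P l) (hP l hl).1
          (fun h => hlp (char_unique (hP l hl).1 hl hp.out (hP l hl).2 h)) τ hτ
    obtain ⟨τ, hτ, h⟩ := h1
    set c := Multiplicative.toAdd (ψp τ) with hc
    have hc0 : c ≠ 0 := by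
      intro h0
      apply h
      apply Multiplicative.toAdd.injective
      rw [← hc, h0, toAdd_one]
    refine ⟨τ ^ (c⁻¹).val, in_pow hτ _, ?_⟩
    apply Multiplicative.toAdd.injective
    rw [map_pow, toAdd_pow, ← hc, nsmul_eq_mul, ZMod.natCast_zmod_val, toAdd_ofAdd,
      inv_mul_cancel₀ hc0]
  refine ⟨ψp, γ, hψfr, hψur, fun F hF => ?_⟩
  set c := Multiplicative.toAdd (F γ) with hc
  let F' : GF ℚ →* Multiplicative (ZMod p) :=
    { toFun := fun g => Multiplicative.ofAdd (Multiplicative.toAdd (F g) -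
        Multiplicative.toAdd (ψp g) * c)
      map_one' := by simp
      map_mul' := fun a b => by
        rw [← ofAdd_add]
        congr 1
        rw [map_mul F, map_mul ψp, toAdd_mul, toAdd_mul]
        ring }
  have hF' : ∀ g, F' g = Multiplicative.ofAdd (Multiplicative.toAdd (F g) -
        Multiplicative.toAdd (ψp g) * c) := fun g => rfl
  have hF'1 : ∀ g, F g = 1 → ψp g = 1 → F' g = 1 := by
    intro g h1 h2
    rw [hF', h1, h2, toAdd_one, zero_mul, sub_zero, ofAdd_zero]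
  refine ⟨F', ?_, fun g => rfl, fun Q hQ hpQ τ hτ => ?_⟩
  · have h1 : IsOpen ((F.ker ⊓ ψp.ker : Subgroup (GF ℚ)) : Set (GF ℚ)) := by
      rw [Subgroup.coe_inf]
      exact hF.inter hψo
    refine Subgroup.isOpen_mono ?_ h1
    rintro g ⟨h2, h3⟩
    exact hF'1 g h2 h3
  · refine inertia_transport F' (fun e => e = 1) hP0 hQ
      ((cm_eq hp.out hP0 hpP0).trans (cm_eq hp.out hQ hpQ).symm) (fun t ht => ?_) τ hτ
    set n := (-Multiplicative.toAdd (ψp t)).val with hn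
    have h1 : InInertia (P p) (γ ^ n * t) := in_mul (in_pow hγ n) ht
    have h2 : ψp (γ ^ n * t) = 1 := by
      apply Multiplicative.toAdd.injective
      rw [map_mul, map_pow, hγ1, toAdd_mul, toAdd_pow, toAdd_ofAdd, toAdd_one, nsmul_eq_mul,
        mul_one, hn, ZMod.natCast_zmod_val]
      ring
    have h3 := hψker _ h2
    have h4 := Pool.Agent.TH831.OT.kw hP0 hpP0 hp2 hw F hF (in_pow h1 (p - 1)) h3
    have h5 := congrArg Multiplicative.toAdd h4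
    rw [map_pow, toAdd_pow, toAdd_one, nsmul_eq_mul, map_mul, map_pow, toAdd_mul, toAdd_pow,
      nsmul_eq_mul, hn, ZMod.natCast_zmod_val, ← hc] at h5
    have h6 : ((p - 1 : ℕ) : ZMod p) ≠ 0 := by
      rw [Ne, ZMod.natCast_eq_zero_iff]
      intro h
      have := hp.out.two_le
      have := Nat.le_of_dvd (by omega) h
      omega
    have h7 := (mul_eq_zero.1 h5).resolve_left h6
    rw [hF']
    have h8 : Multiplicative.toAdd (F t) - Multiplicative.toAdd (ψp t) * c = 0 := by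
      linear_combination h7
    rw [h8, ofAdd_zero]

/-- there is only one extension of `ℚ` with group `ℤ/p` unramified outside `p` -/
theorem one_ext (hp2 : p ≠ 2) (E : Set (HeightOneSpectrum (𝓞 ℚ)))
    (hE : ∀ v ∈ E, (p : 𝓞 ℚ) ∈ v.asIdeal) (χ χ' : GF ℚ →* Multiplicative (ZMod p))
    (h : UO p E χ) (h' : UO p E χ') (hne : ∃ h, χ h ≠ 1) (g : GF ℚ) (hg : χ g = 1) :
    χ' g = 1 := by
  obtain ⟨ψ, γ, -, hψ, hF⟩ := adjust hp2
  have key : ∀ F : GF ℚ →* Multiplicative (ZMod p), UO p E F → ∀ g,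
      Multiplicative.toAdd (F g) = Multiplicative.toAdd (ψ g) * Multiplicative.toAdd (F γ) := by
    intro F hFE g
    obtain ⟨F', h1, h2, h3⟩ := hF F hFE.open_ker
    have h4 : F' g = 1 := by
      refine (Pool.Agent.W215.FM.main : S_GEN) _ F' h1 (fun P hP τ hτ => ?_) g
      by_cases hpP : (p : OO ℚ) ∈ P
      · exact h3 P hP hpP τ hτ
      · have h5 : F τ = 1 := hFE.inertia P hP (fun v hv hPv => hpP (by
          apply natCast_mem_cm.1
          rw [hPv]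
          exact hE v hv)) τ hτ
        apply Multiplicative.toAdd.injective
        rw [h2, h5, hψ P hP hpP τ hτ, toAdd_one, zero_mul, sub_zero]
    have h5 := h2 g
    rw [h4, toAdd_one] at h5
    exact (sub_eq_zero.1 h5.symm)
  obtain ⟨x, hx⟩ := hne
  have h1 : Multiplicative.toAdd (χ γ) ≠ 0 := by
    intro h0
    apply hx
    apply Multiplicative.toAdd.injective
    rw [key χ h, h0, mul_zero, toAdd_one]
  have h2 := key χ h g
  rw [hg, toAdd_one] at h2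
  have h3 := (mul_eq_zero.1 h2.symm).resolve_right h1
  apply Multiplicative.toAdd.injective
  rw [key χ' h', h3, zero_mul, toAdd_one]

/-- primes which are congruent to `1` modulo `p ^ 2` and `p`-th powers modulo all primes in `S`
split completely in the `ℤ/p`-extensions unramified outside `S` and `p` -/
theorem split (hp2 : p ≠ 2) {D : Set (HeightOneSpectrum (𝓞 ℚ))} (S : Finset ℕ)
    (hS : ∀ l ∈ S, l.Prime ∧ l ≠ p)
    (hD : ∀ v ∈ D, (p : 𝓞 ℚ) ∈ v.asIdeal ∨ ∃ l ∈ S, (l : 𝓞 ℚ) ∈ v.asIdeal)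
    {χ : GF ℚ →* Multiplicative (ZMod p)} (h : UO p D χ) {q : ℕ} (hq : q.Prime) (hqp : q ≠ p)
    (hq1 : p ^ 2 ∣ q - 1)
    (hqS : ∀ l ∈ S, q ≠ l ∧ (p ∣ l - 1 → (q : ZMod l) ^ ((l - 1) / p) = 1))
    {P : Ideal (OO ℚ)} (hP : P.IsMaximal) (hqP : (q : OO ℚ) ∈ P) {σ : GF ℚ}
    (hσ : FrobAt q P σ) : χ σ = 1 := by
  classical
  have hGEN : S_GEN := Pool.Agent.W215.FM.main
  have hTAME : S_TAME := Pool.Agent.W327.FM.main Pool.Agent.W258.FM.main
  have hFROB : S_FROB := Pool.Agent.W571.FM.main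
  have hCYC : S_CYCLO := Pool.Agent.W134.FM.main
  obtain ⟨ψ, γ, hψfr, hψur, hF⟩ := adjust hp2
  obtain ⟨F', hF'o, hF', hF'p⟩ := hF χ h.open_ker
  have e1 : ∀ l : ℕ, ∃ (Q : Ideal (OO ℚ)) (s : GF ℚ), l.Prime → Q.IsMaximal ∧ (l : OO ℚ) ∈ Q ∧
      FrobAt l Q s := by
    intro l
    by_cases hl : l.Prime
    · obtain ⟨Q, hQ, hlQ, s, hs⟩ := (hFROB l hl).1
      exact ⟨Q, s, fun _ => ⟨hQ, hlQ, hs⟩⟩
    · exact ⟨⊥, 1, fun h => absurd h hl⟩
  choose Q s hQ using e1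
  have hnotmem : ∀ l q : ℕ, l.Prime → q.Prime → q ≠ l → (l : OO ℚ) ∉ Q q := fun l q hl hq hne h =>
    hne (char_unique (hQ q hq).1 hq hl (hQ q hq).2.1 h)
  have e3 : ∀ l : ℕ, ∃ ψ : GF ℚ →* Multiplicative (ZMod p), l ∈ S → p ∣ l - 1 →
      IsOpen (ψ.ker : Set (GF ℚ)) ∧
      (∀ P : Ideal (OO ℚ), P.IsMaximal → (l : OO ℚ) ∉ P → ∀ τ : GF ℚ, InInertia P τ → ψ τ = 1) ∧
      (∃ g, ψ g ≠ 1) ∧
      ∀ q : ℕ, q.Prime → q ≠ l → ∀ P : Ideal (OO ℚ), P.IsMaximal → (q : OO ℚ) ∈ P →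
        ∀ σ : GF ℚ, FrobAt q P σ → (ψ σ = 1 ↔ (q : ZMod l) ^ ((l - 1) / p) = 1) := by
    intro l
    by_cases hl : l ∈ S ∧ p ∣ l - 1
    · obtain ⟨ψ, hψ⟩ := hCYC p l hp.out (hS l hl.1).1 hl.2
      exact ⟨ψ, fun _ _ => hψ⟩
    · exact ⟨1, fun h1 h2 => absurd ⟨h1, h2⟩ hl⟩
  choose Ψ hΨ using e3
  have e4 : ∀ l : ℕ, ∃ τ : GF ℚ, l ∈ S → p ∣ l - 1 → InInertia (Q l) τ ∧ Ψ l τ ≠ 1 := by
    intro l
    by_cases hl : l ∈ S ∧ p ∣ l - 1
    · have hlp := (hS l hl.1).1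
      obtain ⟨h1, h2, ⟨g, hg⟩, -⟩ := hΨ l hl.1 hl.2
      have h3 : ∃ τ : GF ℚ, InInertia (Q l) τ ∧ Ψ l τ ≠ 1 := by
        by_contra hcon
        push Not at hcon
        apply hg
        refine trivial_of_trivial hGEN hFROB (Ψ l) h1 Q
          (fun q hq => ⟨(hQ q hq).1, (hQ q hq).2.1⟩) (fun q hq τ hτ => ?_) g
        by_cases hql : q = l
        · rw [hql] at hτ
          exact hcon τ hτ
        · exact h2 (Q q) (hQ q hq).1 (hnotmem l q hlp hq hql) τ hτ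
      obtain ⟨τ, h4, h5⟩ := h3
      exact ⟨τ, fun _ _ => ⟨h4, h5⟩⟩
    · exact ⟨1, fun h1 h2 => absurd ⟨h1, h2⟩ hl⟩
  choose τ hτ using e4
  have hur : ∀ l : ℕ, l.Prime → l ∉ S → ∀ t : GF ℚ, InInertia (Q l) t → F' t = 1 := by
    intro l hl hlS t ht
    by_cases hlp : l = p
    · refine hF'p (Q l) (hQ l hl).1 ?_ t ht
      rw [← hlp]
      exact (hQ l hl).2.1
    · have h1 : χ t = 1 := by
        refine h.inertia (Q l) (hQ l hl).1 (fun v hv hQv => ?_) t ht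
        rcases hD v hv with h2 | ⟨l', hl', h2⟩
        · rw [← hQv, natCast_mem_cm] at h2
          exact hnotmem p l hp.out hl hlp h2
        · rw [← hQv, natCast_mem_cm] at h2
          exact hnotmem l' l (hS l' hl').1 hl (fun h => hlS (h ▸ hl')) h2
      apply Multiplicative.toAdd.injective
      rw [hF', h1, hψur (Q l) (hQ l hl).1 (hnotmem p l hp.out hl hlp) t ht, toAdd_one, zero_mul,
        sub_zero]
  have h1 := span_hom hGEN hTAME hFROB F' hF'o S hS Q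
    (fun l hl => ⟨(hQ l hl).1, (hQ l hl).2.1⟩) s (fun l hl => (hQ l hl).2.2) hur Ψ
    (fun l hl hpl => (hΨ l hl hpl).1)
    (fun l hl hpl q hq hql t ht => (hΨ l hl hpl).2.1 (Q q) (hQ q hq).1
      (hnotmem l q (hS l hl).1 hq hql) t ht) τ hτ σ
  have h2 : ∑ l ∈ S.filter (fun l => p ∣ l - 1),
      (Multiplicative.toAdd (Ψ l σ) / Multiplicative.toAdd (Ψ l (τ l))) •
      Multiplicative.toAdd (F' (τ l)) = 0 := by
    refine Finset.sum_eq_zero fun l hl => ?_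
    obtain ⟨hl1, hl2⟩ := Finset.mem_filter.1 hl
    have h3 := ((hΨ l hl1 hl2).2.2.2 q hq (hqS l hl1).1 P hP hqP σ hσ).2 ((hqS l hl1).2 hl2)
    rw [h3, toAdd_one, zero_div, zero_smul]
  rw [h2, hF'] at h1
  obtain ⟨d, hd⟩ := hq1
  have h3 : q = 1 + p * (p * d) := by
    have h4 := hq.one_lt
    have h5 : p ^ 2 * d = p * (p * d) := by ring
    omega
  have h4 := hψfr q hq hqp (p * d) h3 P hP hqP σ hσ
  rw [h4, toAdd_ofAdd, Nat.cast_mul, CharP.cast_eq_zero, zero_mul, zero_mul, sub_zero] at h1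
  exact Multiplicative.toAdd.injective h1

/-- the place of `ℚ` of the prime `l` -/
noncomputable def vp (l : ℕ) : HeightOneSpectrum (𝓞 ℚ) :=
  open Classical in if h : l.Prime then ⟨pl l, pl_prime h, pl_ne h⟩ else
    ⟨pl 2, pl_prime Nat.prime_two, pl_ne Nat.prime_two⟩

theorem vp_ideal {l : ℕ} (h : l.Prime) : (vp l).asIdeal = pl l := by
  rw [vp, dif_pos h]

theorem nm_vp {l : ℕ} (h : l.Prime) : nm (vp l) = l := by
  rw [nm, vp_ideal h, absNorm_pl]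

theorem mem_vp {l : ℕ} (h : l.Prime) : (l : 𝓞 ℚ) ∈ (vp l).asIdeal := by
  rw [vp_ideal h]
  exact Ideal.mem_span_singleton_self _

theorem vp_inj {l q : ℕ} (hl : l.Prime) (hq : q.Prime) (h : vp l = vp q) : l = q := by
  rw [← nm_vp hl, ← nm_vp hq, h]

theorem exists_vp {P : Ideal (OO ℚ)} (hP : P.IsMaximal) {v : HeightOneSpectrum (𝓞 ℚ)}
    (h : cm P = v.asIdeal) : ∃ l : ℕ, l.Prime ∧ (l : OO ℚ) ∈ P ∧ v = vp l := by
  obtain ⟨l, hl, hlP⟩ := exists_char P hP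
  refine ⟨l, hl, hlP, HeightOneSpectrum.ext ?_⟩
  rw [← h, vp_ideal hl, cm_eq hl hP hlP]

/-- the rows over `ℚ` -/
theorem row_rat (hp2 : p ≠ 2) {m : ℕ} (hm : 2 ≤ m) (S : Finset ℕ)
    (hS : ∀ l ∈ S, l.Prime ∧ p ^ m ∣ l - 1)
    (hJ : ∀ J ⊆ S, 3 ≤ J.card → ∃ l ∈ J, ∃ j ∈ J, ∀ i ∈ J, i ≠ l → i ≠ j →
      ∃ x : ZMod i, x ^ p = (l : ZMod i)) (E : Set (HeightOneSpectrum (𝓞 ℚ)))
    (hE : ∀ v ∈ E, (p : 𝓞 ℚ) ∈ v.asIdeal) (J' : Finset (HeightOneSpectrum (𝓞 ℚ)))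
    (hJ' : ∀ v ∈ J', ∃ l ∈ S, v = vp l) (hne : J'.Nonempty) : Row p E J' := by
  classical
  set J := S.filter fun l => vp l ∈ J' with hJdef
  have hJS : J ⊆ S := Finset.filter_subset _ _
  have hmem : ∀ l ∈ J, l.Prime ∧ p ^ m ∣ l - 1 ∧ vp l ∈ J' := fun l hl =>
    ⟨(hS l (hJS hl)).1, (hS l (hJS hl)).2, (Finset.mem_filter.1 hl).2⟩
  have hJne : J.Nonempty := by
    obtain ⟨v, hv⟩ := hne
    obtain ⟨l, hl, rfl⟩ := hJ' v hv
    exact ⟨l, Finset.mem_filter.2 ⟨hl, hv⟩⟩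
  have key : ∃ l ∈ J, ∃ j ∈ J, ∀ i ∈ J, i ≠ l → i ≠ j → ∃ x : ZMod i, x ^ p = (l : ZMod i) := by
    by_cases h3 : 3 ≤ J.card
    · exact hJ J hJS h3
    · obtain ⟨l, hl⟩ := hJne
      by_cases h4 : ∃ j ∈ J, j ≠ l
      · obtain ⟨j, hj, hjl⟩ := h4
        refine ⟨l, hl, j, hj, fun i hi hil hij => absurd ?_ h3⟩
        have h5 : ({l, j, i} : Finset ℕ) ⊆ J := by
          intro x hx
          rw [Finset.mem_insert, Finset.mem_insert, Finset.mem_singleton] at hx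
          rcases hx with rfl | rfl | rfl
          · exact hl
          · exact hj
          · exact hi
        have h6 : ({l, j, i} : Finset ℕ).card = 3 :=
          Finset.card_eq_three.2 ⟨l, j, i, Ne.symm hjl, Ne.symm hil, Ne.symm hij, rfl⟩
        rw [← h6]
        exact Finset.card_le_card h5
      · push Not at h4
        exact ⟨l, hl, l, hl, fun i hi hil _ => absurd (h4 i hi) hil⟩
  obtain ⟨l, hl, j, hj, hlj⟩ := key
  have hnep : ∀ l ∈ S, l ≠ p := by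
    intro l hl h
    have h1 : p ∣ l - 1 := (dvd_pow_self p (by omega : m ≠ 0)).trans (hS l hl).2
    rw [h] at h1
    have h2 := hp.out.two_le
    have := Nat.le_of_dvd (by omega) h1
    omega
  refine ⟨vp l, (hmem l hl).2.2, vp j, Or.inl (hmem j hj).2.2, fun χ hχ σ hσ => ?_⟩
  obtain ⟨P, hP, hPl, hσ⟩ := hσ
  rw [nm_vp (hmem l hl).1] at hσ
  have hlP : (l : OO ℚ) ∈ P := by
    apply natCast_mem_cm.1
    rw [hPl]
    exact mem_vp (hmem l hl).1
  refine split hp2 ((J.erase l).erase j) (fun i hi => ?_) (fun v hv => ?_) hχ (hmem l hl).1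
    (hnep l (hJS hl)) ((pow_dvd_pow p hm).trans (hmem l hl).2.1) (fun i hi => ?_) hP hlP hσ
  · have h1 := Finset.mem_of_mem_erase (Finset.mem_of_mem_erase hi)
    exact ⟨(hmem i h1).1, hnep i (hJS h1)⟩
  · obtain ⟨hv1, hv2, hv3⟩ := hv
    rcases hv1 with hv1 | hv1
    · right
      obtain ⟨i, hi, rfl⟩ := hJ' v hv1
      refine ⟨i, Finset.mem_erase.2 ⟨fun h => hv3 (by rw [h]), Finset.mem_erase.2
        ⟨fun h => hv2 (by rw [h]), Finset.mem_filter.2 ⟨hi, hv1⟩⟩⟩, mem_vp (hS i hi).1⟩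
    · exact Or.inl (hE v hv1)
  · have h1 := (Finset.mem_erase.1 hi).1
    have h2 := (Finset.mem_erase.1 (Finset.mem_of_mem_erase hi)).1
    have h3 := Finset.mem_of_mem_erase (Finset.mem_of_mem_erase hi)
    refine ⟨Ne.symm h2, fun hpi => ?_⟩
    obtain ⟨x, hx⟩ := hlj i h3 h2 h1
    have hi' := (hmem i h3).1
    have : Fact i.Prime := ⟨hi'⟩
    rw [← hx, ← pow_mul, Nat.mul_div_cancel' hpi]
    apply ZMod.pow_card_sub_one_eq_one
    rintro rfl
    rw [zero_pow hp.out.ne_zero] at hx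
    have h4 := (ZMod.natCast_eq_zero_iff l i).1 hx.symm
    exact h2 ((Nat.prime_dvd_prime_iff_eq hi' (hmem l hl).1).1 h4)

end

end Pool.Agent.V11248.FM
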