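import Pool.Agent.V11248.FM.Rat
import Pool.Agent.W64.TG.Cyc

/-!
# Homomorphisms of the absolute Galois group of `ℚ` ramified at `p` and at primes `1` modulo `p`
-/

set_option autoImplicit false

namespace Pool.Agent.V11248.FM

open NumberField IsDedekindDomain Pool.Agent.W569.FM Pool.Agent.W571.FM

section
variable {p : ℕ} [hp : Fact p.Prime]

/-- normalised characters and inertia elements at the primes in `S` and at `p` -/
theorem exists_chars (hp2 : p ≠ 2) (S : Finset ℕ) (hS : ∀ l ∈ S, l.Prime ∧ l ≠ p ∧ p ∣ l - 1)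
    (χ : ∀ j : ℕ, (ZMod j)ˣ →* Multiplicative (ZMod p)) (hχ : ∀ l ∈ S, ∃ x, χ l x ≠ 1)
    (P : ℕ → Ideal (OO ℚ)) (σ : ℕ → GF ℚ)
    (hP : ∀ l : ℕ, l.Prime → (P l).IsMaximal ∧ (l : OO ℚ) ∈ P l)
    (hσ : ∀ l : ℕ, l.Prime → FrobAt l (P l) (σ l)) :
    ∃ (ψp : GF ℚ →* Multiplicative (ZMod p)) (γ : GF ℚ)
      (ψ : ℕ → (GF ℚ →* Multiplicative (ZMod p))) (τ : ℕ → GF ℚ),
      (∀ q : ℕ, q.Prime → q ≠ p → p ^ 2 ∣ q - 1 → ψp (σ q) = 1) ∧
      (∀ Q : Ideal (OO ℚ), Q.IsMaximal → (p : OO ℚ) ∉ Q → ∀ t : GF ℚ, InInertia Q t →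
        ψp t = 1) ∧
      (∀ l ∈ S, InInertia (P l) (τ l) ∧
        (∀ Q : Ideal (OO ℚ), Q.IsMaximal → (l : OO ℚ) ∉ Q → ∀ t : GF ℚ, InInertia Q t →
          ψ l t = 1) ∧
        ∀ q : ℕ, q.Prime → q ≠ l → ∀ x : (ZMod l)ˣ, (x : ZMod l) = (q : ZMod l) →
          ψ l (σ q) = χ l x) ∧
      ∀ F : GF ℚ →* Multiplicative (ZMod p), IsOpen (F.ker : Set (GF ℚ)) →
        (∀ Q : Ideal (OO ℚ), Q.IsMaximal → (p : OO ℚ) ∉ Q → (∀ l ∈ S, (l : OO ℚ) ∉ Q) →
          ∀ t : GF ℚ, InInertia Q t → F t = 1) → ∀ g, Multiplicative.toAdd (F g) =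
          Multiplicative.toAdd (ψp g) * Multiplicative.toAdd (F γ) +
          ∑ l ∈ S, Multiplicative.toAdd (ψ l g) * Multiplicative.toAdd (F (τ l)) := by
  classical
  have hGEN : S_GEN := Pool.Agent.W215.FM.main
  have hTAME : S_TAME := Pool.Agent.W327.FM.main Pool.Agent.W258.FM.main
  have hFROB : S_FROB := Pool.Agent.W571.FM.main
  have hCYC := Pool.Agent.W64.TG.main
  have : NeZero p := ⟨hp.out.ne_zero⟩
  obtain ⟨ψp, γ, hψfr, hψur, hF⟩ := adjust hp2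
  have hnotmem : ∀ l q : ℕ, l.Prime → q.Prime → q ≠ l → (l : OO ℚ) ∉ P q := fun l q hl hq hne h =>
    hne (char_unique (hP q hq).1 hq hl (hP q hq).2 h)
  have e3 : ∀ l : ℕ, ∃ ψ : GF ℚ →* Multiplicative (ZMod p), l ∈ S →
      IsOpen (ψ.ker : Set (GF ℚ)) ∧
      (∀ P : Ideal (OO ℚ), P.IsMaximal → (l : OO ℚ) ∉ P → ∀ τ : GF ℚ, InInertia P τ → ψ τ = 1) ∧
      (∃ g, ψ g ≠ 1) ∧
      ∀ q : ℕ, q.Prime → q ≠ l → ∀ P : Ideal (OO ℚ), P.IsMaximal → (q : OO ℚ) ∈ P →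
        ∀ σ : GF ℚ, FrobAt q P σ → ∀ x : (ZMod l)ˣ, (x : ZMod l) = (q : ZMod l) → ψ σ = χ l x := by
    intro l
    by_cases hl : l ∈ S
    · obtain ⟨ψ, hψ⟩ := hCYC p l hp.out (hS l hl).1 (χ l) (hχ l hl)
      exact ⟨ψ, fun _ => hψ⟩
    · exact ⟨1, fun h1 => absurd h1 hl⟩
  choose ψ hψ using e3
  have e4 : ∀ l : ℕ, ∃ τ : GF ℚ, l ∈ S → InInertia (P l) τ ∧
      ψ l τ = Multiplicative.ofAdd 1 := by
    intro l
    by_cases hl : l ∈ S
    · have hlp := (hS l hl).1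
      obtain ⟨h1, h2, ⟨g, hg⟩, -⟩ := hψ l hl
      have h3 : ∃ τ : GF ℚ, InInertia (P l) τ ∧ ψ l τ ≠ 1 := by
        by_contra hcon
        push Not at hcon
        apply hg
        refine trivial_of_trivial hGEN hFROB (ψ l) h1 P hP (fun q hq τ hτ => ?_) g
        by_cases hql : q = l
        · rw [hql] at hτ
          exact hcon τ hτ
        · exact h2 (P q) (hP q hq).1 (hnotmem l q hlp hq hql) τ hτ
      obtain ⟨τ, h4, h5⟩ := h3
      set c := Multiplicative.toAdd (ψ l τ) with hc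
      have hc0 : c ≠ 0 := by
        intro h0
        apply h5
        apply Multiplicative.toAdd.injective
        rw [← hc, h0, toAdd_one]
      refine ⟨τ ^ (c⁻¹).val, fun _ => ⟨in_pow h4 _, ?_⟩⟩
      apply Multiplicative.toAdd.injective
      rw [map_pow, toAdd_pow, ← hc, nsmul_eq_mul, ZMod.natCast_zmod_val, toAdd_ofAdd,
        inv_mul_cancel₀ hc0]
    · exact ⟨1, fun h1 => absurd h1 hl⟩
  choose τ hτ using e4
  have hne1 : (Multiplicative.ofAdd (1 : ZMod p)) ≠ 1 := by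
    intro h
    have h1 := congrArg Multiplicative.toAdd h
    rw [toAdd_ofAdd, toAdd_one] at h1
    exact one_ne_zero h1
  refine ⟨ψp, γ, ψ, τ, fun q hq hqp hq1 => ?_, hψur, fun l hl => ⟨(hτ l hl).1, (hψ l hl).2.1,
    fun q hq hql x hx => (hψ l hl).2.2.2 q hq hql (P q) (hP q hq).1 (hP q hq).2 (σ q) (hσ q hq)
      x hx⟩, fun F hFo hFur g => ?_⟩
  · obtain ⟨d, hd⟩ := hq1
    have h3 : q = 1 + p * (p * d) := by
      have h4 := hq.one_lt
      have h5 : p ^ 2 * d = p * (p * d) := by ring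
      omega
    rw [hψfr q hq hqp (p * d) h3 (P q) (hP q hq).1 (hP q hq).2 (σ q) (hσ q hq), Nat.cast_mul,
      CharP.cast_eq_zero, zero_mul, ofAdd_zero]
  · obtain ⟨F', hF'o, hF', hF'p⟩ := hF F hFo
    have hur : ∀ l : ℕ, l.Prime → l ∉ S → ∀ t : GF ℚ, InInertia (P l) t → F' t = 1 := by
      intro l hl hlS t ht
      by_cases hlp : l = p
      · refine hF'p (P l) (hP l hl).1 ?_ t ht
        rw [← hlp]
        exact (hP l hl).2
      · have h1 : (p : OO ℚ) ∉ P l := hnotmem p l hp.out hl hlp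
        have h2 : F t = 1 := hFur (P l) (hP l hl).1 h1 (fun l' hl' =>
          hnotmem l' l (hS l' hl').1 hl fun h => hlS (h ▸ hl')) t ht
        apply Multiplicative.toAdd.injective
        rw [hF', h2, hψur (P l) (hP l hl).1 h1 t ht, toAdd_one, zero_mul, sub_zero]
    have h1 := span_hom hGEN hTAME hFROB F' hF'o S (fun l hl => ⟨(hS l hl).1, (hS l hl).2.1⟩) P hP
      σ hσ hur ψ (fun l hl _ => (hψ l hl).1)
      (fun l hl _ q hq hql t ht => (hψ l hl).2.1 (P q) (hP q hq).1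
        (hnotmem l q (hS l hl).1 hq hql) t ht) τ
      (fun l hl _ => ⟨(hτ l hl).1, by rw [(hτ l hl).2]; exact hne1⟩) g
    rw [Finset.filter_true_of_mem (fun l hl => (hS l hl).2.2)] at h1
    have h2 : ∑ l ∈ S, (Multiplicative.toAdd (ψ l g) / Multiplicative.toAdd (ψ l (τ l))) •
        Multiplicative.toAdd (F' (τ l)) = ∑ l ∈ S, Multiplicative.toAdd (ψ l g) *
          Multiplicative.toAdd (F (τ l)) := by
      refine Finset.sum_congr rfl fun l hl => ?_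
      have hlp := (hS l hl).1
      rw [(hτ l hl).2, toAdd_ofAdd, div_one, smul_eq_mul, hF',
        hψur (P l) (hP l hlp).1 (hnotmem p l hp.out hlp (hS l hl).2.1) _ (hτ l hl).1,
        toAdd_one, zero_mul, sub_zero]
    rw [h2, hF'] at h1
    rw [← h1]
    ring

/-- homomorphisms to vector spaces -/
theorem span_vec {B : Type} [AddCommGroup B] [Module (ZMod p) B] {X : GF ℚ →* Multiplicative B}
    {F : ℕ → Submodule (ZMod p) B} (hF : Fil F)
    (hX : ∀ N, ∀ᶠ g in nhds (1 : GF ℚ), Multiplicative.toAdd (X g) ∈ F N)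
    (S : Finset ℕ) {ψp : GF ℚ →* Multiplicative (ZMod p)} {γ : GF ℚ}
    {ψ : ℕ → (GF ℚ →* Multiplicative (ZMod p))} {τ : ℕ → GF ℚ}
    (hspan : ∀ F : GF ℚ →* Multiplicative (ZMod p), IsOpen (F.ker : Set (GF ℚ)) →
        (∀ Q : Ideal (OO ℚ), Q.IsMaximal → (p : OO ℚ) ∉ Q → (∀ l ∈ S, (l : OO ℚ) ∉ Q) →
          ∀ t : GF ℚ, InInertia Q t → F t = 1) → ∀ g, Multiplicative.toAdd (F g) =
          Multiplicative.toAdd (ψp g) * Multiplicative.toAdd (F γ) +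
          ∑ l ∈ S, Multiplicative.toAdd (ψ l g) * Multiplicative.toAdd (F (τ l)))
    (hur : ∀ Q : Ideal (OO ℚ), Q.IsMaximal → (p : OO ℚ) ∉ Q → (∀ l ∈ S, (l : OO ℚ) ∉ Q) →
          ∀ t : GF ℚ, InInertia Q t → X t = 1) (g : GF ℚ) :
    Multiplicative.toAdd (X g) = Multiplicative.toAdd (ψp g) • Multiplicative.toAdd (X γ) +
      ∑ l ∈ S, Multiplicative.toAdd (ψ l g) • Multiplicative.toAdd (X (τ l)) := by
  rw [← sub_eq_zero]
  have h1 := hF.mem_of_dual (⊥ : Submodule (ZMod p) B) inferInstance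
    (Multiplicative.toAdd (X g) - (Multiplicative.toAdd (ψp g) • Multiplicative.toAdd (X γ) +
      ∑ l ∈ S, Multiplicative.toAdd (ψ l g) • Multiplicative.toAdd (X (τ l))))
    fun φ N _ hφ => by
      have h2 := hspan (cmp X φ) (cmp_open hX hφ) (fun Q hQ hpQ hSQ t ht => by
        rw [cmp_eq_one, hur Q hQ hpQ hSQ t ht, toAdd_one, map_zero]) g
      simp only [cmp_apply, toAdd_ofAdd] at h2
      rw [map_sub, map_add, map_sum, h2, map_smul, smul_eq_mul]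
      simp only [map_smul, smul_eq_mul, sub_self]
  exact (Submodule.mem_bot _).1 h1

end

end Pool.Agent.V11248.FM
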