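import Pool.Agent.V11248.FM.Step

/-!
# Tuples of nilpotent matrices
-/

set_option autoImplicit false

namespace Pool.Agent.V11248.FM

open Matrix IsLocalRing

/-- tuples of nonzero nilpotent matrices satisfying the relations given by the linking numbers -/
structure Tup (p : ℕ) (k : Type) [Field k] [Algebra (ZMod p) k] (n : ℕ) (J : Finset ℕ)
    (lam : ℕ → ℕ → ZMod p) (u : ℕ → ZMod p) (M : ℕ → Matrix (Fin n) (Fin n) k) : Prop where
  ne : ∀ l ∈ J, M l ≠ 0
  nil : ∀ l ∈ J, IsNilpotent (M l)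
  rel : ∀ l ∈ J, (∑ j ∈ J.erase l, lam l j • M j) * M l -
    M l * ∑ j ∈ J.erase l, lam l j • M j = u l • M l

section
variable {p : ℕ} [hp : Fact p.Prime]

/-- reduction modulo the maximal ideal -/
theorem red_tuple {R : Type} [CommRing R] [IsLocalRing R] [IsNoetherianRing R]
    [Algebra (ZMod p) R] {n : ℕ} {J : Finset ℕ} {M : ℕ → Matrix (Fin n) (Fin n) R}
    {lam : ℕ → ℕ → ZMod p} {u : ℕ → ZMod p} (hu : ∀ l ∈ J, u l ≠ 0) (hne : ∀ l ∈ J, M l ≠ 0)
    (hJ : J.Nonempty)
    (hrel : ∀ l ∈ J, (∑ j ∈ J, lam l j • M j) * M l - M l * ∑ j ∈ J, lam l j • M j =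
      u l • M l) : ∃ l ∈ J, (residue R).mapMatrix (M l) ≠ 0 := by
  by_contra hcon
  push Not at hcon
  have h0 : ∀ l ∈ J, M l ∈ filM p n (maximalIdeal R) := by
    intro l hl i j
    have h1 := congrFun (congrFun (hcon l hl) i) j
    rw [RingHom.mapMatrix_apply, Matrix.map_apply, Matrix.zero_apply, residue_eq_zero_iff] at h1
    exact h1
  have h1 : ∀ r : ℕ, ∀ l ∈ J, M l ∈ filM p n (maximalIdeal R ^ r) := by
    intro r
    induction r with
    | zero =>
      intro l _ i j
      rw [pow_zero, Ideal.one_eq_top]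
      exact Submodule.mem_top
    | succ r ih =>
      intro l hl
      set W := ∑ j ∈ J, lam l j • M j with hW
      have h2 : W ∈ filM p n (maximalIdeal R) :=
        Submodule.sum_mem _ fun j hj => Submodule.smul_mem _ _ (h0 j hj)
      have h3 : W * M l ∈ filM p n (maximalIdeal R ^ (r + 1)) := by
        rw [pow_succ']
        exact MJ.mul h2 (ih l hl)
      have h4 : M l * W ∈ filM p n (maximalIdeal R ^ (r + 1)) := by
        rw [pow_succ]
        exact MJ.mul (ih l hl) h2
      have h5 : M l = (u l)⁻¹ • (W * M l - M l * W) := by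
        rw [hrel l hl, smul_smul, inv_mul_cancel₀ (hu l hl), one_smul]
      rw [h5]
      exact Submodule.smul_mem _ _ (Submodule.sub_mem _ h3 h4)
  obtain ⟨l, hl⟩ := hJ
  exact hne l hl (fil_max.sep _ fun N => h1 N l hl)

theorem exists_tup {R : Type} [CommRing R] [IsLocalRing R] [IsNoetherianRing R]
    [Algebra (ZMod p) R] {n : ℕ} {J : Finset ℕ} {M : ℕ → Matrix (Fin n) (Fin n) R}
    {lam : ℕ → ℕ → ZMod p} {u : ℕ → ZMod p} (hu : ∀ l ∈ J, u l ≠ 0) (hne : ∀ l ∈ J, M l ≠ 0)
    (hnil : ∀ l ∈ J, IsNilpotent (M l)) (hJ : J.Nonempty)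
    (hrel : ∀ l ∈ J, (∑ j ∈ J, lam l j • M j) * M l - M l * ∑ j ∈ J, lam l j • M j =
      u l • M l) : ∃ J' ⊆ J, J'.Nonempty ∧
        Tup p (ResidueField R) n J' lam u (fun l => (residue R).mapMatrix (M l)) := by
  classical
  obtain ⟨l₀, hl₀, hne₀⟩ := red_tuple hu hne hJ hrel
  set φ := (residue R).mapMatrix (m := Fin n) with hφ
  have hsm : ∀ (c : ZMod p) (x : Matrix (Fin n) (Fin n) R), φ (c • x) = c • φ x := fun c x =>
    ZMod.map_smul φ c x
  refine ⟨J.filter (fun l => φ (M l) ≠ 0), Finset.filter_subset _ _,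
    ⟨l₀, Finset.mem_filter.2 ⟨hl₀, hne₀⟩⟩, fun l hl => (Finset.mem_filter.1 hl).2,
    fun l hl => (hnil l (Finset.mem_filter.1 hl).1).map φ, fun l hl => ?_⟩
  have hl' := (Finset.mem_filter.1 hl).1
  have h1 := congrArg φ (hrel l hl')
  rw [map_sub, map_mul, map_mul, hsm, map_sum] at h1
  simp only [hsm] at h1
  have h2 : ∑ j ∈ J, lam l j • φ (M j) = ∑ j ∈ J.filter (fun l => φ (M l) ≠ 0),
      lam l j • φ (M j) := by
    symm
    apply Finset.sum_subset (Finset.filter_subset _ _)
    intro j hj hj'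
    have h3 : φ (M j) = 0 := by
      by_contra h
      exact hj' (Finset.mem_filter.2 ⟨hj, h⟩)
    rw [h3, smul_zero]
  rw [h2, ← Finset.add_sum_erase _ _ hl, add_mul, mul_add, smul_mul_assoc, mul_smul_comm] at h1
  rw [← h1]
  abel

/-- sparse rows -/
theorem no_tup_sparse {k : Type} [Field k] [Algebra (ZMod p) k] {n : ℕ} {J : Finset ℕ}
    {lam : ℕ → ℕ → ZMod p} {u : ℕ → ZMod p} {M : ℕ → Matrix (Fin n) (Fin n) k}
    (h : Tup p k n J lam u M) (hu : ∀ l ∈ J, u l ≠ 0)
    (hJ : ∃ l ∈ J, ∃ j ∈ J, ∀ i ∈ J, i ≠ l → i ≠ j → lam l i = 0) : False := by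
  classical
  obtain ⟨l, hl, j, hj, hlj⟩ := hJ
  have h1 := h.rel l hl
  by_cases hjl : j = l
  · have h2 : ∑ i ∈ J.erase l, lam l i • M i = 0 := by
      refine Finset.sum_eq_zero fun i hi => ?_
      rw [Finset.mem_erase] at hi
      rw [hlj i hi.2 hi.1 (by rw [hjl]; exact hi.1), zero_smul]
    rw [h2, zero_mul, mul_zero, sub_zero] at h1
    exact h.ne l hl ((smul_eq_zero.1 h1.symm).resolve_left (hu l hl))
  · have h2 : ∑ i ∈ J.erase l, lam l i • M i = lam l j • M j := by
      refine Finset.sum_eq_single j (fun i hi hij => ?_) (fun hj' => ?_)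
      · rw [Finset.mem_erase] at hi
        rw [hlj i hi.2 hi.1 hij, zero_smul]
      · exact absurd (Finset.mem_erase.2 ⟨hjl, hj⟩) hj'
    rw [h2, smul_mul_assoc, mul_smul_comm, ← smul_sub] at h1
    by_cases hb : lam l j = 0
    · rw [hb, zero_smul] at h1
      exact h.ne l hl ((smul_eq_zero.1 h1.symm).resolve_left (hu l hl))
    · have h4 : M j * M l - M l * M j = (u l / lam l j) • M l := by
        rw [div_eq_inv_mul, mul_smul, ← h1, smul_smul, inv_mul_cancel₀ hb, one_smul]
      exact h.ne l hl (ad_eigenB (h.nil j hj) (div_ne_zero (hu l hl) hb) h4)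

/-- nilpotent two by two matrices -/
theorem nil_two {k : Type} [Field k] {N : Matrix (Fin 2) (Fin 2) k} (h : IsNilpotent N) :
    N 1 1 = - N 0 0 ∧ N 0 0 * N 0 0 + N 0 1 * N 1 0 = 0 := by
  have h1 : N.trace = 0 := (Matrix.isNilpotent_trace_of_isNilpotent h).eq_zero
  have h2 : N.det = 0 := by
    obtain ⟨k, hk⟩ := h
    have h3 := congrArg Matrix.det hk
    rw [Matrix.det_pow] at h3
    rw [Matrix.det_zero] at h3
    have hk0 : k ≠ 0 := by
      rintro rfl
      rw [pow_zero] at h3
      exact one_ne_zero h3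
    exact (pow_eq_zero_iff hk0).1 h3
  rw [Matrix.trace_fin_two] at h1
  rw [Matrix.det_fin_two] at h2
  have h3 : N 1 1 = - N 0 0 := by linear_combination h1
  refine ⟨h3, ?_⟩
  rw [h3] at h2
  linear_combination -h2

/-- nilpotent two by two matrices whose product has trace zero commute -/
theorem comm_two {k : Type} [Field k] {M N : Matrix (Fin 2) (Fin 2) k} (hM : IsNilpotent M)
    (hN : IsNilpotent N) (h : (M * N).trace = 0) : M * N = N * M := by
  obtain ⟨h1, h2⟩ := nil_two hM
  obtain ⟨h3, h4⟩ := nil_two hN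
  rw [Matrix.trace_fin_two, Matrix.mul_apply, Matrix.mul_apply, Fin.sum_univ_two,
    Fin.sum_univ_two, h1, h3] at h
  set a := M 0 0
  set b := M 0 1
  set c := M 1 0
  set a' := N 0 0
  set b' := N 0 1
  set c' := N 1 0
  have e1 : (b * c' - c * b') ^ 2 = 0 := by
    linear_combination (b * c' + c * b' - 2 * a * a') * h - 4 * c' * b' * h2 + 4 * a ^ 2 * h4
  have e2 : (a * b' - b * a') ^ 2 = 0 := by
    linear_combination b' ^ 2 * h2 + b ^ 2 * h4 - b * b' * h
  have e3 : (c * a' - a * c') ^ 2 = 0 := by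
    linear_combination c ^ 2 * h4 + c' ^ 2 * h2 - c * c' * h
  have f1 := pow_eq_zero_iff (two_ne_zero) |>.1 e1
  have f2 := pow_eq_zero_iff (two_ne_zero) |>.1 e2
  have f3 := pow_eq_zero_iff (two_ne_zero) |>.1 e3
  ext i j
  fin_cases i <;> fin_cases j
  · show (M * N) 0 0 = (N * M) 0 0
    rw [Matrix.mul_apply, Matrix.mul_apply, Fin.sum_univ_two, Fin.sum_univ_two]
    linear_combination f1
  · show (M * N) 0 1 = (N * M) 0 1
    rw [Matrix.mul_apply, Matrix.mul_apply, Fin.sum_univ_two, Fin.sum_univ_two, h1, h3]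
    linear_combination 2 * f2
  · show (M * N) 1 0 = (N * M) 1 0
    rw [Matrix.mul_apply, Matrix.mul_apply, Fin.sum_univ_two, Fin.sum_univ_two, h1, h3]
    linear_combination 2 * f3
  · show (M * N) 1 1 = (N * M) 1 1
    rw [Matrix.mul_apply, Matrix.mul_apply, Fin.sum_univ_two, Fin.sum_univ_two]
    linear_combination -f1

omit hp in
/-- traces of the relations -/
theorem tr_rel {k : Type} [Field k] {n : ℕ} {A B C : Matrix (Fin n) (Fin n) k} {c₁ c₂ c₀ : k}
    (h : (c₁ • B + c₂ • C) * A - A * (c₁ • B + c₂ • C) = c₀ • A) :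
    c₂ * ((A * B * C).trace - (A * C * B).trace) = c₀ * (A * B).trace ∧
    c₁ * ((A * C * B).trace - (A * B * C).trace) = c₀ * (A * C).trace := by
  have h1 := congrArg (fun X => (X * B).trace) h
  have h2 := congrArg (fun X => (X * C).trace) h
  simp only [sub_mul, add_mul, mul_add, smul_mul_assoc, mul_smul_comm, trace_sub, trace_add,
    trace_smul, smul_eq_mul] at h1 h2
  rw [← trace_mul_cycle A B B, ← trace_mul_cycle A B C] at h1
  rw [← trace_mul_cycle A C B, ← trace_mul_cycle A C C] at h2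
  constructor
  · linear_combination h1
  · linear_combination h2

/-- three nilpotent two by two matrices -/
theorem no_tup_three {k : Type} [Field k] [Algebra (ZMod p) k] {a b c : ℕ} (hab : a ≠ b)
    (hac : a ≠ c) (hbc : b ≠ c) {lam : ℕ → ℕ → ZMod p} {u : ℕ → ZMod p}
    {M : ℕ → Matrix (Fin 2) (Fin 2) k} (h : Tup p k 2 {a, b, c} lam u M)
    (hu : ∀ l ∈ ({a, b, c} : Finset ℕ), u l ≠ 0)
    (hJ : ¬ (lam a c * u b = - (lam b c * u a) ∧ lam a b * u c = - (lam c b * u a) ∧
      lam b a * u c = - (lam c a * u b))) : False := by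
  classical
  have ma : a ∈ ({a, b, c} : Finset ℕ) := by simp
  have mb : b ∈ ({a, b, c} : Finset ℕ) := by simp
  have mc : c ∈ ({a, b, c} : Finset ℕ) := by simp
  have ea : ({a, b, c} : Finset ℕ).erase a = {b, c} := by
    ext x
    simp only [Finset.mem_erase, Finset.mem_insert, Finset.mem_singleton]
    constructor
    · rintro ⟨h1, rfl | h2⟩
      · exact absurd rfl h1
      · exact h2
    · rintro (rfl | rfl)
      · exact ⟨Ne.symm hab, Or.inr (Or.inl rfl)⟩
      · exact ⟨Ne.symm hac, Or.inr (Or.inr rfl)⟩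
  have eb : ({a, b, c} : Finset ℕ).erase b = {a, c} := by
    ext x
    simp only [Finset.mem_erase, Finset.mem_insert, Finset.mem_singleton]
    constructor
    · rintro ⟨h1, rfl | rfl | rfl⟩
      · exact Or.inl rfl
      · exact absurd rfl h1
      · exact Or.inr rfl
    · rintro (rfl | rfl)
      · exact ⟨hab, Or.inl rfl⟩
      · exact ⟨Ne.symm hbc, Or.inr (Or.inr rfl)⟩
  have ec : ({a, b, c} : Finset ℕ).erase c = {a, b} := by
    ext x
    simp only [Finset.mem_erase, Finset.mem_insert, Finset.mem_singleton]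
    constructor
    · rintro ⟨h1, rfl | rfl | rfl⟩
      · exact Or.inl rfl
      · exact Or.inr rfl
      · exact absurd rfl h1
    · rintro (rfl | rfl)
      · exact ⟨hac, Or.inl rfl⟩
      · exact ⟨hbc, Or.inr (Or.inl rfl)⟩
  set f := algebraMap (ZMod p) k with hf
  have hinj : Function.Injective f := f.injective
  have ra := h.rel a ma
  have rb := h.rel b mb
  have rc := h.rel c mc
  rw [ea, Finset.sum_pair hbc] at ra
  rw [eb, Finset.sum_pair hac] at rb
  rw [ec, Finset.sum_pair hab] at rc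
  have hsm : ∀ (x : ZMod p) (N : Matrix (Fin 2) (Fin 2) k), x • N = f x • N := fun x N =>
    (algebraMap_smul k x N).symm
  simp only [hsm] at ra rb rc
  obtain ⟨a1, a2⟩ := tr_rel ra
  obtain ⟨b1, b2⟩ := tr_rel rb
  obtain ⟨c1, c2⟩ := tr_rel rc
  -- cyclic permutations
  have s1 : (M b * M a * M c).trace = (M a * M c * M b).trace := (trace_mul_cycle _ _ _).symm
  have s2 : (M b * M c * M a).trace = (M a * M b * M c).trace := trace_mul_cycle _ _ _
  have s3 : (M c * M a * M b).trace = (M a * M b * M c).trace := (trace_mul_cycle _ _ _).symm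
  have s4 : (M c * M b * M a).trace = (M a * M c * M b).trace := trace_mul_cycle _ _ _
  rw [s1, s2] at b1 b2
  rw [s3, s4] at c1 c2
  rw [trace_mul_comm (M b) (M a)] at b1
  rw [trace_mul_comm (M c) (M a)] at c1
  rw [trace_mul_comm (M c) (M b)] at c2
  set s := (M a * M b * M c).trace - (M a * M c * M b).trace with hs
  have ua : f (u a) ≠ 0 := fun h0 => hu a ma (hinj (by rw [h0, map_zero]))
  have ub : f (u b) ≠ 0 := fun h0 => hu b mb (hinj (by rw [h0, map_zero]))
  have uc : f (u c) ≠ 0 := fun h0 => hu c mc (hinj (by rw [h0, map_zero]))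
  by_cases hs0 : s = 0
  · have t1 : (M a * M b).trace = 0 := by
      rw [hs0, mul_zero] at a1
      exact (mul_eq_zero.1 a1.symm).resolve_left ua
    have t2 : (M a * M c).trace = 0 := by
      have h3 : (M a * M c * M b).trace - (M a * M b * M c).trace = -s := by rw [hs]; ring
      rw [h3, hs0, neg_zero, mul_zero] at a2
      exact (mul_eq_zero.1 a2.symm).resolve_left ua
    have k1 := comm_two (h.nil a ma) (h.nil b mb) t1
    have k2 := comm_two (h.nil a ma) (h.nil c mc) t2
    have h4 : f (u a) • M a = 0 := by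
      rw [← ra, add_mul, mul_add, smul_mul_assoc, smul_mul_assoc, mul_smul_comm, mul_smul_comm,
        k1, k2, sub_self]
    exact h.ne a ma ((smul_eq_zero.1 h4).resolve_left ua)
  · apply hJ
    refine ⟨hinj ?_, hinj ?_, hinj ?_⟩
    · rw [map_neg, map_mul, map_mul]
      apply mul_left_cancel₀ hs0
      linear_combination f (u b) * a1 - f (u a) * b1
    · rw [map_neg, map_mul, map_mul]
      apply mul_left_cancel₀ hs0
      linear_combination -f (u c) * a2 + f (u a) * c1
    · rw [map_neg, map_mul, map_mul]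
      apply mul_left_cancel₀ hs0
      linear_combination f (u c) * b2 - f (u b) * c2

end

end Pool.Agent.V11248.FM
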