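import Pool.Agent.V11248.FM.RatB
import Pool.Agent.V11248.FM.Tup
import Pool.Agent.V11248.FM.StepG

/-!
# The condition of the main step over `ℚ`
-/

set_option autoImplicit false

namespace Pool.Agent.V11248.FM

open NumberField IsDedekindDomain Matrix IsLocalRing Pool.Agent.W569.FM Pool.Agent.W571.FM

/-- the linking numbers -/
noncomputable def lk {p : ℕ} (χ : ∀ j : ℕ, (ZMod j)ˣ →* Multiplicative (ZMod p)) (l j : ℕ) :
    ZMod p :=
  open Classical in if h : Nat.Coprime l j then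
    Multiplicative.toAdd (χ j (ZMod.unitOfCoprime l h)) else 0

/-- the levels -/
def lev (p m l : ℕ) : ZMod p := (((l - 1) / p ^ m : ℕ) : ZMod p)

section
variable {p : ℕ} [hp : Fact p.Prime]

theorem ratG (hp2 : p ≠ 2) {m : ℕ} (hm : 2 ≤ m) (S : Finset ℕ)
    (hS : ∀ l ∈ S, l.Prime ∧ p ^ m ∣ l - 1 ∧ ¬ p ^ (m + 1) ∣ l - 1)
    (χ : ∀ j : ℕ, (ZMod j)ˣ →* Multiplicative (ZMod p)) (hχ : ∀ l ∈ S, ∃ x, χ l x ≠ 1) {n : ℕ}
    (hno : ∀ (k : Type) [Field k] [Algebra (ZMod p) k] (J : Finset ℕ), J ⊆ S → J.Nonempty →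
      ∀ M : ℕ → Matrix (Fin n) (Fin n) k, ¬ Tup p k n J (lk χ) (lev p m) M)
    (R : Type) [CommRing R] [IsLocalRing R] [IsNoetherianRing R] [Algebra (ZMod p) R]
    (X : GF ℚ →* Multiplicative (Matrix (Fin n) (Fin n) R))
    (P : HeightOneSpectrum (𝓞 ℚ) → Ideal (OO ℚ)) (σ τ : HeightOneSpectrum (𝓞 ℚ) → GF ℚ)
    (J : Finset (HeightOneSpectrum (𝓞 ℚ)))
    (hJS : ∀ v ∈ J, ∃ l ∈ S, v = vp l)
    (hXc : ∀ N : ℕ, ∀ᶠ g in nhds (1 : GF ℚ),
      Multiplicative.toAdd (X g) ∈ filM p n (maximalIdeal R ^ N))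
    (hin : ∀ Q : Ideal (OO ℚ), Q.IsMaximal → (∀ v ∈ J, cm Q ≠ v.asIdeal) →
      (∀ v ∈ ({vp p} : Set (HeightOneSpectrum (𝓞 ℚ))), cm Q ≠ v.asIdeal) → ∀ t : GF ℚ,
        InInertia Q t → X t = 1)
    (hP : ∀ v, (P v).IsMaximal ∧ cm (P v) = v.asIdeal) (hσ : ∀ v, FrobAt (nm v) (P v) (σ v))
    (hτ : ∀ v : HeightOneSpectrum (𝓞 ℚ), (p : 𝓞 ℚ) ∉ v.asIdeal → InInertia (P v) (τ v) ∧
      ∀ t : GF ℚ, InInertia (P v) t → Multiplicative.toAdd (X t) ∈
        Submodule.span (ZMod p) {Multiplicative.toAdd (X (τ v))})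
    (hnil : ∀ v : HeightOneSpectrum (𝓞 ℚ), (p : 𝓞 ℚ) ∉ v.asIdeal →
      IsNilpotent (Multiplicative.toAdd (X (τ v))))
    (hne : ∀ v ∈ J, Multiplicative.toAdd (X (τ v)) ≠ 0)
    (hrel : ∀ v ∈ J, ∀ u : ℕ, nm v = p ^ m * u + 1 →
      Multiplicative.toAdd (X (σ v)) * Multiplicative.toAdd (X (τ v)) -
      Multiplicative.toAdd (X (τ v)) * Multiplicative.toAdd (X (σ v)) =
        (u : ZMod p) • Multiplicative.toAdd (X (τ v))) :
    J = ∅ ∧ ∀ l ∈ S, IsNilpotent (Multiplicative.toAdd (X (σ (vp l)))) := by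
  classical
  have hF : Fil (p := p) (fun N => filM p n (maximalIdeal R ^ N)) := fil_max
  set J₀ := S.filter fun l => vp l ∈ J with hJ₀
  have hmem : ∀ l ∈ J₀, l ∈ S ∧ vp l ∈ J := fun l hl => Finset.mem_filter.1 hl
  have hpdvd : ∀ l ∈ S, p ∣ l - 1 := fun l hl =>
    (dvd_pow_self p (by omega : m ≠ 0)).trans (hS l hl).2.1
  have hnep : ∀ l ∈ S, l ≠ p := by
    intro l hl h
    have h1 := hpdvd l hl
    rw [h] at h1
    have h2 := hp.out.two_le
    have := Nat.le_of_dvd (by omega) h1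
    omega
  have hp2' : ∀ l ∈ S, p ^ 2 ∣ l - 1 := fun l hl => (pow_dvd_pow p hm).trans (hS l hl).2.1
  -- the places above the primes
  have hPm : ∀ l : ℕ, l.Prime → (P (vp l)).IsMaximal ∧ (l : OO ℚ) ∈ P (vp l) := by
    intro l hl
    refine ⟨(hP _).1, natCast_mem_cm.1 ?_⟩
    rw [(hP _).2]
    exact mem_vp hl
  have hσm : ∀ l : ℕ, l.Prime → FrobAt l (P (vp l)) (σ (vp l)) := by
    intro l hl
    have h1 := hσ (vp l)
    rwa [nm_vp hl] at h1
  have hnotmem : ∀ l q : ℕ, l.Prime → q.Prime → q ≠ l → (l : OO ℚ) ∉ P (vp q) :=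
    fun l q hl hq hne h => hne (char_unique (hPm q hq).1 hq hl (hPm q hq).2 h)
  obtain ⟨ψp, γ, ψ, t, h1, h2, h3, h4⟩ := exists_chars hp2 J₀
    (fun l hl => ⟨(hS l (hmem l hl).1).1, hnep l (hmem l hl).1, hpdvd l (hmem l hl).1⟩) χ
    (fun l hl => hχ l (hmem l hl).1) (fun l => P (vp l)) (fun l => σ (vp l)) hPm hσm
  have hspan := span_vec hF hXc J₀ h4 (fun Q hQ hpQ hJQ s hs => hin Q hQ (fun v hv hQv => by
      obtain ⟨l, hl, rfl⟩ := hJS v hv
      refine hJQ l (Finset.mem_filter.2 ⟨hl, hv⟩) (natCast_mem_cm.1 ?_)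
      rw [hQv]
      exact mem_vp (hS l hl).1) (fun v hv hQv => by
      rw [Set.mem_singleton_iff] at hv
      apply hpQ
      apply natCast_mem_cm.1
      rw [hQv, hv]
      exact mem_vp hp.out) s hs)
  set M : ℕ → Matrix (Fin n) (Fin n) R := fun l => Multiplicative.toAdd (X (t l)) with hM
  have hσl : ∀ l ∈ S, Multiplicative.toAdd (X (σ (vp l))) =
      ∑ j ∈ J₀, Multiplicative.toAdd (ψ j (σ (vp l))) • M j := by
    intro l hl
    rw [hspan (σ (vp l)), h1 l (hS l hl).1 (hnep l hl) (hp2' l hl), toAdd_one, zero_smul,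
      zero_add]
  have hpv : ∀ l ∈ S, (p : 𝓞 ℚ) ∉ (vp l).asIdeal := by
    intro l hl h
    apply hnotmem p l hp.out (hS l hl).1 (hnep l hl)
    apply natCast_mem_cm.1
    rw [(hP _).2]
    exact h
  -- the inertia elements
  have hTM : ∀ l ∈ J₀, ∃ c : ZMod p, M l = c • Multiplicative.toAdd (X (τ (vp l))) := by
    intro l hl
    have h5 := (hτ (vp l) (hpv l (hmem l hl).1)).2 (t l) (h3 l hl).1
    obtain ⟨c, hc⟩ := Submodule.mem_span_singleton.1 h5
    exact ⟨c, hc.symm⟩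
  have hMne : ∀ l ∈ J₀, M l ≠ 0 := by
    intro l hl h0
    have hlS := (hmem l hl).1
    apply hne (vp l) (hmem l hl).2
    have hin' := (hτ (vp l) (hpv l hlS)).1
    rw [hspan (τ (vp l)), h2 (P (vp l)) (hP _).1 (hnotmem p l hp.out (hS l hlS).1 (hnep l hlS)) _
      hin', toAdd_one, zero_smul, zero_add]
    refine Finset.sum_eq_zero fun j hj => ?_
    by_cases hjl : j = l
    · rw [hjl]
      show _ • M l = 0
      rw [h0, smul_zero]
    · have hjS := (hmem j hj).1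
      rw [(h3 j hj).2.1 (P (vp l)) (hP _).1
        (hnotmem j l (hS j hjS).1 (hS l hlS).1 (Ne.symm hjl)) _ hin', toAdd_one, zero_smul]
  have hMnil : ∀ l ∈ J₀, IsNilpotent (M l) := by
    intro l hl
    obtain ⟨c, hc⟩ := hTM l hl
    rw [hc]
    exact (hnil (vp l) (hpv l (hmem l hl).1)).smul c
  have hlev : ∀ l ∈ S, nm (vp l) = p ^ m * ((l - 1) / p ^ m) + 1 := by
    intro l hl
    rw [nm_vp (hS l hl).1, Nat.mul_div_cancel' (hS l hl).2.1]
    have := (hS l hl).1.one_le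
    omega
  have hu : ∀ l ∈ S, lev p m l ≠ 0 := by
    intro l hl
    rw [lev, Ne, ZMod.natCast_eq_zero_iff]
    intro h
    apply (hS l hl).2.2
    rw [pow_succ, ← Nat.mul_div_cancel' (hS l hl).2.1]
    exact Nat.mul_dvd_mul_left _ h
  have hlk : ∀ l ∈ S, ∀ j ∈ J₀, j ≠ l → Multiplicative.toAdd (ψ j (σ (vp l))) = lk χ l j := by
    intro l hl j hj hjl
    have hlp := (hS l hl).1
    have hjp := (hS j (hmem j hj).1).1
    have hcop : Nat.Coprime l j := (Nat.coprime_primes hlp hjp).2 (Ne.symm hjl)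
    rw [(h3 j hj).2.2 l hlp (Ne.symm hjl) (ZMod.unitOfCoprime l hcop)
      (ZMod.coe_unitOfCoprime l hcop), lk, dif_pos hcop]
  have hrel' : ∀ l ∈ J₀, (∑ j ∈ J₀, lk χ l j • M j) * M l - M l * ∑ j ∈ J₀, lk χ l j • M j =
      lev p m l • M l := by
    intro l hl
    have hlS := (hmem l hl).1
    obtain ⟨c, hc⟩ := hTM l hl
    have h5 := hrel (vp l) (hmem l hl).2 _ (hlev l hlS)
    have h6 : Multiplicative.toAdd (X (σ (vp l))) * M l - M l *
        Multiplicative.toAdd (X (σ (vp l))) = lev p m l • M l := by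
      rw [hc, mul_smul_comm, smul_mul_assoc, ← smul_sub, h5, lev, smul_comm]
    rw [← h6, hσl l hlS, ← Finset.add_sum_erase _ _ hl, ← Finset.add_sum_erase _ _ hl]
    have h7 : ∑ j ∈ J₀.erase l, Multiplicative.toAdd (ψ j (σ (vp l))) • M j =
        ∑ j ∈ J₀.erase l, lk χ l j • M j := by
      refine Finset.sum_congr rfl fun j hj => ?_
      rw [Finset.mem_erase] at hj
      rw [hlk l hlS j hj.2 hj.1]
    rw [h7]
    simp only [add_mul, mul_add, smul_mul_assoc, mul_smul_comm]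
    abel
  have hJe : J₀ = ∅ := by
    by_contra hcon
    obtain ⟨J', hJ', hne', htup⟩ := exists_tup (fun l hl => hu l (hmem l hl).1) hMne hMnil
      (Finset.nonempty_iff_ne_empty.2 hcon) hrel'
    exact hno (ResidueField R) J' (hJ'.trans (Finset.filter_subset _ _)) hne' _ htup
  refine ⟨?_, fun l hl => ?_⟩
  · rw [Finset.eq_empty_iff_forall_notMem]
    intro v hv
    obtain ⟨l, hl, rfl⟩ := hJS v hv
    have h5 : l ∈ J₀ := Finset.mem_filter.2 ⟨hl, hv⟩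
    rw [hJe] at h5
    exact Finset.notMem_empty _ h5
  · rw [hσl l hl, hJe, Finset.sum_empty]
    exact IsNilpotent.zero

end

end Pool.Agent.V11248.FM
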