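import Pool.Agent.V11248.FM.Adm

/-!
# Representations trivial modulo a power of `p` with sparsely linked ramification
-/

set_option autoImplicit false

namespace Pool.Agent.V11248.FM

open NumberField IsDedekindDomain Matrix IsLocalRing Pool.Agent.W569.FM Pool.Agent.W571.FM

section
variable {p : ℕ} [hp : Fact p.Prime] {R : Type} [CommRing R] [Algebra (ZMod p) R] {n : ℕ}

/-- the matrices with entries in an ideal -/
def filM (p : ℕ) [Fact p.Prime] {R : Type} [CommRing R] [Algebra (ZMod p) R] (n : ℕ)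
    (I : Ideal R) : Submodule (ZMod p) (Matrix (Fin n) (Fin n) R) where
  carrier := {x | MJ I x}
  add_mem' := fun hx hy => hx.add hy
  zero_mem' := fun i j => by
    rw [Matrix.zero_apply]
    exact I.zero_mem
  smul_mem' := fun c x hx i j => by
    rw [Matrix.smul_apply, Algebra.smul_def]
    exact I.mul_mem_left _ (hx i j)

theorem mem_filM {I : Ideal R} {x : Matrix (Fin n) (Fin n) R} : x ∈ filM p n I ↔ MJ I x := Iff.rfl

theorem fil_max [IsLocalRing R] [IsNoetherianRing R] :
    Fil (p := p) (fun N => filM p n (maximalIdeal R ^ N)) := by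
  refine ⟨fun a b hab x hx => hx.mono (Ideal.pow_le_pow_right hab), fun x hx => ?_⟩
  ext i j
  have h1 : x i j ∈ ⨅ N : ℕ, maximalIdeal R ^ N := by
    rw [Ideal.mem_iInf]
    intro N
    exact hx N i j
  rw [Ideal.iInf_pow_eq_bot_of_isLocalRing _ (maximalIdeal.isMaximal R).ne_top] at h1
  exact h1

end

section
variable {p : ℕ} [hp : Fact p.Prime] {A : Type} [CommRing A] [IsLocalRing A] [IsNoetherianRing A]
  {n : ℕ} {K : Type} [Field K] [NumberField K]

omit hp [IsNoetherianRing A] in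
theorem map_max_pow {O : Type} [CommRing O] [IsLocalRing O] (φ : A →+* O) [IsLocalHom φ] {a : A}
    {N : ℕ} (ha : a ∈ maximalIdeal A ^ N) : φ a ∈ maximalIdeal O ^ N := by
  have h1 : (maximalIdeal A).map φ ≤ maximalIdeal O := by
    rw [Ideal.map_le_iff_le_comap]
    intro a ha
    rw [Ideal.mem_comap, mem_maximalIdeal, mem_nonunits_iff]
    intro hu
    exact ha ((isUnit_map_iff φ a).1 hu)
  have h2 : φ a ∈ ((maximalIdeal A) ^ N).map φ := Ideal.mem_map_of_mem φ ha
  rw [Ideal.map_pow] at h2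
  exact Ideal.pow_right_mono h1 N h2

/-- **the tame relation** -/
theorem exact_rel {ρ : GF K →* GL (Fin n) A} (hpA : (p : A) ∈ maximalIdeal A)
    (hcts : ∀ N : ℕ, ∀ᶠ g in nhds (1 : GF K), MJ (maximalIdeal A ^ N)
      ((ρ g : Matrix (Fin n) (Fin n) A) - 1))
    (hres : ∀ g, ∃ M : ℕ, MJ (maximalIdeal A) (((ρ g : Matrix (Fin n) (Fin n) A) - 1) ^ M))
    {q : ℕ} (hq : q ≠ 0) (hpq : Nat.Coprime p q)
    {P : Ideal (OO K)} (hP : P.IsMaximal) (hqP : (q : OO K) ∈ P) {τ σ : GF K}
    (hτ : InInertia P τ) (hσ : FrobAt q P σ) :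
    ρ σ * ρ τ = ρ τ ^ q * ρ σ := by
  have key : ρ (σ * τ * σ⁻¹) = ρ τ ^ q := by
    refine eq_of_red fun N => ?_
    obtain ⟨h1, h2, h3⟩ := red_group hpA hcts hres (maximalIdeal A ^ N) N le_rfl
    have h4 := (tame K p q hq hpq _ h2 _ h1 P hP hqP).1 τ hτ σ hσ
    have h5 := congrArg Subtype.val h4
    rw [map_pow]
    exact h5
  rw [map_mul, map_mul, map_inv] at key
  rw [← key, inv_mul_cancel_right]

/-- **representations trivial modulo `p ^ m` are unramified at sparsely linked places** -/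
theorem unram (hpA : (p : A) ∈ maximalIdeal A) (hreg : ∀ a : A, (p : A) * a = 0 → a = 0)
    {m : ℕ} (hm : 2 < p ^ m) (S : Finset (HeightOneSpectrum (𝓞 K)))
    (hS : ∀ v ∈ S, p ^ m ∣ nm v - 1 ∧ ¬ p ^ (m + 1) ∣ nm v - 1)
    (E : Set (HeightOneSpectrum (𝓞 K)))
    (hadm : ∀ J ⊆ S, J.Nonempty → Row p E J ∨ Rank p E J)
    {ρ : GF K →* GL (Fin n) A}
    (hcts : ∀ N : ℕ, ∀ᶠ g in nhds (1 : GF K), MJ (maximalIdeal A ^ N)
      ((ρ g : Matrix (Fin n) (Fin n) A) - 1))
    (hk : ∀ g, ∃ α : Matrix (Fin n) (Fin n) A,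
      (ρ g : Matrix (Fin n) (Fin n) A) = 1 + ((p : A) ^ m) • α)
    (hur : ∀ (P : Ideal (OO K)) (v : HeightOneSpectrum (𝓞 K)), P.IsMaximal → cm P = v.asIdeal →
      v ∉ E → ((p : 𝓞 K) ∈ v.asIdeal ∨ v ∉ S ∧ p ^ m ∣ nm v - 1) → ∀ τ : GF K, InInertia P τ →
        ρ τ = 1) :
    (∀ c : GF K, c * c = 1 → ρ c = 1) ∧
    ∀ P : Ideal (OO K), P.IsMaximal → (∀ v ∈ E, cm P ≠ v.asIdeal) → ∀ τ : GF K,
      InInertia P τ → ρ τ = 1 := by
  classical
  have hm1 : 1 ≤ m := by
    rcases Nat.eq_zero_or_pos m with h | h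
    · rw [h, pow_zero] at hm
      omega
    · exact h
  choose α hα using hk
  obtain ⟨R, iR, iL, iN, iA, π, hπs, hπ⟩ := exists_red hpA
  have hπp : π (p : A) = 0 := (hπ _).2 ⟨1, by rw [mul_one]⟩
  have hπl : IsLocalHom π := IsLocalHom.of_surjective _ hπs
  have hα1 : ∀ g, ρ g = 1 → α g = 0 := by
    intro g hg
    have h1 := hα g
    rw [hg, Units.val_one, left_eq_add] at h1
    exact cancelM hreg m (by rw [h1, smul_zero])
  have hαm : ∀ g h, α (g * h) = α g + α h + ((p : A) ^ m) • (α g * α h) := by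
    intro g h
    apply cancelM hreg m
    have h1 := hα (g * h)
    rw [map_mul, Units.val_mul, hα g, hα h] at h1
    have h2 : (1 + ((p : A) ^ m) • α g) * (1 + ((p : A) ^ m) • α h) =
        1 + ((p : A) ^ m) • (α g + α h + ((p : A) ^ m) • (α g * α h)) := by
      simp only [mul_add, add_mul, smul_mul_assoc, mul_smul_comm, one_mul, mul_one]
      module
    rw [h2] at h1
    exact (add_left_cancel h1).symm
  have hπm : π ((p : A) ^ m) = 0 := by rw [map_pow, hπp, zero_pow (by omega)]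
  let X : GF K →* Multiplicative (Matrix (Fin n) (Fin n) R) :=
    { toFun := fun g => Multiplicative.ofAdd (π.mapMatrix (α g))
      map_one' := by rw [hα1 1 (map_one ρ), map_zero, ofAdd_zero]
      map_mul' := fun g h => by
        have h1 : π.mapMatrix (α (g * h)) = π.mapMatrix (α g) + π.mapMatrix (α h) := by
          rw [hαm, map_add, map_add, map_smulM, hπm, zero_smul, add_zero]
        rw [h1, ofAdd_add] }
  have hXa : ∀ g, Multiplicative.toAdd (X g) = π.mapMatrix (α g) := fun g => rfl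
  have hX1 : ∀ g, ρ g = 1 → X g = 1 := by
    intro g hg
    apply Multiplicative.toAdd.injective
    rw [hXa, hα1 g hg, map_zero, toAdd_one]
  have hF : Fil (p := p) (fun N => filM p n (maximalIdeal R ^ N)) := fil_max
  have hXc : ∀ N : ℕ, ∀ᶠ g in nhds (1 : GF K),
      Multiplicative.toAdd (X g) ∈ filM p n (maximalIdeal R ^ N) := by
    intro N
    obtain ⟨N', hN'⟩ := artin hreg m N
    filter_upwards [hcts N'] with g hg i j
    rw [hXa, RingHom.mapMatrix_apply, Matrix.map_apply]
    apply map_max_pow π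
    apply hN'
    have h1 := hg i j
    rwa [hα g, add_sub_cancel_left, Matrix.smul_apply, smul_eq_mul] at h1
  have hres : ∀ g, ∃ M : ℕ, MJ (maximalIdeal A) (((ρ g : Matrix (Fin n) (Fin n) A) - 1) ^ M) := by
    intro g
    refine ⟨1, fun i j => ?_⟩
    rw [pow_one, hα g, add_sub_cancel_left, Matrix.smul_apply, smul_eq_mul]
    exact Ideal.mul_mem_right _ _ (Ideal.pow_mem_of_mem _ hpA m hm1)
  -- elements of order two
  have hrealρ : ∀ c : GF K, c * c = 1 → ρ c = 1 := by
    intro c hc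
    have h1 : (ρ c : Matrix (Fin n) (Fin n) A) * ρ c = 1 := by
      rw [← Units.val_mul, ← map_mul, hc, map_one, Units.val_one]
    rw [hα c] at h1
    have h0 : α c = 0 := by
      by_cases hp2 : p = 2
      · obtain ⟨k', rfl⟩ : ∃ k', m = k' + 1 := ⟨m - 1, by omega⟩
        have hk' : 1 ≤ k' := by
          by_contra hcon
          have : k' = 0 := by omega
          rw [this, hp2] at hm
          norm_num at hm
        have h2 : ((p : A) ^ (k' + 1 + 1)) • (α c * (1 + ((p : A) ^ k') • α c)) =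
            ((p : A) ^ (k' + 1 + 1)) • (0 : Matrix (Fin n) (Fin n) A) := by
          rw [smul_zero]
          have h3 : (1 + ((p : A) ^ (k' + 1)) • α c) * (1 + ((p : A) ^ (k' + 1)) • α c) =
              1 + ((p : A) ^ (k' + 1 + 1)) • (α c * (1 + ((p : A) ^ k') • α c)) := by
            have hpc : (p : A) = 2 := by rw [hp2]; norm_num
            simp only [mul_add, add_mul, smul_mul_assoc, mul_smul_comm, one_mul, mul_one]
            rw [hpc]
            module
          rw [h3] at h1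
          exact add_eq_left.1 h1
        exact (isUnit_M hpA hk' (α c)).mul_left_eq_zero.1 (cancelM hreg _ h2)
      · have h2 : ((p : A) ^ m) • (α c * ((2 : ℕ) + ((p : A) ^ m) • α c)) =
            ((p : A) ^ m) • (0 : Matrix (Fin n) (Fin n) A) := by
          rw [smul_zero]
          have h3 : (1 + ((p : A) ^ m) • α c) * (1 + ((p : A) ^ m) • α c) =
              1 + ((p : A) ^ m) • (α c * ((2 : ℕ) + ((p : A) ^ m) • α c)) := by
            simp only [mul_add, add_mul, smul_mul_assoc, mul_smul_comm, one_mul, mul_one,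
              Nat.cast_ofNat, mul_two]
            module
          rw [h3] at h1
          exact add_eq_left.1 h1
        have h3 := cancelM hreg _ h2
        have h4 : IsUnit ((2 : ℕ) + ((p : A) ^ m) • α c) := by
          obtain ⟨k', rfl⟩ : ∃ k', m = k' + 1 := ⟨m - 1, by omega⟩
          have h5 := isUnit_W hpA (u := 2) (fun h => hp2
            ((Nat.prime_dvd_prime_iff_eq hp.out Nat.prime_two).1 h)) (((p : A) ^ k') • α c)
          rw [smul_smul, ← pow_succ'] at h5
          exact h5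
        exact h4.mul_left_eq_zero.1 h3
    apply Units.ext
    rw [hα c, h0, smul_zero, add_zero, Units.val_one]
  have hreal : ∀ c : GF K, c * c = 1 → X c = 1 := fun c hc => hX1 c (hrealρ c hc)
  -- choices
  have e1 : ∀ v : HeightOneSpectrum (𝓞 K), ∃ (P : Ideal (OO K)) (σ τ : GF K),
      P.IsMaximal ∧ cm P = v.asIdeal ∧ FrobAt (nm v) P σ ∧ ((p : 𝓞 K) ∉ v.asIdeal →
        InInertia P τ ∧ ∀ t : GF K, InInertia P t → Multiplicative.toAdd (X t) ∈
          Submodule.span (ZMod p) {Multiplicative.toAdd (X τ)}) := by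
    intro v
    obtain ⟨P, σ, hP, hPv, hσ⟩ := frob_cm v
    by_cases hv : (p : 𝓞 K) ∉ v.asIdeal
    · obtain ⟨τ, hτ1, hτ2⟩ := inertia_line hF hXc (nm v) (by have := two_le_nm v; omega)
        (nm_coprime hp.out hv) P hP (nm_mem hPv)
      exact ⟨P, σ, τ, hP, hPv, hσ, fun _ => ⟨hτ1, hτ2⟩⟩
    · exact ⟨P, σ, 1, hP, hPv, hσ, fun h => absurd h hv⟩
  choose P σ τ hP hPv hσ hτ using e1
  have hrel : ∀ v, (p : 𝓞 K) ∉ v.asIdeal → ∀ t : GF K, InInertia (P v) t →
      (1 + ((p : A) ^ m) • α (σ v)) * (ρ t : Matrix (Fin n) (Fin n) A) =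
      (ρ t : Matrix (Fin n) (Fin n) A) ^ (nm v) * (1 + ((p : A) ^ m) • α (σ v)) := by
    intro v hv t ht
    have h1 := exact_rel hpA hcts hres (q := nm v) (by have := two_le_nm v; omega)
      (nm_coprime hp.out hv) (hP v) (nm_mem (hPv v)) ht (hσ v)
    have h2 := congrArg (fun M : GL (Fin n) A => (M : Matrix (Fin n) (Fin n) A)) h1
    simp only [Units.val_mul, Units.val_pow_eq_pow_val] at h2
    rw [hα (σ v)] at h2
    exact h2
  -- an inertia group which acts trivially modulo all powers of `p`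
  have hlead : ∀ v, (p : 𝓞 K) ∉ v.asIdeal → v ∉ E →
      (v ∈ S → IsNilpotent (π.mapMatrix (α (σ v)))) →
      ∀ t : GF K, InInertia (P v) t → ρ t = 1 := by
    intro v hv hvE hvS t ht
    by_cases hun : v ∉ S ∧ p ^ m ∣ nm v - 1
    · exact hur (P v) v (hP v) (hPv v) hvE (Or.inr hun) t ht
    have h2 := two_le_nm v
    obtain ⟨e, u, hu, hlu⟩ := Nat.exists_eq_pow_mul_and_not_dvd (n := nm v - 1) (by omega) p
      hp.out.ne_one
    have hlu' : nm v = p ^ e * u + 1 := by omega
    have hem : e ≤ m := by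
      by_contra hcon
      have h3 : p ^ (m + 1) ∣ nm v - 1 := by
        rw [hlu]
        exact Dvd.dvd.mul_right (pow_dvd_pow p (by omega)) u
      by_cases hvS' : v ∈ S
      · exact (hS v hvS').2 h3
      · exact hun ⟨hvS', (pow_dvd_pow p (Nat.le_succ m)).trans h3⟩
    have hemS : e = m → IsNilpotent (π.mapMatrix (α (σ v))) := by
      intro he
      apply hvS
      by_contra hvS'
      apply hun
      refine ⟨hvS', ?_⟩
      rw [hlu, he]
      exact Dvd.intro _ rfl
    have all : ∀ N, ∃ a : Matrix (Fin n) (Fin n) A,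
        (ρ t : Matrix (Fin n) (Fin n) A) = 1 + ((p : A) ^ (m + N)) • a := by
      intro N
      induction N with
      | zero => exact ⟨α t, hα t⟩
      | succ N ih =>
        obtain ⟨a, ha⟩ := ih
        have h3 := hrel v hv t ht
        rw [ha, hlu'] at h3
        have h4 := rel_lead hreg hm1 (k := m + N) (by omega)
          (lt_of_lt_of_le hm (Nat.pow_le_pow_right hp.out.pos (Nat.le_add_right m N)))
          hem hu a (α (σ v)) h3 π hπp hemS
        have hb : ∀ i j, ∃ b, a i j = (p : A) * b := fun i j => (hπ _).1 (by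
          have := congrFun (congrFun h4 i) j
          rwa [RingHom.mapMatrix_apply, Matrix.map_apply, Matrix.zero_apply] at this)
        choose b hb using hb
        refine ⟨Matrix.of b, ?_⟩
        rw [ha]
        congr 1
        ext i j
        rw [Matrix.smul_apply, Matrix.smul_apply, Matrix.of_apply, hb i j, smul_eq_mul,
          smul_eq_mul, ← mul_assoc, ← pow_succ, add_assoc]
    apply Units.ext
    rw [Units.val_one, ← sub_eq_zero]
    ext i j
    rw [Matrix.zero_apply]
    have h1 : ((ρ t : Matrix (Fin n) (Fin n) A) - 1) i j ∈ ⨅ N : ℕ, maximalIdeal A ^ N := by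
      rw [Ideal.mem_iInf]
      intro N
      obtain ⟨a, ha⟩ := all N
      rw [ha, add_sub_cancel_left, Matrix.smul_apply, smul_eq_mul]
      refine Ideal.mul_mem_right _ _ (Ideal.pow_le_pow_right (Nat.le_add_left N m) ?_)
      exact Ideal.pow_mem_pow hpA (m + N)
    rw [Ideal.iInf_pow_eq_bot_of_isLocalRing _ (maximalIdeal.isMaximal A).ne_top] at h1
    exact h1
  have hpv : ∀ v ∈ S, (p : 𝓞 K) ∉ v.asIdeal := by
    intro v hv hpv
    have h1 := (hS v hv).1
    have h2 := two_le_nm v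
    have h3 : p ∣ nm v - 1 := (dvd_pow_self p (by omega)).trans h1
    obtain ⟨d, hd⟩ := h3
    have h4 : nm v = p * d + 1 := by omega
    have h5 : (nm v : 𝓞 K) ∈ v.asIdeal := Ideal.absNorm_mem _
    rw [h4, Nat.cast_add, Nat.cast_mul, Nat.cast_one] at h5
    have h6 : (1 : 𝓞 K) ∈ v.asIdeal := by
      have h7 := v.asIdeal.sub_mem h5 (v.asIdeal.mul_mem_right (d : 𝓞 K) hpv)
      rwa [add_sub_cancel_left] at h7
    exact v.isPrime.ne_top ((Ideal.eq_top_iff_one _).2 h6)
  set J := S.filter (fun v => π.mapMatrix (α (τ v)) ≠ 0) with hJ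
  have hJm : ∀ v ∈ J, v ∈ S ∧ π.mapMatrix (α (τ v)) ≠ 0 := fun v hv => Finset.mem_filter.1 hv
  -- `X` is unramified outside `J` and `E`
  have hin : ∀ Q : Ideal (OO K), Q.IsMaximal → (∀ v ∈ J, cm Q ≠ v.asIdeal) →
      (∀ v ∈ E, cm Q ≠ v.asIdeal) → ∀ t : GF K, InInertia Q t → X t = 1 := by
    intro Q hQ hQJ hQE t ht
    set v := place hQ with hv
    have hvQ : cm Q = v.asIdeal := rfl
    have hvE : v ∉ E := fun h => hQE v h hvQ
    by_cases hpQ : (p : 𝓞 K) ∈ v.asIdeal
    · exact hX1 t (hur Q v hQ hvQ hvE (Or.inl hpQ) t ht)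
    · by_cases hvS : v ∈ S
      · have h0 : π.mapMatrix (α (τ v)) = 0 := by
          by_contra hne
          exact hQJ v (Finset.mem_filter.2 ⟨hvS, hne⟩) hvQ
        refine inertia_transport X (fun e => e = 1) (hP v) hQ ((hPv v).trans hvQ.symm)
          (fun s hs => ?_) t ht
        have h1 := (hτ v hpQ).2 s hs
        rw [hXa (τ v), h0, Submodule.span_zero_singleton, Submodule.mem_bot] at h1
        exact Multiplicative.toAdd.injective h1
      · exact inertia_transport X (fun e => e = 1) (hP v) hQ ((hPv v).trans hvQ.symm)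
          (fun s hs => hX1 s (hlead v hpQ hvE (fun h => absurd h hvS) s hs)) t ht
  have hnil : ∀ v : HeightOneSpectrum (𝓞 K), (p : 𝓞 K) ∉ v.asIdeal →
      IsNilpotent (Multiplicative.toAdd (X (τ v))) := by
    intro v hv
    have h1 := hrel v hv (τ v) (hτ v hv).1
    rw [hα (τ v)] at h1
    refine IsNilpotent.map (nilp hpA hreg hm1 hm (two_le_nm v) (α (τ v))
      (1 + ((p : A) ^ m) • α (σ v)) ((ρ (σ v))⁻¹ : GL (Fin n) A) ?_ ?_ h1) π.mapMatrix
    · rw [← hα, ← Units.val_mul, mul_inv_cancel, Units.val_one]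
    · rw [← hα, ← Units.val_mul, inv_mul_cancel, Units.val_one]
  have hJ0 : ¬ J.Nonempty := by
    intro hJne
    have e2 : ∀ v : HeightOneSpectrum (𝓞 K), ∃ u : ℕ, v ∈ J → nm v = p ^ m * u + 1 ∧ ¬ p ∣ u := by
      intro v
      by_cases hv : v ∈ J
      · obtain ⟨hvS, -⟩ := hJm v hv
        obtain ⟨⟨u, hu⟩, hnd⟩ := hS v hvS
        have h2 := two_le_nm v
        refine ⟨u, fun _ => ⟨by omega, fun hpu => hnd ?_⟩⟩
        rw [hu, pow_succ]
        exact Nat.mul_dvd_mul_left _ hpu
      · exact ⟨0, fun h => absurd h hv⟩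
    choose u hu using e2
    refine adm_false hF hXc hreal J (fun v hv => hpv v (hJm v hv).1) hin P σ τ
      (fun v => ⟨hP v, hPv v⟩) hσ (fun v hv => (hτ v hv).2) (fun v hv => (hJm v hv).2) hnil
      (fun v => (u v : ZMod p)) (fun v hv => ?_) (fun v hv => ?_)
      (hadm J (Finset.filter_subset _ _) hJne)
    · rw [Ne, ZMod.natCast_eq_zero_iff]
      exact (hu v hv).2
    · refine rel_eq hreg hm1 hm (α (τ v)) (α (σ v)) (u := u v) ?_ π hπp
      rw [← (hu v hv).1]
      have hv' := hpv v (hJm v hv).1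
      have h1 := hrel v hv' (τ v) (hτ v hv').1
      rw [hα (τ v)] at h1
      exact h1
  rw [Finset.not_nonempty_iff_eq_empty] at hJ0
  have hin0 : ∀ Q : Ideal (OO K), Q.IsMaximal → (∀ v ∈ E, cm Q ≠ v.asIdeal) → ∀ t : GF K,
      InInertia Q t → X t = 1 := fun Q hQ hQE t ht =>
    hin Q hQ (fun v hv => absurd hv (by rw [hJ0]; exact Finset.notMem_empty v)) hQE t ht
  -- the Frobenius elements at the places of `S` act through nilpotent matrices
  have hXσ : ∀ v ∈ S, IsNilpotent (π.mapMatrix (α (σ v))) := by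
    intro v hvS
    have h0 : Multiplicative.toAdd (X (τ v)) = 0 := by
      by_contra hne
      have h1 : v ∈ J := Finset.mem_filter.2 ⟨hvS, hne⟩
      rw [hJ0] at h1
      exact absurd h1 (Finset.notMem_empty v)
    exact frob_nil hF hXc hreal (hpv v hvS) hin0 P σ τ (fun v => ⟨hP v, hPv v⟩) hσ
      (fun v hv => (hτ v hv).2) h0 hnil
      (hadm {v} (Finset.singleton_subset_iff.2 hvS) (Finset.singleton_nonempty v))
  refine ⟨hrealρ, fun Q hQ hQE t ht => ?_⟩
  set v := place hQ with hv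
  have hvQ : cm Q = v.asIdeal := rfl
  have hvE : v ∉ E := fun h => hQE v h hvQ
  by_cases hpQ : (p : 𝓞 K) ∈ v.asIdeal
  · exact hur Q v hQ hvQ hvE (Or.inl hpQ) t ht
  · obtain ⟨g, hg⟩ := exists_smul (P v) Q (hP v).isPrime hQ.isPrime ((hPv v).trans hvQ.symm)
    have h1 := hlead v hpQ hvE (hXσ v) _ (inertia_conj hg ht)
    rw [map_mul, map_mul, map_inv, mul_assoc, inv_mul_eq_one] at h1
    exact (mul_eq_right.1 h1.symm)

end

end Pool.Agent.V11248.FM
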