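import Pool.Agent.V11248.FM.Rat

/-!
# Quadratic characters of the absolute Galois group of `ℚ` unramified outside `2`
-/

set_option autoImplicit false

namespace Pool.Agent.V11248.FM

open NumberField IsDedekindDomain Pool.Agent.W569.FM Pool.Agent.W571.FM

/-- the sign of an element of `ℤ/2` -/
noncomputable def sg : Multiplicative (ZMod 2) →* OO ℚ where
  toFun u := (-1) ^ (Multiplicative.toAdd u).val
  map_one' := by
    rw [toAdd_one, ZMod.val_zero, pow_zero]
  map_mul' u v := by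
    rw [toAdd_mul]
    exact Pool.Agent.TH831.OT.zpow_val_add (by norm_num) _ _

theorem sg_def (u : Multiplicative (ZMod 2)) : sg u = (-1) ^ (Multiplicative.toAdd u).val := rfl

theorem sg_ne {u : Multiplicative (ZMod 2)} (hu : u ≠ 1) : sg u = -1 := by
  have h1 : ∀ u : Multiplicative (ZMod 2), u = 1 ∨ u = Multiplicative.ofAdd 1 := by decide
  rcases h1 u with h | h
  · exact absurd h hu
  · rw [h, sg_def, toAdd_ofAdd]
    have : (1 : ZMod 2).val = 1 := rfl
    rw [this, pow_one]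

theorem neg_ne {x : OO ℚ} (hx : x ≠ 0) : -x ≠ x := by
  intro h
  apply hx
  have h1 : (2 : OO ℚ) * x = 0 := by linear_combination -h
  rcases mul_eq_zero.1 h1 with h2 | h2
  · exact absurd h2 two_ne_zero
  · exact h2

/-- the quadratic character of a square root -/
theorem exists_sgn (x : OO ℚ) (hx : x ≠ 0) (h : ∀ g : GF ℚ, g • x = x ∨ g • x = -x) :
    ∃ χ : GF ℚ →* Multiplicative (ZMod 2), IsOpen (χ.ker : Set (GF ℚ)) ∧
      ∀ g, g • x = sg (χ g) * x := by
  classical
  have hn := neg_ne hx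
  let χ : GF ℚ →* Multiplicative (ZMod 2) :=
    { toFun := fun g => if g • x = x then 1 else Multiplicative.ofAdd 1
      map_one' := by rw [one_smul, if_pos rfl]
      map_mul' := fun a b => by
        have h11 : (Multiplicative.ofAdd 1 : Multiplicative (ZMod 2)) * Multiplicative.ofAdd 1 =
          1 := by decide
        rcases h a with ha | ha <;> rcases h b with hb | hb
        · have h1 : (a * b) • x = x := by rw [mul_smul, hb, ha]
          rw [if_pos h1, if_pos ha, if_pos hb, mul_one]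
        · have h1 : (a * b) • x = -x := by rw [mul_smul, hb, smul_neg, ha]
          rw [if_neg (by rw [h1]; exact hn), if_pos ha, if_neg (by rw [hb]; exact hn), one_mul]
        · have h1 : (a * b) • x = -x := by rw [mul_smul, hb, ha]
          rw [if_neg (by rw [h1]; exact hn), if_neg (by rw [ha]; exact hn), if_pos hb, mul_one]
        · have h1 : (a * b) • x = x := by rw [mul_smul, hb, smul_neg, ha, neg_neg]
          rw [if_pos h1, if_neg (by rw [ha]; exact hn), if_neg (by rw [hb]; exact hn), h11] }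
  have hχ : ∀ g, χ g = if g • x = x then 1 else Multiplicative.ofAdd 1 := fun g => rfl
  refine ⟨χ, ?_, fun g => ?_⟩
  · have h1 : IsOpen (MulAction.stabilizer (GF ℚ) (x : AlgebraicClosure ℚ) : Set (GF ℚ)) :=
      Pool.Agent.W134.FM.isOpen_stab _
    refine Subgroup.isOpen_mono ?_ h1
    intro g hg
    rw [MulAction.mem_stabilizer_iff] at hg
    rw [MonoidHom.mem_ker, hχ, if_pos]
    apply RingOfIntegers.ext
    exact hg
  · rw [hχ]
    rcases h g with hg | hg
    · rw [if_pos hg, map_one, one_mul, hg]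
    · rw [if_neg (by rw [hg]; exact hn), sg_ne (by decide), hg, neg_one_mul]

/-- a square root of a unit outside `P` -/
theorem sgn_one {P : Ideal (OO ℚ)} (hP : P.IsMaximal) (h2 : (2 : OO ℚ) ∉ P) {x : OO ℚ}
    (hx : x ∉ P) {u : Multiplicative (ZMod 2)} (h : sg u * x - x ∈ P) : u = 1 := by
  by_contra hu
  rw [sg_ne hu] at h
  have h1 : (2 : OO ℚ) * x ∈ P := by
    have h3 := P.neg_mem h
    have h4 : -(-1 * x - x) = 2 * x := by ring
    rwa [h4] at h3
  rcases hP.isPrime.mem_or_mem h1 with h3 | h3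
  · exact h2 h3
  · exact hx h3

theorem dec (d : ℤ) (hd : d ≠ 0) : ∃ (a e k : ℕ) (D q : ℤ),
    d * ((-1) ^ a * 2 ^ e) = (2 ^ k) ^ 2 * D ∧ D = 4 * q + 1 := by
  obtain ⟨c, hc, hc2⟩ := (Int.finiteMultiplicity_iff.2 ⟨by decide, hd⟩ :
    FiniteMultiplicity (2 : ℤ) d).exists_eq_pow_mul_and_not_dvd
  set v := multiplicity (2 : ℤ) d with hv
  have h1 : c % 4 = 1 ∨ c % 4 = 3 := by omega
  rcases h1 with h1 | h1
  · refine ⟨0, v, v, c, c / 4, ?_, by omega⟩
    conv_lhs => rw [hc]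
    ring
  · refine ⟨1, v, v, -c, (-c) / 4, ?_, by omega⟩
    conv_lhs => rw [hc]
    ring

theorem smul_nat (g : GF ℚ) (n : ℕ) : g • (n : OO ℚ) = n :=
  map_natCast (MulSemiringAction.toRingHom (GF ℚ) (OO ℚ) g) n

theorem fixed_mem {F : Type} [Field F] [CharZero F] (x : AlgebraicClosure F)
    (h : ∀ g : GF F, g x = x) : ∃ r : F, algebraMap F (AlgebraicClosure F) r = x := by
  have h1 : x ∈ (⊥ : IntermediateField F (AlgebraicClosure F)) := by
    rw [InfiniteGalois.mem_bot_iff_fixed]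
    exact h
  exact IntermediateField.mem_bot.1 h1

/-- integral elements fixed by the Galois group -/
theorem exists_int {x : OO ℚ} (h : ∀ g : GF ℚ, g • x = x) : ∃ d : ℤ, x = d := by
  obtain ⟨r, hr⟩ := fixed_mem (F := ℚ) (x : AlgebraicClosure ℚ)
    fun g => congrArg (fun y : OO ℚ => (y : AlgebraicClosure ℚ)) (h g)
  have hr' : (r : AlgebraicClosure ℚ) = (x : AlgebraicClosure ℚ) := by
    rw [← hr]
    exact (eq_ratCast _ r).symm
  have h2 : IsIntegral ℤ (algebraMap ℚ (AlgebraicClosure ℚ) r) := by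
    rw [eq_ratCast, hr']
    exact x.2
  have h3 : IsIntegral ℤ r := (isIntegral_algebraMap_iff
    (FaithfulSMul.algebraMap_injective ℚ (AlgebraicClosure ℚ))).1 h2
  obtain ⟨d, hd⟩ := IsIntegrallyClosed.isIntegral_iff.1 h3
  refine ⟨d, RingOfIntegers.ext ?_⟩
  rw [← hr', ← hd]
  simp

theorem conj_gen {F : Type} [Field F] [Algebra F ℝ] [Algebra F ℂ] [IsScalarTower F ℝ ℂ]
    (i : AlgebraicClosure F) (hi : i ^ 2 = -1) : ∃ c : GF F, c * c = 1 ∧ c i = -i := by
  let φ : AlgebraicClosure F →ₐ[F] ℂ := IsAlgClosed.lift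
  letI : Algebra (AlgebraicClosure F) ℂ := φ.toRingHom.toAlgebra
  haveI : IsScalarTower F (AlgebraicClosure F) ℂ := IsScalarTower.of_algebraMap_eq fun x => by
    exact (φ.commutes x).symm
  let conj : ℂ ≃ₐ[F] ℂ := Complex.conjAe.restrictScalars F
  let c : GF F := conj.restrictNormal (AlgebraicClosure F)
  have hc : ∀ x : AlgebraicClosure F, φ (c x) = conj (φ x) :=
    fun x => AlgEquiv.restrictNormal_commutes conj (AlgebraicClosure F) x
  have hcc : ∀ z : ℂ, conj (conj z) = z := fun z => Complex.conj_conj z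
  refine ⟨c, ?_, ?_⟩
  · apply AlgEquiv.ext
    intro x
    apply φ.injective
    show φ (c (c x)) = φ x
    rw [hc, hc, hcc]
  · apply φ.injective
    show φ (c i) = φ (-i)
    rw [hc, map_neg]
    have h1 : (φ i) ^ 2 = -1 := by
      rw [← map_pow, hi, map_neg, map_one]
    have h2 : (φ i - Complex.I) * (φ i + Complex.I) = 0 := by
      have h3 := Complex.I_sq
      linear_combination h1 - h3
    rcases mul_eq_zero.1 h2 with h3 | h3
    · rw [sub_eq_zero.1 h3]
      exact Complex.conj_I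
    · rw [eq_neg_of_add_eq_zero_left h3]
      show (starRingEnd ℂ) (-Complex.I) = _
      rw [map_neg, Complex.conj_I]

/-- complex conjugation -/
theorem exists_conj (i : OO ℚ) (hi : i ^ 2 = -1) : ∃ c : GF ℚ, c * c = 1 ∧ c • i = -i := by
  obtain ⟨c, h1, h2⟩ := conj_gen (F := ℚ) (i : AlgebraicClosure ℚ) (by
    have h2 := congrArg (fun y : OO ℚ => (y : AlgebraicClosure ℚ)) hi
    simpa using h2)
  refine ⟨c, h1, RingOfIntegers.ext ?_⟩
  exact h2

/-- **quadratic characters unramified outside `2`** -/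
theorem two_char {χi χs : GF ℚ →* Multiplicative (ZMod 2)} {i s : OO ℚ} (hi : i ^ 2 = -1)
    (hs : s ^ 2 = 2) (hoi : IsOpen (χi.ker : Set (GF ℚ))) (hos : IsOpen (χs.ker : Set (GF ℚ)))
    (hχi : ∀ g, g • i = sg (χi g) * i) (hχs : ∀ g, g • s = sg (χs g) * s)
    (F : GF ℚ →* Multiplicative (ZMod 2)) (hF : IsOpen (F.ker : Set (GF ℚ)))
    (hFu : ∀ P : Ideal (OO ℚ), P.IsMaximal → ((2 : ℕ) : OO ℚ) ∉ P → ∀ τ : GF ℚ,
      InInertia P τ → F τ = 1) :
    ∃ a e : ℕ, ∀ g, F g * χi g ^ a * χs g ^ e = 1 := by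
  by_cases hF1 : ∀ g, F g = 1
  · exact ⟨0, 0, fun g => by rw [hF1, pow_zero, pow_zero, mul_one, mul_one]⟩
  push Not at hF1
  obtain ⟨h0, hh0⟩ := hF1
  have hf0 : F h0 = Multiplicative.ofAdd 1 := by
    have h1 : ∀ u : Multiplicative (ZMod 2), u = 1 ∨ u = Multiplicative.ofAdd 1 := by decide
    exact (h1 _).resolve_left hh0
  have hz : IsPrimitiveRoot (-1 : OO ℚ) 2 := IsPrimitiveRoot.neg_one 0 (by decide)
  have hsm : ∀ g : GF ℚ, g • (-1 : OO ℚ) = -1 := fun g => by rw [smul_neg, smul_one]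
  obtain ⟨β, hβ0, hβ⟩ := Pool.Agent.TH831.OT.exists_beta hz F hF h0 (hsm h0) hf0
  have hβ' : ∀ g : GF ℚ, g • β = sg (F g) * β := fun g => hβ g (hsm g)
  have hsg2 : ∀ u, sg u * sg u = 1 := by
    intro u
    rw [← map_mul]
    have h1 : ∀ u : Multiplicative (ZMod 2), u * u = 1 := by decide
    rw [h1, map_one]
  have hsgf : ∀ (g : GF ℚ) (u : Multiplicative (ZMod 2)), g • sg u = sg u := by
    intro g u
    rw [sg_def, smul_pow', hsm]
  obtain ⟨d, hd⟩ := exists_int (x := β ^ 2) fun g => by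
    rw [smul_pow', hβ' g, mul_pow, sq (sg (F g)), hsg2, one_mul]
  have hd0 : d ≠ 0 := by
    rintro rfl
    rw [Int.cast_zero] at hd
    exact hβ0 (pow_eq_zero_iff (two_ne_zero) |>.1 hd)
  obtain ⟨a, e, k, D, q, h1, h2⟩ := dec d hd0
  set η := β * (i ^ a * s ^ e) with hη
  have hη2 : η ^ 2 = (2 ^ k) ^ 2 * (D : OO ℚ) := by
    have h3 : η ^ 2 = β ^ 2 * ((i ^ 2) ^ a * (s ^ 2) ^ e) := by
      rw [hη]
      ring
    rw [h3, hd, hi, hs]
    exact_mod_cast congrArg (Int.cast : ℤ → OO ℚ) h1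
  have hηg : ∀ g : GF ℚ, g • η = sg (F g * χi g ^ a * χs g ^ e) * η := by
    intro g
    rw [hη, smul_mul', smul_mul', smul_pow', smul_pow', hβ', hχi, hχs, map_mul, map_mul, map_pow,
      map_pow]
    ring
  obtain ⟨γ, hγD, hηγ⟩ : ∃ γ : OO ℚ, γ ^ 2 = D ∧ η = 2 ^ k * γ := by
    obtain ⟨z, hz⟩ := IsAlgClosed.exists_pow_nat_eq (D : AlgebraicClosure ℚ) (n := 2) (by norm_num)
    have hzi : IsIntegral ℤ z := by
      refine IsIntegral.of_pow (n := 2) (by norm_num) ?_
      rw [hz]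
      exact isIntegral_algebraMap (R := ℤ) (x := D)
    let γ : OO ℚ := ⟨z, hzi⟩
    have hγ : γ ^ 2 = D := by
      apply RingOfIntegers.coe_injective
      rw [map_pow, map_intCast]
      exact hz
    have h3 : (η - 2 ^ k * γ) * (η + 2 ^ k * γ) = 0 := by
      linear_combination hη2 - (2 ^ k) ^ 2 * hγ
    rcases mul_eq_zero.1 h3 with h4 | h4
    · exact ⟨γ, hγ, sub_eq_zero.1 h4⟩
    · exact ⟨-γ, by rw [neg_sq, hγ], by linear_combination h4⟩
  have h2k : (2 : OO ℚ) ^ k ≠ 0 := pow_ne_zero _ two_ne_zero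
  have hγg : ∀ g : GF ℚ, g • γ = sg (F g * χi g ^ a * χs g ^ e) * γ := by
    intro g
    apply mul_left_cancel₀ h2k
    have h3 := hηg g
    have h4 : g • ((2 : OO ℚ) ^ k) = 2 ^ k := by
      have h5 := smul_nat g (2 ^ k)
      rw [Nat.cast_pow] at h5
      exact h5
    rw [hηγ, smul_mul', h4] at h3
    rw [h3]
    ring
  obtain ⟨x, hx⟩ : ∃ x : OO ℚ, 2 * x = 1 + γ := by
    have hxi : IsIntegral ℤ ((1 + (γ : AlgebraicClosure ℚ)) / 2) := by
      refine ⟨Polynomial.X ^ 2 - Polynomial.X - Polynomial.C q, by monicity!, ?_⟩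
      have h3 : (γ : AlgebraicClosure ℚ) ^ 2 = 4 * q + 1 := by
        have h4 := congrArg (algebraMap (OO ℚ) (AlgebraicClosure ℚ)) hγD
        rw [h2, map_pow, map_intCast] at h4
        push_cast at h4
        exact h4
      rw [Polynomial.eval₂_sub, Polynomial.eval₂_sub, Polynomial.eval₂_X_pow, Polynomial.eval₂_X,
        Polynomial.eval₂_C, eq_intCast]
      linear_combination h3 / 4
    refine ⟨⟨_, hxi⟩, RingOfIntegers.coe_injective ?_⟩
    rw [map_mul, map_add, map_one, map_ofNat]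
    show 2 * ((1 + (γ : AlgebraicClosure ℚ)) / 2) = 1 + (γ : AlgebraicClosure ℚ)
    field_simp
  refine ⟨a, e, fun g => ?_⟩
  have hopen : IsOpen ((F * χi ^ a * χs ^ e).ker : Set (GF ℚ)) := by
    have h3 : IsOpen ((F.ker ⊓ χi.ker ⊓ χs.ker : Subgroup (GF ℚ)) : Set (GF ℚ)) := by
      rw [Subgroup.coe_inf, Subgroup.coe_inf]
      exact (hF.inter hoi).inter hos
    refine Subgroup.isOpen_mono ?_ h3
    rintro g ⟨⟨h4, h5⟩, h6⟩
    rw [MonoidHom.mem_ker]
    have h4' : F g = 1 := h4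
    have h5' : χi g = 1 := h5
    have h6' : χs g = 1 := h6
    show F g * χi g ^ a * χs g ^ e = 1
    rw [h4', h5', h6', one_pow, one_pow, mul_one, mul_one]
  refine (Pool.Agent.W215.FM.main : S_GEN) _ (F * χi ^ a * χs ^ e) hopen (fun P hP τ hτ => ?_) g
  show F τ * χi τ ^ a * χs τ ^ e = 1
  by_cases h2P : (2 : OO ℚ) ∈ P
  · by_contra hne
    have h3 := hγg τ
    rw [sg_ne hne] at h3
    have h4 : τ • x - x = -γ := by
      apply mul_left_cancel₀ (two_ne_zero (α := OO ℚ))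
      have h5 := congrArg (fun y => τ • y) hx
      simp only [smul_mul', smul_add, smul_one] at h5
      have h6 := smul_nat τ 2
      rw [Nat.cast_ofNat] at h6
      rw [h6, h3] at h5
      linear_combination h5 - hx
    have h5 : γ ∈ P := by
      have h6 := P.neg_mem (hτ x)
      rwa [h4, neg_neg] at h6
    have h6 : (1 : OO ℚ) ∈ P := by
      have h7 := P.sub_mem (P.mul_mem_left γ h5) (P.mul_mem_left (2 * (q : OO ℚ)) h2P)
      have h8 : γ * γ - 2 * (q : OO ℚ) * 2 = 1 := by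
        have h9 : γ ^ 2 = 4 * (q : OO ℚ) + 1 := by
          rw [hγD, h2]
          push_cast
          ring
        linear_combination h9
      rwa [h8] at h7
    exact hP.ne_top ((Ideal.eq_top_iff_one _).2 h6)
  · have hiP : i ∉ P := by
      intro h
      have h3 := P.mul_mem_left i h
      rw [← sq, hi] at h3
      exact hP.ne_top ((Ideal.eq_top_iff_one _).2 (by simpa using P.neg_mem h3))
    have hsP : s ∉ P := by
      intro h
      have h3 := P.mul_mem_left s h
      rw [← sq, hs] at h3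
      exact h2P h3
    have h3 := hτ i
    have h4 := hτ s
    rw [hχi] at h3
    rw [hχs] at h4
    rw [hFu P hP (by exact_mod_cast h2P) τ hτ, sgn_one hP h2P hiP h3, sgn_one hP h2P hsP h4,
      one_pow, one_pow, mul_one, mul_one]

theorem two_data : ∃ (i s : OO ℚ) (χi χs : GF ℚ →* Multiplicative (ZMod 2)),
    i ^ 2 = -1 ∧ s ^ 2 = 2 ∧ IsOpen (χi.ker : Set (GF ℚ)) ∧ IsOpen (χs.ker : Set (GF ℚ)) ∧
    (∀ g, g • i = sg (χi g) * i) ∧ (∀ g, g • s = sg (χs g) * s) ∧
    (∀ (P : Ideal (OO ℚ)) (l : ℕ) (σ : GF ℚ), P.IsMaximal → ((2 : ℕ) : OO ℚ) ∉ P → 1 ≤ l →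
      8 ∣ l - 1 → FrobAt l P σ → χi σ = 1 ∧ χs σ = 1) ∧
    ∃ c : GF ℚ, c * c = 1 ∧ χi c ≠ 1 := by
  obtain ⟨z₀, hz₀⟩ := IsAlgClosed.exists_pow_nat_eq (-1 : AlgebraicClosure ℚ) (n := 4)
    (by norm_num)
  have hzi : IsIntegral ℤ z₀ := by
    refine IsIntegral.of_pow (n := 4) (by norm_num) ?_
    rw [hz₀]
    exact isIntegral_one.neg
  let z : OO ℚ := ⟨z₀, hzi⟩
  have hz : z ^ 4 = -1 := by
    apply RingOfIntegers.coe_injective
    rw [map_pow, map_neg, map_one]
    exact hz₀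
  clear_value z
  set i := z ^ 2 with hi'
  set s := z - z ^ 3 with hs'
  have hi : i ^ 2 = -1 := by
    rw [hi', ← pow_mul]
    exact hz
  have hs : s ^ 2 = 2 := by
    rw [hs']
    linear_combination (z ^ 2 - 2) * hz
  have hi0 : i ≠ 0 := by
    intro h
    rw [h] at hi
    have h1 : (1 : OO ℚ) = 0 := by linear_combination hi
    exact one_ne_zero h1
  have hs0 : s ≠ 0 := by
    intro h
    rw [h] at hs
    have h1 : (2 : OO ℚ) = 0 := by linear_combination -hs
    exact two_ne_zero h1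
  obtain ⟨χi, hχio, hχi⟩ := exists_sgn i hi0 (fun g => by
    have h1 : (g • i - i) * (g • i + i) = 0 := by
      have h2 : (g • i) ^ 2 = -1 := by rw [← smul_pow', hi, smul_neg, smul_one]
      linear_combination h2 - hi
    rcases mul_eq_zero.1 h1 with h2 | h2
    · exact Or.inl (sub_eq_zero.1 h2)
    · exact Or.inr (eq_neg_of_add_eq_zero_left h2))
  obtain ⟨χs, hχso, hχs⟩ := exists_sgn s hs0 (fun g => by
    have h1 : (g • s - s) * (g • s + s) = 0 := by
      have h2 : (g • s) ^ 2 = 2 := by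
        have h3 := smul_nat g 2
        rw [Nat.cast_ofNat] at h3
        rw [← smul_pow', hs, h3]
      linear_combination h2 - hs
    rcases mul_eq_zero.1 h1 with h2 | h2
    · exact Or.inl (sub_eq_zero.1 h2)
    · exact Or.inr (eq_neg_of_add_eq_zero_left h2))
  refine ⟨i, s, χi, χs, hi, hs, hχio, hχso, hχi, hχs, ?_, ?_⟩
  · intro P l σ hP h2P hl1 hl hσ
    have hz8 : z ^ 8 = 1 := by
      have : z ^ 8 = (z ^ 4) ^ 2 := by ring
      rw [this, hz]
      ring
    have hzl : z ^ l = z := by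
      obtain ⟨k, hk⟩ := hl
      have h1 : l = 8 * k + 1 := by omega
      rw [h1, pow_succ, pow_mul, hz8, one_pow, one_mul]
    have h8 : ((8 : ℕ) : OO ℚ) ∉ P := by
      intro h
      have h1 : ((8 : ℕ) : OO ℚ) = ((2 : ℕ) : OO ℚ) ^ 3 := by norm_num
      rw [h1] at h
      exact h2P (hP.isPrime.mem_of_pow_mem 3 h)
    have hσz : σ • z = z := by
      refine root_eq h8 ?_ hz8 ?_ (by norm_num)
      · rw [← smul_pow', hz8, smul_one]
      · have h1 := hσ z
        rwa [hzl] at h1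
    have h1 : σ • i = i := by rw [hi', smul_pow', hσz]
    have h2 : σ • s = s := by rw [hs', smul_sub, smul_pow', hσz]
    constructor
    · by_contra hne
      rw [hχi, sg_ne hne, neg_one_mul] at h1
      exact neg_ne hi0 h1
    · by_contra hne
      rw [hχs, sg_ne hne, neg_one_mul] at h2
      exact neg_ne hs0 h2
  · obtain ⟨c, h1, h2⟩ := exists_conj i hi
    refine ⟨c, h1, fun h => ?_⟩
    rw [hχi, h, map_one, one_mul] at h2
    exact neg_ne hi0 h2.symm

/-- primes which are `1` modulo `8` split in the quadratic extensions unramified outside `2` -/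
theorem two_split {F : GF ℚ →* Multiplicative (ZMod 2)} (hF : IsOpen (F.ker : Set (GF ℚ)))
    (hFu : ∀ P : Ideal (OO ℚ), P.IsMaximal → ((2 : ℕ) : OO ℚ) ∉ P → ∀ τ : GF ℚ,
      InInertia P τ → F τ = 1) {P : Ideal (OO ℚ)} (hP : P.IsMaximal)
    (h2P : ((2 : ℕ) : OO ℚ) ∉ P) {l : ℕ} (hl1 : 1 ≤ l) (hl : 8 ∣ l - 1) {σ : GF ℚ}
    (hσ : FrobAt l P σ) : F σ = 1 := by
  obtain ⟨i, s, χi, χs, hi, hs, hoi, hos, hχi, hχs, hfr, -⟩ := two_data
  obtain ⟨a, e, h⟩ := two_char hi hs hoi hos hχi hχs F hF hFu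
  obtain ⟨h1, h2⟩ := hfr P l σ hP h2P hl1 hl hσ
  have h3 := h σ
  rwa [h1, h2, one_pow, one_pow, mul_one, mul_one] at h3

/-- there is only one real quadratic extension of `ℚ` unramified outside `2` -/
theorem two_one (E : Set (HeightOneSpectrum (𝓞 ℚ)))
    (hE : ∀ v ∈ E, ((2 : ℕ) : 𝓞 ℚ) ∈ v.asIdeal) (χ χ' : GF ℚ →* Multiplicative (ZMod 2))
    (h : UO 2 E χ) (h' : UO 2 E χ') (hne : ∃ h, χ h ≠ 1) (g : GF ℚ) (hg : χ g = 1) :
    χ' g = 1 := by
  obtain ⟨i, s, χi, χs, hi, hs, hoi, hos, hχi, hχs, -, c, hcc, hc⟩ := two_data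
  set W : GF ℚ → ZMod 2 := fun g => Multiplicative.toAdd (χs c) * Multiplicative.toAdd (χi g) -
    Multiplicative.toAdd (χi c) * Multiplicative.toAdd (χs g) with hW
  have hc0 : Multiplicative.toAdd (χi c) ≠ 0 := fun h => hc (Multiplicative.toAdd.injective h)
  have key : ∀ F : GF ℚ →* Multiplicative (ZMod 2), UO 2 E F → ∃ e : ZMod 2, ∀ g,
      Multiplicative.toAdd (χi c) * Multiplicative.toAdd (F g) = e * W g := by
    intro F hFE
    obtain ⟨a, e, h1⟩ := two_char hi hs hoi hos hχi hχs F hFE.open_ker (fun P hP h2P τ hτ =>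
      hFE.inertia P hP (fun v hv hPv => h2P (by
        apply natCast_mem_cm.1
        rw [hPv]
        exact hE v hv)) τ hτ)
    have h2 : ∀ g, Multiplicative.toAdd (F g) + a * Multiplicative.toAdd (χi g) +
        e * Multiplicative.toAdd (χs g) = 0 := by
      intro g
      have h3 := congrArg Multiplicative.toAdd (h1 g)
      rwa [toAdd_mul, toAdd_mul, toAdd_pow, toAdd_pow, nsmul_eq_mul, nsmul_eq_mul, toAdd_one] at h3
    have h3 := h2 c
    rw [hFE.real c hcc, toAdd_one, zero_add] at h3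
    refine ⟨e, fun g => ?_⟩
    rw [hW]
    linear_combination Multiplicative.toAdd (χi c) * h2 g - Multiplicative.toAdd (χi g) * h3
  obtain ⟨e, h1⟩ := key χ h
  obtain ⟨e', h1'⟩ := key χ' h'
  obtain ⟨x, hx⟩ := hne
  have he : e ≠ 0 := by
    rintro rfl
    have h2 := h1 x
    rw [zero_mul] at h2
    exact hx (Multiplicative.toAdd.injective ((mul_eq_zero.1 h2).resolve_left hc0))
  have h2 := h1 g
  rw [hg, toAdd_one, mul_zero] at h2
  have h3 := (mul_eq_zero.1 h2.symm).resolve_left he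
  have h4 := h1' g
  rw [h3, mul_zero] at h4
  exact Multiplicative.toAdd.injective ((mul_eq_zero.1 h4).resolve_left hc0)

end Pool.Agent.V11248.FM
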