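import Pool.Agent.V11248.FM.Two
import Pool.Agent.V11248.FM.Ads
import Pool.Agent.V11248.FM.StepT

/-!
# The adjoint representation of `GL 2` in characteristic two
-/

set_option autoImplicit false

namespace Pool.Agent.V11248.FM

open NumberField IsDedekindDomain Matrix IsLocalRing Pool.Agent.W569.FM Pool.Agent.W571.FM

open scoped Kronecker

section
variable {R : Type} [CommRing R] {n : ℕ}

/-- the adjoint representation of the Lie algebra -/
noncomputable def adl (y : Matrix (Fin n) (Fin n) R) : Matrix (Fin (n * n)) (Fin (n * n)) R :=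
  (y ⊗ₖ (1 : Matrix (Fin n) (Fin n) R) - (1 : Matrix (Fin n) (Fin n) R) ⊗ₖ yᵀ).submatrix
    finProdFinEquiv.symm finProdFinEquiv.symm

theorem adl_apply (y : Matrix (Fin n) (Fin n) R) (a b : Fin (n * n)) : adl y a b =
    y (finProdFinEquiv.symm a).1 (finProdFinEquiv.symm b).1 *
      (1 : Matrix (Fin n) (Fin n) R) (finProdFinEquiv.symm a).2 (finProdFinEquiv.symm b).2 -
    (1 : Matrix (Fin n) (Fin n) R) (finProdFinEquiv.symm a).1 (finProdFinEquiv.symm b).1 *
      y (finProdFinEquiv.symm b).2 (finProdFinEquiv.symm a).2 := rfl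

theorem adl_of {p : ℕ} {A : Type} [CommRing A] (hreg : ∀ a : A, (p : A) * a = 0 → a = 0)
    (π : A →+* R) (hπp : π (p : A) = 0) {m : ℕ} (hm : 1 ≤ m) {M : GL (Fin 2) A} {a : A}
    {B : Matrix (Fin 2) (Fin 2) A}
    (hM : (M : Matrix (Fin 2) (Fin 2) A) = a • 1 + ((p : A) ^ m) • B)
    {α : Matrix (Fin (2 * 2)) (Fin (2 * 2)) A}
    (hα : (ad M : Matrix (Fin (2 * 2)) (Fin (2 * 2)) A) = 1 + ((p : A) ^ m) • α) :
    ∃ y : Matrix (Fin 2) (Fin 2) R, π.mapMatrix α = adl y := by
  set N := ((M⁻¹ : GL (Fin 2) A) : Matrix (Fin 2) (Fin 2) A) with hN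
  have hMN : (M : Matrix (Fin 2) (Fin 2) A) * N = 1 := M.mul_inv
  have h1 : a • N + ((p : A) ^ m) • (B * N) = 1 := by
    rw [← hMN, hM, add_mul, smul_mul_assoc, smul_mul_assoc, one_mul]
  have hcan : ∀ (k : ℕ) (a b : A), (p : A) ^ k * a = (p : A) ^ k * b → a = b := by
    intro k a b hab
    induction k with
    | zero => simpa using hab
    | succ k ih =>
      apply ih
      rw [pow_succ', mul_assoc, mul_assoc, ← sub_eq_zero, ← mul_sub] at hab
      exact sub_eq_zero.1 (hreg _ hab)
  have h2 : ∀ x y, α x y = B (finProdFinEquiv.symm x).1 (finProdFinEquiv.symm y).1 *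
      N (finProdFinEquiv.symm y).2 (finProdFinEquiv.symm x).2 -
      (1 : Matrix (Fin 2) (Fin 2) A) (finProdFinEquiv.symm x).1 (finProdFinEquiv.symm y).1 *
      (B * N) (finProdFinEquiv.symm y).2 (finProdFinEquiv.symm x).2 := by
    intro x y
    apply hcan m
    have h3 := congrFun (congrFun hα x) y
    rw [ad_val, adm_apply, ← hN, hM, Matrix.add_apply, Matrix.add_apply, one_entry,
      Matrix.smul_apply, Matrix.smul_apply, Matrix.smul_apply, smul_eq_mul, smul_eq_mul,
      smul_eq_mul] at h3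
    have h4 := congrFun (congrFun h1 (finProdFinEquiv.symm y).2) (finProdFinEquiv.symm x).2
    rw [Matrix.add_apply, Matrix.smul_apply, Matrix.smul_apply, smul_eq_mul, smul_eq_mul] at h4
    linear_combination -h3 + (1 : Matrix (Fin 2) (Fin 2) A) (finProdFinEquiv.symm x).1
      (finProdFinEquiv.symm y).1 * h4
  have hπm : π ((p : A) ^ m) = 0 := by rw [map_pow, hπp, zero_pow (by omega)]
  have h3 : ∀ i j, π a * π (N i j) = (1 : Matrix (Fin 2) (Fin 2) R) i j := by
    intro i j
    have h4 := congrArg π (congrFun (congrFun h1 i) j)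
    rw [Matrix.add_apply, Matrix.smul_apply, Matrix.smul_apply, smul_eq_mul, smul_eq_mul,
      map_add, map_mul, map_mul, hπm, zero_mul, add_zero] at h4
    rw [h4, Matrix.one_apply, Matrix.one_apply]
    split_ifs
    · exact map_one π
    · exact map_zero π
  set b := π (N 0 0) with hb
  have hab : π a * b = 1 := by
    rw [hb, h3, Matrix.one_apply_eq]
  have h4 : ∀ i j, π (N i j) = b * (1 : Matrix (Fin 2) (Fin 2) R) i j := by
    intro i j
    rw [← h3 i j]
    linear_combination -π (N i j) * hab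
  refine ⟨b • π.mapMatrix B, ?_⟩
  ext x y
  rw [RingHom.mapMatrix_apply, Matrix.map_apply, h2, adl_apply]
  generalize (finProdFinEquiv.symm x).1 = i
  generalize (finProdFinEquiv.symm y).1 = j
  generalize (finProdFinEquiv.symm x).2 = i'
  generalize (finProdFinEquiv.symm y).2 = j'
  rw [map_sub, map_mul, map_mul, h4, Matrix.smul_apply, Matrix.smul_apply,
    RingHom.mapMatrix_apply, Matrix.map_apply, Matrix.map_apply, smul_eq_mul, smul_eq_mul]
  have h5 : π ((1 : Matrix (Fin 2) (Fin 2) A) i j) = (1 : Matrix (Fin 2) (Fin 2) R) i j := by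
    rw [Matrix.one_apply, Matrix.one_apply]
    split_ifs
    · exact map_one π
    · exact map_zero π
  have h6 : π ((B * N) j' i') = b * π (B j' i') := by
    rw [Matrix.mul_apply, map_sum]
    simp only [map_mul, h4]
    rw [Finset.sum_eq_single i']
    · rw [Matrix.one_apply_eq]
      ring
    · intro k _ hk
      rw [Matrix.one_apply_ne hk]
      ring
    · intro h
      exact absurd (Finset.mem_univ _) h
  have h7 : (1 : Matrix (Fin 2) (Fin 2) R) j' i' = (1 : Matrix (Fin 2) (Fin 2) R) i' j' := by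
    rw [Matrix.one_apply, Matrix.one_apply]
    simp only [eq_comm]
  rw [h5, h6, h7]
  ring

/-- the index of the matrix entry which computes the trace -/
def x₀ : Fin (2 * 2) := finProdFinEquiv (0, 1)

theorem adl_sq (h2 : (2 : R) = 0) (y : Matrix (Fin 2) (Fin 2) R) :
    adl y * adl y = (adl y x₀ x₀) • adl y := by
  have ht : adl y x₀ x₀ = y 0 0 + y 1 1 := by
    rw [adl_apply, x₀, Equiv.symm_apply_apply, Matrix.one_apply_eq, Matrix.one_apply_eq]
    linear_combination -(y 1 1) * h2
  have hCH : y * y = (y 0 0 + y 1 1) • y - (y 0 0 * y 1 1 - y 0 1 * y 1 0) • 1 := by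
    ext i j
    rw [Matrix.mul_apply, Fin.sum_univ_two, Matrix.sub_apply, Matrix.smul_apply,
      Matrix.smul_apply, smul_eq_mul, smul_eq_mul]
    fin_cases i <;> fin_cases j <;> simp <;> ring
  set t := y 0 0 + y 1 1 with hteq
  set d := y 0 0 * y 1 1 - y 0 1 * y 1 0 with hd
  set L := y ⊗ₖ (1 : Matrix (Fin 2) (Fin 2) R) with hL
  set Q := (1 : Matrix (Fin 2) (Fin 2) R) ⊗ₖ yᵀ with hQ
  have hLL : L * L = t • L - d • 1 := by
    rw [hL, ← mul_kronecker_mul, one_mul, hCH]
    ext ⟨i, i'⟩ ⟨j, j'⟩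
    simp only [kroneckerMap_apply, Matrix.sub_apply, Matrix.smul_apply, smul_eq_mul]
    rw [← one_kronecker_one, kroneckerMap_apply]
    ring
  have hQQ : Q * Q = t • Q - d • 1 := by
    rw [hQ, ← mul_kronecker_mul, one_mul, ← transpose_mul, hCH]
    ext ⟨i, i'⟩ ⟨j, j'⟩
    simp only [kroneckerMap_apply, Matrix.sub_apply, Matrix.smul_apply, smul_eq_mul,
      Matrix.transpose_apply]
    rw [← one_kronecker_one, kroneckerMap_apply]
    have h7 : (1 : Matrix (Fin 2) (Fin 2) R) j' i' = (1 : Matrix (Fin 2) (Fin 2) R) i' j' := by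
      rw [Matrix.one_apply, Matrix.one_apply]
      simp only [eq_comm]
    rw [h7]
    ring
  have hc : Q * L = L * Q := by
    rw [hQ, hL, ← mul_kronecker_mul, ← mul_kronecker_mul, one_mul, mul_one, one_mul, mul_one]
  have h3 : (L - Q) * (L - Q) = t • (L - Q) := by
    have h4 : (L - Q) * (L - Q) = t • (L - Q) + (2 : R) • (t • Q - L * Q - d • 1) := by
      simp only [sub_mul, mul_sub, hLL, hQQ, hc]
      module
    rw [h4, h2, zero_smul, add_zero]
  rw [ht, adl, submatrix_mul_equiv, h3]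
  rfl

/-- there are no nonzero eigenvectors -/
theorem kill [IsLocalRing R] (h2 : (2 : R) = 0) {k : ℕ} {Y v : Matrix (Fin k) (Fin k) R} {t : R}
    (ht : t ∈ maximalIdeal R) (hY : Y * Y = t • Y) (h : Y * v - v * Y = v) : v = 0 := by
  have h1 : t • v = Y * Y * v - v * (Y * Y) := by
    rw [hY, smul_mul_assoc, mul_smul_comm, ← smul_sub, h]
  have h3 : Y * Y * v - v * (Y * Y) = v := by
    have h4 : Y * Y * v - v * (Y * Y) = Y * (Y * v - v * Y) + (Y * v - v * Y) * Y := by
      noncomm_ring
    rw [h4, h]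
    have h5 : Y * v + v * Y = (Y * v - v * Y) + (2 : R) • (v * Y) := by
      rw [two_smul]
      abel
    rw [h5, h, h2, zero_smul, add_zero]
  rw [h3] at h1
  have hu : IsUnit (1 - t) := by
    by_contra hcon
    have h4 : 1 - t ∈ maximalIdeal R := hcon
    have h5 := (maximalIdeal R).add_mem h4 ht
    rw [sub_add_cancel] at h5
    exact h5 isUnit_one
  have h6 : (1 - t) • v = (1 - t) • (0 : Matrix (Fin k) (Fin k) R) := by
    rw [smul_zero, sub_smul, one_smul, h1, sub_self]
  exact hu.smul_left_cancel.1 h6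

end

end Pool.Agent.V11248.FM
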