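import Pool.Agent.V11248.FM.TwoAd

/-!
# Two-dimensional representations which are scalar modulo a power of two
-/

set_option autoImplicit false

namespace Pool.Agent.V11248.FM

open NumberField IsDedekindDomain Matrix IsLocalRing Pool.Agent.W569.FM Pool.Agent.W571.FM

section
variable {R : Type} [CommRing R] [IsLocalRing R] [Algebra (ZMod 2) R]

/-- functionals on matrices attached to functionals on the residue field -/
noncomputable def phi (φ : Module.Dual (ZMod 2) (ResidueField R)) :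
    Matrix (Fin (2 * 2)) (Fin (2 * 2)) R →ₗ[ZMod 2] ZMod 2 :=
  AddMonoidHom.toZModLinearMap 2
    { toFun := fun M => φ (residue R (M x₀ x₀))
      map_zero' := by rw [Matrix.zero_apply, map_zero, map_zero]
      map_add' := fun M N => by rw [Matrix.add_apply, map_add, map_add] }

theorem phi_apply (φ : Module.Dual (ZMod 2) (ResidueField R))
    (M : Matrix (Fin (2 * 2)) (Fin (2 * 2)) R) : phi φ M = φ (residue R (M x₀ x₀)) := rfl

variable [IsNoetherianRing R]

/-- the Frobenius elements at the places in `S` act through nilpotent matrices -/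
theorem two_step {m : ℕ} (hm : 3 ≤ m) (S E : Set (HeightOneSpectrum (𝓞 ℚ)))
    (hS : ∀ v ∈ S, 2 ^ m ∣ nm v - 1 ∧ ¬ 2 ^ (m + 1) ∣ nm v - 1)
    (hE : ∀ v : HeightOneSpectrum (𝓞 ℚ), v ∈ E ↔ ((2 : ℕ) : 𝓞 ℚ) ∈ v.asIdeal)
    (X : GF ℚ →* Multiplicative (Matrix (Fin (2 * 2)) (Fin (2 * 2)) R))
    (P : HeightOneSpectrum (𝓞 ℚ) → Ideal (OO ℚ)) (σ τ : HeightOneSpectrum (𝓞 ℚ) → GF ℚ)
    (had : ∀ g, ∃ y : Matrix (Fin 2) (Fin 2) R, Multiplicative.toAdd (X g) = adl y)
    (hXc : ∀ N : ℕ, ∀ᶠ g in nhds (1 : GF ℚ),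
      Multiplicative.toAdd (X g) ∈ filM 2 (2 * 2) (maximalIdeal R ^ N))
    (hreal : ∀ c : GF ℚ, c * c = 1 → X c = 1)
    (hin : ∀ Q : Ideal (OO ℚ), Q.IsMaximal → (∀ v ∈ S, cm Q ≠ v.asIdeal) →
      (∀ v ∈ E, cm Q ≠ v.asIdeal) → ∀ t : GF ℚ, InInertia Q t → X t = 1)
    (hP : ∀ v, (P v).IsMaximal ∧ cm (P v) = v.asIdeal) (hσ : ∀ v, FrobAt (nm v) (P v) (σ v))
    (hτ : ∀ v : HeightOneSpectrum (𝓞 ℚ), ((2 : ℕ) : 𝓞 ℚ) ∉ v.asIdeal → InInertia (P v) (τ v) ∧
      ∀ t : GF ℚ, InInertia (P v) t → Multiplicative.toAdd (X t) ∈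
        Submodule.span (ZMod 2) {Multiplicative.toAdd (X (τ v))})
    (hnil : ∀ v : HeightOneSpectrum (𝓞 ℚ), ((2 : ℕ) : 𝓞 ℚ) ∉ v.asIdeal →
      IsNilpotent (Multiplicative.toAdd (X (τ v))))
    (hpv : ∀ v ∈ S, ((2 : ℕ) : 𝓞 ℚ) ∉ v.asIdeal)
    (hrel : ∀ v ∈ S, ∀ u : ℕ, nm v = 2 ^ m * u + 1 →
      Multiplicative.toAdd (X (σ v)) * Multiplicative.toAdd (X (τ v)) -
      Multiplicative.toAdd (X (τ v)) * Multiplicative.toAdd (X (σ v)) =
        (u : ZMod 2) • Multiplicative.toAdd (X (τ v))) :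
    ∀ v ∈ S, IsNilpotent (Multiplicative.toAdd (X (σ v))) := by
  classical
  have h2R : (2 : R) = 0 := by
    have h1 : algebraMap (ZMod 2) R 2 = 0 := by
      have : (2 : ZMod 2) = 0 := by decide
      rw [this, map_zero]
    rwa [map_ofNat] at h1
  have hF : Fil (p := 2) (fun N => filM 2 (2 * 2) (maximalIdeal R ^ N)) := fil_max
  have hsq : ∀ g, Multiplicative.toAdd (X g) * Multiplicative.toAdd (X g) =
      (Multiplicative.toAdd (X g) x₀ x₀) • Multiplicative.toAdd (X g) := by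
    intro g
    obtain ⟨y, hy⟩ := had g
    rw [hy]
    exact adl_sq h2R y
  have h2P : ∀ v : HeightOneSpectrum (𝓞 ℚ), ((2 : ℕ) : 𝓞 ℚ) ∉ v.asIdeal →
      ((2 : ℕ) : OO ℚ) ∉ P v := by
    intro v hv h
    apply hv
    have h1 := natCast_mem_cm.2 h
    rwa [(hP v).2] at h1
  -- the trace is nilpotent on inertia groups
  have htr : ∀ v : HeightOneSpectrum (𝓞 ℚ), ((2 : ℕ) : 𝓞 ℚ) ∉ v.asIdeal →
      residue R (Multiplicative.toAdd (X (τ v)) x₀ x₀) = 0 := by
    intro v hv
    obtain ⟨k, hk⟩ := hnil v hv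
    set T := Multiplicative.toAdd (X (τ v)) with hT
    have h1 : ∀ k : ℕ, T ^ (k + 1) = (T x₀ x₀) ^ k • T := by
      intro k
      induction k with
      | zero => rw [zero_add, pow_one, pow_zero, one_smul]
      | succ k ih =>
        rw [pow_succ, ih, smul_mul_assoc, hT, hsq, ← hT, smul_smul, pow_succ]
    have h2 : (T x₀ x₀) ^ (k + 1) = 0 := by
      have h3 : T ^ (k + 1) = 0 := by rw [pow_succ, hk, zero_mul]
      have h4 := congrFun (congrFun (h1 k) x₀) x₀
      rw [h3, Matrix.zero_apply, Matrix.smul_apply, smul_eq_mul, ← pow_succ] at h4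
      exact h4.symm
    have h3 := congrArg (residue R) h2
    rw [map_pow, map_zero] at h3
    exact (pow_eq_zero_iff (Nat.succ_ne_zero k)).1 h3
  have hplace : ∀ Q : Ideal (OO ℚ), ∀ hQ : Q.IsMaximal, ((2 : ℕ) : OO ℚ) ∉ Q →
      ((2 : ℕ) : 𝓞 ℚ) ∉ (place hQ).asIdeal := by
    intro Q hQ h2Q h
    exact h2Q (natCast_mem_cm.1 h)
  -- the trace of the Frobenius elements
  have hX0 : ∀ v ∈ S, Multiplicative.toAdd (X (σ v)) x₀ x₀ ∈ maximalIdeal R := by
    intro v hv
    have h8 : 8 ∣ nm v - 1 := by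
      have h1 : 2 ^ 3 ∣ 2 ^ m := pow_dvd_pow 2 hm
      exact (by norm_num : (8 : ℕ) = 2 ^ 3) ▸ h1.trans (hS v hv).1
    have h1 : residue R (Multiplicative.toAdd (X (σ v)) x₀ x₀) = 0 := by
      refine (Module.forall_dual_apply_eq_zero_iff (ZMod 2) _).1 fun φ => ?_
      have h2 : cmp X (phi φ) (σ v) = 1 := by
        have := two_le_nm v
        refine two_split (cmp_open hXc (N := 1) fun M hM => ?_) (fun Q hQ h2Q t ht => ?_)
          (hP v).1 (h2P v (hpv v hv)) (by omega) h8 (hσ v)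
        · rw [LinearMap.mem_ker, phi_apply]
          have h3 := hM x₀ x₀
          rw [pow_one] at h3
          rw [(residue_eq_zero_iff _).2 h3, map_zero]
        · have h3 := hplace Q hQ h2Q
          by_cases hQS : place hQ ∈ S
          · refine inertia_transport (cmp X (phi φ)) (fun e => e = 1) (hP (place hQ)).1 hQ
              ((hP (place hQ)).2) (fun s hs => ?_) t ht
            rw [cmp_eq_one]
            obtain ⟨c, hc⟩ := Submodule.mem_span_singleton.1 ((hτ _ h3).2 s hs)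
            rw [← hc, map_smul, phi_apply, htr _ h3, map_zero, smul_zero]
          · rw [cmp_eq_one, hin Q hQ (fun w hw h => hQS ?_) (fun w hw h => h3 ?_) t ht, toAdd_one,
              map_zero]
            · have h4 : place hQ = w := HeightOneSpectrum.ext h
              rwa [h4]
            · have h4 : place hQ = w := HeightOneSpectrum.ext h
              rw [h4]
              exact (hE w).1 hw
      exact (cmp_eq_one _ _ _).1 h2
    exact (residue_eq_zero_iff _).1 h1
  -- the inertia groups act trivially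
  have hT0 : ∀ v ∈ S, Multiplicative.toAdd (X (τ v)) = 0 := by
    intro v hv
    refine kill h2R (hX0 v hv) (hsq (σ v)) ?_
    obtain ⟨u, hu⟩ := (hS v hv).1
    have hu1 : nm v = 2 ^ m * u + 1 := by
      have := two_le_nm v
      omega
    rw [hrel v hv u hu1]
    have hodd : ¬ 2 ∣ u := by
      rintro ⟨w, rfl⟩
      apply (hS v hv).2
      rw [hu, pow_succ]
      exact Nat.mul_dvd_mul_left _ (Dvd.intro w rfl)
    have h1 : (u : ZMod 2) = 1 := by
      obtain ⟨w, hw⟩ : ∃ w, u = 2 * w + 1 := ⟨u / 2, by omega⟩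
      rw [hw, Nat.cast_add, Nat.cast_mul, Nat.cast_one]
      have : ((2 : ℕ) : ZMod 2) = 0 := by decide
      rw [this, zero_mul, zero_add]
    rw [h1, one_smul]
  intro v hv
  have h1 : Multiplicative.toAdd (X (σ v)) ∈
      (⊥ : Submodule (ZMod 2) (Matrix (Fin (2 * 2)) (Fin (2 * 2)) R)) := by
    have h8 : 8 ∣ nm v - 1 := by
      have h1 : 2 ^ 3 ∣ 2 ^ m := pow_dvd_pow 2 hm
      exact (by norm_num : (8 : ℕ) = 2 ^ 3) ▸ h1.trans (hS v hv).1
    refine mem_W hF hXc hreal ⊥ inferInstance E (fun Q hQ hQE t ht => ?_) ∅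
      (fun _ hh => absurd hh (Set.notMem_empty _)) (σ v) fun χ hχ _ => ?_
    · rw [Submodule.mem_bot]
      have h3 : ((2 : ℕ) : 𝓞 ℚ) ∉ (place hQ).asIdeal := fun h =>
        hQE (place hQ) ((hE _).2 h) rfl
      by_cases hQS : place hQ ∈ S
      · refine inertia_transport X (fun e => Multiplicative.toAdd e = 0) (hP (place hQ)).1 hQ
          ((hP (place hQ)).2) (fun s hs => ?_) t ht
        have h4 := (hτ _ h3).2 s hs
        rw [hT0 _ hQS, Submodule.span_zero_singleton, Submodule.mem_bot] at h4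
        exact h4
      · rw [hin Q hQ (fun w hw h => hQS ?_) hQE t ht, toAdd_one]
        have h4 : place hQ = w := HeightOneSpectrum.ext h
        rwa [h4]
    · have := two_le_nm v
      refine two_split hχ.open_ker (fun Q hQ h2Q t ht => hχ.inertia Q hQ (fun w hw h => ?_) t ht)
        (hP v).1 (h2P v (hpv v hv)) (by omega) h8 (hσ v)
      apply h2Q
      apply natCast_mem_cm.1
      rw [h]
      exact (hE w).1 hw
  rw [Submodule.mem_bot] at h1
  rw [h1]
  exact IsNilpotent.zero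

end

end Pool.Agent.V11248.FM
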