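import Pool.Agent.V11248.FM.TwoG
import Pool.Agent.V11248.FM.StepU

/-!
# Two-dimensional representations which are scalar modulo a power of two: the general step
-/

set_option autoImplicit false

namespace Pool.Agent.V11248.FM

open NumberField IsDedekindDomain Matrix IsLocalRing Pool.Agent.W569.FM Pool.Agent.W571.FM

section
variable {R : Type} [CommRing R] [IsLocalRing R] [Algebra (ZMod 2) R]

variable [IsNoetherianRing R]

/-- eigenvectors of the Frobenius elements at the places in `S` -/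
theorem two_stepU {m : ℕ} (hm : 3 ≤ m) (S : Set (HeightOneSpectrum (𝓞 ℚ)))
    (hS : ∀ v ∈ S, 2 ^ m ∣ nm v - 1 ∧ ¬ 2 ^ (m + 1) ∣ nm v - 1)
    (X : GF ℚ →* Multiplicative (Matrix (Fin (2 * 2)) (Fin (2 * 2)) R))
    (P : HeightOneSpectrum (𝓞 ℚ) → Ideal (OO ℚ)) (σ τ : HeightOneSpectrum (𝓞 ℚ) → GF ℚ)
    (had : ∀ g, ∃ y : Matrix (Fin 2) (Fin 2) R, Multiplicative.toAdd (X g) = adl y)
    (hXc : ∀ N : ℕ, ∀ᶠ g in nhds (1 : GF ℚ),
      Multiplicative.toAdd (X g) ∈ filM 2 (2 * 2) (maximalIdeal R ^ N))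
    (hP : ∀ v, (P v).IsMaximal ∧ cm (P v) = v.asIdeal) (hσ : ∀ v, FrobAt (nm v) (P v) (σ v))
    (hτ : ∀ v : HeightOneSpectrum (𝓞 ℚ), ((2 : ℕ) : 𝓞 ℚ) ∉ v.asIdeal → InInertia (P v) (τ v) ∧
      ∀ t : GF ℚ, InInertia (P v) t → Multiplicative.toAdd (X t) ∈
        Submodule.span (ZMod 2) {Multiplicative.toAdd (X (τ v))})
    (hnil : ∀ v : HeightOneSpectrum (𝓞 ℚ), ((2 : ℕ) : 𝓞 ℚ) ∉ v.asIdeal →
      IsNilpotent (Multiplicative.toAdd (X (τ v))))
    (hpv : ∀ v ∈ S, ((2 : ℕ) : 𝓞 ℚ) ∉ v.asIdeal) :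
    ∀ v ∈ S, ∀ u : ℕ, nm v = 2 ^ m * u + 1 → ∀ x : Matrix (Fin (2 * 2)) (Fin (2 * 2)) R,
        Multiplicative.toAdd (X (σ v)) * x - x * Multiplicative.toAdd (X (σ v)) =
          (u : ZMod 2) • x → x = 0 := by
  classical
  have h2R : (2 : R) = 0 := by
    have h1 : algebraMap (ZMod 2) R 2 = 0 := by
      have : (2 : ZMod 2) = 0 := by decide
      rw [this, map_zero]
    rwa [map_ofNat] at h1
  have hF : Fil (p := 2) (fun N => filM 2 (2 * 2) (maximalIdeal R ^ N)) := fil_max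
  have hsq : ∀ g, Multiplicative.toAdd (X g) * Multiplicative.toAdd (X g) =
      (Multiplicative.toAdd (X g) x₀ x₀) • Multiplicative.toAdd (X g) := by
    intro g
    obtain ⟨y, hy⟩ := had g
    rw [hy]
    exact adl_sq h2R y
  have h2P : ∀ v : HeightOneSpectrum (𝓞 ℚ), ((2 : ℕ) : 𝓞 ℚ) ∉ v.asIdeal →
      ((2 : ℕ) : OO ℚ) ∉ P v := by
    intro v hv h
    apply hv
    have h1 := natCast_mem_cm.2 h
    rwa [(hP v).2] at h1
  -- the trace is nilpotent on inertia groups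
  have htr : ∀ v : HeightOneSpectrum (𝓞 ℚ), ((2 : ℕ) : 𝓞 ℚ) ∉ v.asIdeal →
      residue R (Multiplicative.toAdd (X (τ v)) x₀ x₀) = 0 := by
    intro v hv
    obtain ⟨k, hk⟩ := hnil v hv
    set T := Multiplicative.toAdd (X (τ v)) with hT
    have h1 : ∀ k : ℕ, T ^ (k + 1) = (T x₀ x₀) ^ k • T := by
      intro k
      induction k with
      | zero => rw [zero_add, pow_one, pow_zero, one_smul]
      | succ k ih =>
        rw [pow_succ, ih, smul_mul_assoc, hT, hsq, ← hT, smul_smul, pow_succ]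
    have h2 : (T x₀ x₀) ^ (k + 1) = 0 := by
      have h3 : T ^ (k + 1) = 0 := by rw [pow_succ, hk, zero_mul]
      have h4 := congrFun (congrFun (h1 k) x₀) x₀
      rw [h3, Matrix.zero_apply, Matrix.smul_apply, smul_eq_mul, ← pow_succ] at h4
      exact h4.symm
    have h3 := congrArg (residue R) h2
    rw [map_pow, map_zero] at h3
    exact (pow_eq_zero_iff (Nat.succ_ne_zero k)).1 h3
  have hplace : ∀ Q : Ideal (OO ℚ), ∀ hQ : Q.IsMaximal, ((2 : ℕ) : OO ℚ) ∉ Q →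
      ((2 : ℕ) : 𝓞 ℚ) ∉ (place hQ).asIdeal := by
    intro Q hQ h2Q h
    exact h2Q (natCast_mem_cm.1 h)
  -- the trace of the Frobenius elements
  have hX0 : ∀ v ∈ S, Multiplicative.toAdd (X (σ v)) x₀ x₀ ∈ maximalIdeal R := by
    intro v hv
    have h8 : 8 ∣ nm v - 1 := by
      have h1 : 2 ^ 3 ∣ 2 ^ m := pow_dvd_pow 2 hm
      exact (by norm_num : (8 : ℕ) = 2 ^ 3) ▸ h1.trans (hS v hv).1
    have h1 : residue R (Multiplicative.toAdd (X (σ v)) x₀ x₀) = 0 := by
      refine (Module.forall_dual_apply_eq_zero_iff (ZMod 2) _).1 fun φ => ?_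
      have h2 : cmp X (phi φ) (σ v) = 1 := by
        have := two_le_nm v
        refine two_split (cmp_open hXc (N := 1) fun M hM => ?_) (fun Q hQ h2Q t ht => ?_)
          (hP v).1 (h2P v (hpv v hv)) (by omega) h8 (hσ v)
        · rw [LinearMap.mem_ker, phi_apply]
          have h3 := hM x₀ x₀
          rw [pow_one] at h3
          rw [(residue_eq_zero_iff _).2 h3, map_zero]
        · have h3 := hplace Q hQ h2Q
          refine inertia_transport (cmp X (phi φ)) (fun e => e = 1) (hP (place hQ)).1 hQ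
            ((hP (place hQ)).2) (fun s hs => ?_) t ht
          rw [cmp_eq_one]
          obtain ⟨c, hc⟩ := Submodule.mem_span_singleton.1 ((hτ _ h3).2 s hs)
          rw [← hc, map_smul, phi_apply, htr _ h3, map_zero, smul_zero]
      exact (cmp_eq_one _ _ _).1 h2
    exact (residue_eq_zero_iff _).1 h1
  intro v hv u hu1 x hx
  refine kill h2R (hX0 v hv) (hsq (σ v)) ?_
  have hodd : ¬ 2 ∣ u := by
    rintro ⟨w, rfl⟩
    apply (hS v hv).2
    have hu : nm v - 1 = 2 ^ m * (2 * w) := by omega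
    rw [hu, pow_succ]
    rw [← mul_assoc]
    exact Dvd.intro w rfl
  have h1 : (u : ZMod 2) = 1 := by
    obtain ⟨w, hw⟩ : ∃ w, u = 2 * w + 1 := ⟨u / 2, by omega⟩
    rw [hw, Nat.cast_add, Nat.cast_mul, Nat.cast_one]
    have : ((2 : ℕ) : ZMod 2) = 0 := by decide
    rw [this, zero_mul, zero_add]
  rw [hx, h1, one_smul]

end

end Pool.Agent.V11248.FM
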